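import Pool.Agent.H952.QW.Stm

/-!
# The drift of the walk (subtask QW5: `DRIFT` from `MGF` and `NST`)

Author: helper114.
-/

set_option autoImplicit false
set_option linter.unusedSectionVars false

namespace Pool.Agent.H952.QW

open Finset Pool.Agent.H98.BG
open scoped Pointwise

namespace DriftL

variable {G : Type} [AddCommGroup G] [Fintype G] [DecidableEq G] {m : ℕ} {σ τ : G → ℝ}

theorem Wt_nonneg (hσ : IsP σ) (hτ : IsP τ) (z : Fin m → G) (t : G) :
    0 ≤ Wt σ τ z t := mul_nonneg (hτ.1 t) (prod_nonneg fun _ _ => hσ.1 _)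

theorem Pz_nonneg (hσ : IsP σ) (hτ : IsP τ) (z : Fin m → G) :
    0 ≤ Pz σ τ z := sum_nonneg fun t _ => Wt_nonneg hσ hτ z t

theorem post_nonneg (hσ : IsP σ) (hτ : IsP τ) (z : Fin m → G) (t : G) :
    0 ≤ post σ τ z t := div_nonneg (Wt_nonneg hσ hτ z t) (Pz_nonneg hσ hτ z)

theorem sum_ww (hσ : IsP σ) (hτ : IsP τ) (z : Fin m → G) (t : G) :
    ∑ t', Wt σ τ z t * post σ τ z t' = Wt σ τ z t := by
  rw [← mul_sum]
  rcases (Pz_nonneg hσ hτ z).eq_or_lt with h0 | h0
  · have h1 : Wt σ τ z t = 0 :=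
      (sum_eq_zero_iff_of_nonneg (fun t _ => Wt_nonneg hσ hτ z t)).1 h0.symm t (mem_univ t)
    rw [h1, zero_mul]
  · have h1 : ∑ t', post σ τ z t' = 1 := by
      unfold post
      rw [← sum_div]
      exact div_self h0.ne'
    rw [h1, mul_one]

theorem ww_symm (σ τ : G → ℝ) (z : Fin m → G) (t t' : G) :
    Wt σ τ z t * post σ τ z t' = Wt σ τ z t' * post σ τ z t := by
  unfold post
  ring

theorem L5 (hσ : IsP σ) (hτ : IsP τ) (Ψ : (Fin m → G) → G → ℝ) :
    ∑ z : Fin m → G, ∑ t, ∑ t', ∑ u, Wt σ τ z t * post σ τ z t' * Ψ (fun i => z i - t) (u + t) =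
      ∑ x, Ex σ (fun s : Fin m → G => Ψ s x) := by
  have h1 : ∀ (z : Fin m → G) (t : G),
      ∑ t', ∑ u, Wt σ τ z t * post σ τ z t' * Ψ (fun i => z i - t) (u + t) =
      Wt σ τ z t * ∑ x, Ψ (fun i => z i - t) x := by
    intro z t
    have h2 : ∀ t', ∑ u, Wt σ τ z t * post σ τ z t' * Ψ (fun i => z i - t) (u + t) =
       Wt σ τ z t * post σ τ z t' * ∑ x, Ψ (fun i => z i - t) x := by
      intro t'
      rw [← mul_sum]
      have h3 : ∑ u, Ψ (fun i => z i - t) (u + t) = ∑ x, Ψ (fun i => z i - t) x :=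
        Equiv.sum_comp (Equiv.addRight t) (fun x => Ψ (fun i => z i - t) x)
      rw [h3]
    simp only [h2]
    rw [← sum_mul, sum_ww hσ hτ]
  simp only [h1]
  rw [sum_comm]
  have h3 : ∀ t, ∑ z : Fin m → G, Wt σ τ z t * ∑ x, Ψ (fun i => z i - t) x =
      τ t * ∑ x, Ex σ (fun s : Fin m → G => Ψ s x) := by
    intro t
    have h4 : ∑ x, Ex σ (fun s : Fin m → G => Ψ s x) =
        ∑ s : Fin m → G, (∏ i, σ (s i)) * ∑ x, Ψ s x := by
      unfold Ex
      rw [sum_comm]
      refine sum_congr rfl fun s _ => ?_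
      rw [mul_sum]
    rw [h4, mul_sum, ← (Equiv.subRight (fun _ : Fin m => t)).sum_comp
      (fun s : Fin m → G => τ t * ((∏ i, σ (s i)) * ∑ x, Ψ s x))]
    refine sum_congr rfl fun z _ => ?_
    have e : (Equiv.subRight (fun _ : Fin m => t)) z = fun i => z i - t := by
      ext i
      simp
    rw [e]
    unfold Wt
    ring
  simp only [h3]
  rw [← sum_mul, hτ.2, one_mul]

theorem L6 (hσ : IsP σ) (hτ : IsP τ) (Ψ : (Fin m → G) → G → ℝ) :
    ∑ z : Fin m → G, ∑ t, ∑ t', ∑ u, Wt σ τ z t * post σ τ z t' * Ψ (fun i => z i - t') (u + t') =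
      ∑ x, Ex σ (fun s : Fin m → G => Ψ s x) := by
  rw [← L5 hσ hτ Ψ]
  refine sum_congr rfl fun z _ => ?_
  rw [sum_comm]
  refine sum_congr rfl fun t _ => sum_congr rfl fun t' _ => sum_congr rfl fun u _ => ?_
  rw [ww_symm σ τ z t' t]

theorem Ex_const (hσ : IsP σ) (c : ℝ) : Ex σ (fun _ : Fin m → G => c) = c := by
  unfold Ex
  rw [← sum_mul]
  have h : ∑ s : Fin m → G, ∏ i, σ (s i) = 1 := by
    have h1 := Finset.prod_univ_sum (fun _ : Fin m => (univ : Finset G)) (fun _ x => σ x)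
    rw [Fintype.piFinset_univ] at h1
    rw [← h1]
    simp [hσ.2]
  rw [h, one_mul]

theorem Ex_one_coord (hσ : IsP σ) (i : Fin m) (φ : G → ℝ) :
    Ex σ (fun s : Fin m → G => φ (s i)) = ∑ x, σ x * φ x := by
  unfold Ex
  have h1 := Finset.prod_univ_sum (fun _ : Fin m => (univ : Finset G))
    (fun j x => if j = i then σ x * φ x else σ x)
  rw [Fintype.piFinset_univ] at h1
  have h2 : ∀ s : Fin m → G, (∏ j, σ (s j)) * φ (s i) =
      ∏ j, (if j = i then σ (s j) * φ (s j) else σ (s j)) := by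
    intro s
    have h3 : ∀ j, (if j = i then σ (s j) * φ (s j) else σ (s j)) =
        σ (s j) * (if j = i then φ (s j) else 1) := by
      intro j
      split_ifs <;> simp
    simp only [h3]
    rw [prod_mul_distrib]
    have h4 : ∏ j, (if j = i then φ (s j) else 1) = φ (s i) := by
      rw [Finset.prod_ite_eq' univ i (fun j => φ (s j))]
      simp
    rw [h4]
  simp only [h2]
  rw [← h1]
  have h5 : ∀ j : Fin m, ∑ x, (if j = i then σ x * φ x else σ x) =
      if j = i then ∑ x, σ x * φ x else 1 := by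
    intro j
    by_cases h : j = i
    · simp only [if_pos h]
    · simp only [if_neg h]
      exact hσ.2
  simp only [h5]
  rw [Finset.prod_ite_eq' univ i (fun _ => ∑ x, σ x * φ x)]
  simp

theorem Ex_em (hσ : IsP σ) (hm : 0 < m) (B : Finset G) (x : G) :
    Ex σ (fun s : Fin m → G => em B s x) = pr σ B x := by
  have hm' : (m : ℝ) ≠ 0 := by exact_mod_cast hm.ne'
  have h1 : Ex σ (fun s : Fin m → G => em B s x) =
      (∑ i : Fin m, Ex σ (fun s : Fin m → G => if x + s i ∈ B then (1 : ℝ) else 0)) / m := by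
    unfold Ex Pool.Agent.H98.BG.em
    rw [sum_comm, sum_div]
    refine sum_congr rfl fun s _ => ?_
    rw [← mul_sum]
    ring
  rw [h1]
  have h2 : ∀ i : Fin m, Ex σ (fun s : Fin m → G => if x + s i ∈ B then (1 : ℝ) else 0) = pr σ B x := by
    intro i
    rw [Ex_one_coord hσ i (fun y => if x + y ∈ B then (1 : ℝ) else 0)]
    unfold pr
    refine sum_congr rfl fun y _ => ?_
    split_ifs <;> simp
  simp only [h2]
  rw [sum_const, card_univ, Fintype.card_fin, nsmul_eq_mul]
  field_simp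

theorem em_shift (B : Finset G) (z : Fin m → G) (u t : G) :
    em B (fun i => z i - t) (u + t) = em B z u := by
  unfold Pool.Agent.H98.BG.em
  have h : ∀ i, u + t + (z i - t) = u + z i := fun i => by abel
  simp only [h]

theorem L2 (σ τ α ψ : G → ℝ) (m : ℕ) :
    ∑ z : Fin m → G, ∑ t, ∑ t', ∑ u, Wt σ τ z t * post σ τ z t' * (α (u + t) * ψ (u + t')) =
      ∑ y, Nst m σ τ α y * ψ y := by
  have h1 : ∀ (z : Fin m → G) (t t' : G),
      ∑ u, Wt σ τ z t * post σ τ z t' * (α (u + t) * ψ (u + t')) =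
      ∑ y, Wt σ τ z t * post σ τ z t' * α (y + t - t') * ψ y := by
    intro z t t'
    rw [← Equiv.sum_comp (Equiv.addRight t')
      (fun y => Wt σ τ z t * post σ τ z t' * α (y + t - t') * ψ y)]
    refine sum_congr rfl fun u _ => ?_
    simp only [Equiv.coe_addRight]
    have e : u + t' + t - t' = u + t := by abel
    rw [e]
    ring
  simp only [h1]
  have h2 : ∀ y, Nst m σ τ α y * ψ y =
      ∑ z : Fin m → G, ∑ t, ∑ t', Wt σ τ z t * post σ τ z t' * α (y + t - t') * ψ y := by
    intro y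
    unfold Nst
    simp only [sum_mul]
  simp only [h2]
  symm
  rw [sum_comm]
  refine sum_congr rfl fun z _ => ?_
  rw [sum_comm]
  refine sum_congr rfl fun t _ => ?_
  rw [sum_comm]

/-- the mean over the walk, without the law of the starting point -/
noncomputable def D (σ τ : G → ℝ) (φ : (Fin m → G) → G → G → G → ℝ) : ℝ :=
  ∑ z : Fin m → G, ∑ t, ∑ t', ∑ u, Wt σ τ z t * post σ τ z t' * φ z t t' u

theorem D_mono {φ ψ : (Fin m → G) → G → G → G → ℝ}
    (h : ∀ z t t' u, Wt σ τ z t * post σ τ z t' * φ z t t' u ≤ Wt σ τ z t * post σ τ z t' * ψ z t t' u) :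
    D σ τ φ ≤ D σ τ ψ :=
  sum_le_sum fun z _ => sum_le_sum fun t _ => sum_le_sum fun t' _ => sum_le_sum fun u _ => h z t t' u

theorem D_lin (φ1 φ2 φ3 φ4 φ5 : (Fin m → G) → G → G → G → ℝ) (l c : ℝ) :
    D σ τ (fun z t t' u => φ1 z t t' u - φ2 z t t' u + l * φ3 z t t' u - l * φ4 z t t' u -
      c * φ5 z t t' u) =
    D σ τ φ1 - D σ τ φ2 + l * D σ τ φ3 - l * D σ τ φ4 - c * D σ τ φ5 := by
  unfold D
  simp only [mul_sum]
  simp only [← sum_sub_distrib, ← sum_add_distrib]
  refine sum_congr rfl fun z _ => sum_congr rfl fun t _ => sum_congr rfl fun t' _ =>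
    sum_congr rfl fun u _ => ?_
  ring

theorem D_sub (φ1 φ2 : (Fin m → G) → G → G → G → ℝ) :
    D σ τ (fun z t t' u => φ1 z t t' u - φ2 z t t' u) = D σ τ φ1 - D σ τ φ2 := by
  unfold D
  simp only [← sum_sub_distrib]
  refine sum_congr rfl fun z _ => sum_congr rfl fun t _ => sum_congr rfl fun t' _ =>
    sum_congr rfl fun u _ => ?_
  ring

theorem Ex_mul_left (c : ℝ) (φ : (Fin m → G) → ℝ) :
    Ex σ (fun s => c * φ s) = c * Ex σ φ := by
  unfold Ex
  rw [mul_sum]
  refine sum_congr rfl fun s _ => ?_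
  ring

theorem D_start (hσ : IsP σ) (hτ : IsP τ) (F : G → ℝ) :
    D σ τ (fun (_ : Fin m → G) t _ u => F (u + t)) = ∑ x, F x := by
  have h := L5 (m := m) hσ hτ (fun _ x => F x)
  simp only [Ex_const hσ] at h
  exact h

theorem le_Nst (hσ : IsP σ) (hτ : IsP τ) {α : G → ℝ} (hα : ∀ x, 0 ≤ α x) (z : Fin m → G)
    (t t' y : G) : Wt σ τ z t * post σ τ z t' * α (y + t - t') ≤ Nst m σ τ α y := by
  have h0 : ∀ (z : Fin m → G) (t t' : G), 0 ≤ Wt σ τ z t * post σ τ z t' * α (y + t - t') :=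
    fun z t t' => mul_nonneg (mul_nonneg (Wt_nonneg hσ hτ z t) (post_nonneg hσ hτ z t')) (hα _)
  unfold Nst
  have h1 := single_le_sum (f := fun t' => Wt σ τ z t * post σ τ z t' * α (y + t - t'))
    (fun t' _ => h0 z t t') (mem_univ t')
  have h2 := single_le_sum (f := fun t => ∑ t', Wt σ τ z t * post σ τ z t' * α (y + t - t'))
    (fun t _ => sum_nonneg fun t' _ => h0 z t t') (mem_univ t)
  have h3 := single_le_sum
    (f := fun z : Fin m → G => ∑ t, ∑ t', Wt σ τ z t * post σ τ z t' * α (y + t - t'))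
    (fun z _ => sum_nonneg fun t _ => sum_nonneg fun t' _ => h0 z t t') (mem_univ z)
  exact (h1.trans h2).trans h3

theorem pointwise {W A n c : ℝ} (hW : 0 ≤ W) (hA : 0 ≤ A) (hn : 0 ≤ n) (hWA : W * A ≤ n) :
    W * (A * (Real.log n - Real.log A + c)) ≤ W * (n * Real.exp c - A) := by
  rcases hW.eq_or_lt with h0 | hW
  · rw [← h0]; simp
  refine mul_le_mul_of_nonneg_left ?_ hW.le
  rcases hA.eq_or_lt with h0 | hA
  · rw [← h0]
    have : 0 ≤ n * Real.exp c := mul_nonneg hn (Real.exp_pos c).le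
    simpa using this
  have hn' : 0 < n := lt_of_lt_of_le (mul_pos hW hA) hWA
  have h1 := Real.log_le_sub_one_of_pos (x := n * Real.exp c / A) (by positivity)
  rw [Real.log_div (mul_pos hn' (Real.exp_pos c)).ne' hA.ne', Real.log_mul hn'.ne'
    (Real.exp_pos c).ne', Real.log_exp] at h1
  have h2 := mul_le_mul_of_nonneg_left h1 hA.le
  have h3 : A * (n * Real.exp c / A - 1) = n * Real.exp c - A := by
    field_simp
  rw [h3] at h2
  linarith

end DriftL

open DriftL in
theorem drift (mgf : MGF) (nst : NST) : DRIFT := by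
  intro G _ _ _ m σ τ α B l hσ hτ hα hα1 hm hl hlm
  obtain ⟨n1, n2, -, -, -⟩ := nst G m σ τ hσ hτ
  obtain ⟨N, hN⟩ : ∃ N : G → ℝ, N = Nst m σ τ α := ⟨_, rfl⟩
  obtain ⟨g, hg⟩ : ∃ g : G → ℝ, g = pr σ B := ⟨_, rfl⟩
  have hN0 : ∀ y, 0 ≤ N y := by rw [hN]; exact n1 α hα
  have hNs : ∑ y, N y = ∑ x, α x := by rw [hN]; exact n2 α
  have hm' : (0 : ℝ) < m := by exact_mod_cast hm
  -- the two means
  have hmono : D σ τ (fun (z : Fin m → G) t t' u => α (u + t) * (Real.log (N (u + t')) -
      Real.log (α (u + t)) + (l * (Pool.Agent.H98.BG.em B z u - g (u + t')) - l ^ 2 / m))) ≤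
      D σ τ (fun (z : Fin m → G) t t' u => N (u + t') *
        Real.exp (l * (Pool.Agent.H98.BG.em B z u - g (u + t')) - l ^ 2 / m) - α (u + t)) := by
    refine D_mono fun z t t' u => ?_
    refine pointwise (mul_nonneg (Wt_nonneg hσ hτ z t) (post_nonneg hσ hτ z t')) (hα _) (hN0 _) ?_
    have h := le_Nst hσ hτ hα z t t' (u + t')
    have e : u + t' + t - t' = u + t := by abel
    rw [e] at h
    rw [hN]
    exact h
  -- left side
  have hL : D σ τ (fun (z : Fin m → G) t t' u => α (u + t) * (Real.log (N (u + t')) -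
      Real.log (α (u + t)) + (l * (Pool.Agent.H98.BG.em B z u - g (u + t')) - l ^ 2 / m))) =
      -H N + H α + l * (∑ x, α x * g x) - l * (∑ y, N y * g y) - l ^ 2 / m * ∑ x, α x := by
    have e1 : (fun (z : Fin m → G) t t' u => α (u + t) * (Real.log (N (u + t')) -
      Real.log (α (u + t)) + (l * (Pool.Agent.H98.BG.em B z u - g (u + t')) - l ^ 2 / m))) =
      (fun (z : Fin m → G) t t' u => α (u + t) * Real.log (N (u + t')) -
        α (u + t) * Real.log (α (u + t)) +
        l * (α (u + t) * Pool.Agent.H98.BG.em B z u) - l * (α (u + t) * g (u + t')) -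
        l ^ 2 / m * α (u + t)) := by
      funext z t t' u
      ring
    rw [e1, D_lin (fun (_ : Fin m → G) t t' u => α (u + t) * Real.log (N (u + t')))
      (fun _ t _ u => α (u + t) * Real.log (α (u + t)))
      (fun z t _ u => α (u + t) * Pool.Agent.H98.BG.em B z u)
      (fun _ t t' u => α (u + t) * g (u + t')) (fun _ t _ u => α (u + t)) l (l ^ 2 / m)]
    have d1 : D σ τ (fun (_ : Fin m → G) t t' u => α (u + t) * Real.log (N (u + t'))) = -H N := by
      have h := L2 σ τ α (fun y => Real.log (N y)) m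
      unfold D
      rw [h, ← hN]
      unfold H Real.negMulLog
      rw [← sum_neg_distrib]
      refine sum_congr rfl fun y _ => ?_
      ring
    have d2 : D σ τ (fun (_ : Fin m → G) t _ u => α (u + t) * Real.log (α (u + t))) = -H α := by
      rw [D_start hσ hτ (fun x => α x * Real.log (α x))]
      unfold H Real.negMulLog
      rw [← sum_neg_distrib]
      refine sum_congr rfl fun y _ => ?_
      ring
    have d3 : D σ τ (fun (z : Fin m → G) t _ u => α (u + t) * Pool.Agent.H98.BG.em B z u) =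
        ∑ x, α x * g x := by
      have h := L5 (m := m) hσ hτ (fun s x => α x * Pool.Agent.H98.BG.em B s x)
      simp only [em_shift, Ex_mul_left, Ex_em hσ hm] at h
      rw [hg]
      exact h
    have d4 : D σ τ (fun (_ : Fin m → G) t t' u => α (u + t) * g (u + t')) = ∑ y, N y * g y := by
      have h := L2 σ τ α g m
      rw [hN]
      exact h
    have d5 : D σ τ (fun (_ : Fin m → G) t _ u => α (u + t)) = ∑ x, α x := D_start hσ hτ α
    rw [d1, d2, d3, d4, d5]
    ring
  -- right side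
  have hR : D σ τ (fun (z : Fin m → G) t t' u => N (u + t') *
        Real.exp (l * (Pool.Agent.H98.BG.em B z u - g (u + t')) - l ^ 2 / m) - α (u + t)) ≤ 0 := by
    rw [D_sub (fun (z : Fin m → G) _ t' u => N (u + t') *
        Real.exp (l * (Pool.Agent.H98.BG.em B z u - g (u + t')) - l ^ 2 / m))
        (fun _ t _ u => α (u + t)), D_start hσ hτ α]
    have h := L6 (m := m) hσ hτ (fun s x => N x *
      Real.exp (l * (Pool.Agent.H98.BG.em B s x - g x) - l ^ 2 / m))
    simp only [em_shift] at h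
    have h2 : ∑ x, Ex σ (fun s : Fin m → G => N x *
        Real.exp (l * (Pool.Agent.H98.BG.em B s x - g x) - l ^ 2 / m)) ≤ ∑ x, N x := by
      refine sum_le_sum fun x _ => ?_
      have e1 : (fun s : Fin m → G => N x *
          Real.exp (l * (Pool.Agent.H98.BG.em B s x - g x) - l ^ 2 / m)) =
          fun s => (N x * Real.exp (-(l ^ 2 / m))) *
            Real.exp (l * (Pool.Agent.H98.BG.em B s x - g x)) := by
        funext s
        rw [mul_assoc, ← Real.exp_add]
        congr 2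
        ring
      rw [e1, Ex_mul_left]
      have h3 := mgf G m σ B x l hσ hm hl hlm
      rw [← hg] at h3
      have h4 : 0 ≤ N x * Real.exp (-(l ^ 2 / m)) := mul_nonneg (hN0 x) (Real.exp_pos _).le
      have h5 := mul_le_mul_of_nonneg_left h3 h4
      refine h5.trans (le_of_eq ?_)
      rw [mul_assoc, ← Real.exp_add, neg_add_cancel, Real.exp_zero, mul_one]
    have h6 : D σ τ (fun (z : Fin m → G) _ t' u => N (u + t') *
        Real.exp (l * (Pool.Agent.H98.BG.em B z u - g (u + t')) - l ^ 2 / m)) ≤ ∑ x, N x :=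
      (le_of_eq h).trans h2
    rw [hNs] at h6
    linarith
  have hfin := hmono.trans hR
  rw [hL] at hfin
  rw [← hg, ← hN]
  have hq : l ^ 2 / m * ∑ x, α x ≤ l ^ 2 / m := by
    have : 0 ≤ l ^ 2 / (m : ℝ) := by positivity
    nlinarith
  linarith

end Pool.Agent.H952.QW
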