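import Pool.Agent.H952.QW.Stm

/-!
# `2A - 2A`: the bound `O(log² K (log log K)⁶)`, uniform version (statements)

Version 5 of `KILL`, `STEP4`, `Good4`, `GO04`, `GOS4`, `GON4`, `FG4` of `Stm.lean`: the same proofs, with the number of
levels `n` in the bounds (all constants `C` are absolute).
-/

set_option autoImplicit false

namespace Pool.Agent.H952.QW

open Finset Pool.Agent.H98.BG
open scoped Pointwise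

/-- QW-KILL5: as `KILL` (same hypotheses, same proof), with the stronger conclusion
`∑ α (1 - g) + (1 - ∑ α) / 2 ≤ δ`, which is the inequality `u J + (1 - ∑ α J) / 2 ≤ δ` of the proof. -/
def KILL5 : Prop := ∀ (G : Type) [AddCommGroup G] [Fintype G] [DecidableEq G]
  (N : (G → ℝ) → (G → ℝ)) (a g : G → ℝ) (R : Finset G) (k : ℕ) (M L l w u δ : ℝ),
  (∀ α : G → ℝ, (∀ x, 0 ≤ α x) → ∀ y, 0 ≤ N α y) →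
  (∀ α : G → ℝ, ∑ y, N α y = ∑ x, α x) →
  (∀ (α : G → ℝ) (M : ℝ), (∀ x, α x ≤ M) → ∀ y, N α y ≤ M) →
  (∀ α : G → ℝ, (∀ x, α x ≠ 0 → a x ≠ 0 ∨ 1 / 2 ≤ g x) → ∀ y, N α y ≠ 0 → y ∈ R) →
  (∀ x, a x ≠ 0 → x ∈ R) →
  (∀ α : G → ℝ, (∀ x, 0 ≤ α x) → ∑ x, α x ≤ 1 →
    l * (∑ x, α x * g x - ∑ y, N α y * g y) ≤ H (N α) - H α + w) →
  (∀ x, 0 ≤ g x) → (∀ x, g x ≤ 1) → IsP a → (∀ x, a x ≤ M) → 0 < M → 0 < k → 0 < l → 0 ≤ w →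
  Real.log ((k + 1 : ℝ) * R.card) + Real.log M ≤ L →
  ∑ x, a x * (1 - g x) ≤ u → u + (L + k * w) / l ≤ δ → δ ≤ 1 / 8 →
  ∃ α : G → ℝ, (∀ x, 0 ≤ α x) ∧ (∀ x, α x ≤ M) ∧ (∀ x, α x ≠ 0 → a x ≠ 0 ∨ 1 / 2 ≤ g x) ∧
    ∑ x, α x ≤ 1 ∧ ∑ x, α x * (1 - g x) + (1 - ∑ x, α x) / 2 ≤ δ ∧ H (N α) - H α ≤ L / k

/-- QW-STEP5: one level.
PROOF. Apply KILL5 to `N = Nst m σ τ`, `g = pr σ Z`, `w = l ^ 2 / m` (DRIFT, NST), to get `α`; let `s = ∑ α`, so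
`s ≥ 1 - 2 δ ≥ 3/4`, and `σ' = α / s`. `∑ σ' (1 - g) ≤ (δ - (1 - s) / 2) / s ≤ δ` (as `δ ≤ 1/2`, `s ≤ 1`).
`H (N σ') - H σ' = (H (N α) - H α) / s ≤ (4 / 3) L / k` (the masses of `α`, `N α` are equal). By NENT and T1
`∑ z, Pz z * Y z ≤ (4 / 3) L / k` and `∑ z, Pz z * X z ≤ x := (Lq - H τ) + m c` where
`Y z = H (cv σ' (post z)) - H σ' ≥ 0` and `X z = Lq - H (post z) ≥ 0` for `Pz z > 0` (BAS: supports in `Q`). So some `z` with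
`Pz z > 0` has `X z ≤ (1 + θ) x + 1` and `Y z ≤ 4 L / (k θ)`, as otherwise
`X z / ((1 + θ) x + 1) + Y z / (4 L / (k θ)) > 1` for all such `z`, with mean at most
`x / ((1 + θ) x + 1) + θ / 3 < 1 / (1 + θ) + θ / 3 ≤ 1`. -/
def STEP5 : Prop := ∀ (G : Type) [AddCommGroup G] [Fintype G] [DecidableEq G] (a σ τ : G → ℝ)
  (Z R Q : Finset G) (m k : ℕ) (c u l δ θ M L Lq : ℝ), IsP a → IsP σ → IsP τ →
  (∀ t, τ t ≠ 0 → t ∈ Q) → Real.log Q.card ≤ Lq →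
  (∀ x, (a x ≠ 0 ∨ 1 / 2 ≤ pr σ Z x) → ∀ t ∈ Q, ∀ t' ∈ Q, x - t + t' ∈ R) →
  (∀ x, a x ≠ 0 → x ∈ R) → (∀ x, a x ≤ M) → 0 < M →
  H (cv σ τ) - H σ ≤ c → ∑ x, a x * (1 - pr σ Z x) ≤ u → 0 < m → 0 < k → 0 < l → l ≤ m → 0 < L →
  Real.log ((k + 1 : ℝ) * R.card) + Real.log M ≤ L → u + (L / l + k * l / m) ≤ δ → δ ≤ 1 / 8 →
  0 < θ → θ ≤ 1 →
  ∃ σ' τ' : G → ℝ, IsP σ' ∧ IsP τ' ∧ (∀ x, σ' x ≠ 0 → a x ≠ 0 ∨ 1 / 2 ≤ pr σ Z x) ∧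
    (∀ x, σ' x ≤ 2 * M) ∧ (∀ t, τ' t ≠ 0 → τ t ≠ 0) ∧
    ∑ x, σ' x * (1 - pr σ Z x) ≤ δ ∧ Lq - H τ' ≤ (1 + θ) * ((Lq - H τ) + m * c) + 1 ∧
    H (cv σ' τ') - H σ' ≤ 4 * L / (k * θ)

/-- the state after `i` levels (of `n`), `0 ∈ A` -/
def Good5 {G : Type} [AddCommGroup G] [Fintype G] [DecidableEq G] (n : ℕ) (A : Finset G) (i : ℕ)
    (d c : ℝ) : Prop :=
  ∃ a σ τ : G → ℝ, IsP a ∧ IsP σ ∧ IsP τ ∧ (∀ x, a x ≠ 0 → x ∈ (i + 1) • (A - A)) ∧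
    (∀ x, σ x ≠ 0 → x ∈ (i + 1) • (A - A)) ∧ (∀ t, τ t ≠ 0 → t ∈ A) ∧
    (∀ x, a x ≤ 2 ^ i / A.card) ∧ (∀ x, σ x ≤ 2 ^ i / A.card) ∧
    ∑ x, a x * (1 - pr σ (A - A) x) ≤ i / (16 * n) ∧
    Real.log A.card - H τ ≤ d ∧ H (cv σ τ) - H σ ≤ c

/-- QW-GO05, the start: `a` and `τ` uniform on `A`, `σ` uniform on `-A`. `pr σ (A - A) x = 1` for `x ∈ A`;
`H (cv σ τ) ≤ log |A - A|`. -/
def GO05 : Prop := ∀ (n : ℕ) (G : Type) [AddCommGroup G] [Fintype G] [DecidableEq G] (A : Finset G)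
  (K : ℝ), (0 : G) ∈ A → ((A - A).card : ℝ) ≤ K * A.card → Good5 n A 0 0 (Real.log K)

/-- QW-GOS5, one level (`n` is the total number of levels, `C` an absolute constant).
PROOF. Let `(a, σ, τ)` be the given state, `Z = A - A`, `Q = A`, `Lq = log |A|`, `R = (i + 3) • (A - A)`,
`|R| ≤ K ^ (2 i + 6) |A|` (Plünnecke-Ruzsa in Mathlib), `M = 2 ^ i / |A|`, `ε = 1 / (16 n)`,
`u = i / (16 n)`, `δ = (i + 1) / (16 n) = u + ε ≤ 1/16`, `θ = 1 / n`, `L = 100 n (1 + log K)`, `k = ⌈4 n L / c'⌉`,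
`l = 2 L / ε = 32 n L`; `k l / m ≤ ε / 2` means `1024 n² k L ≤ m`, true as `k ≤ 4 n L / c' + 1` and `c' ≤ 1 + log K ≤ L`, so
`c' 1024 n² k L ≤ 1024 n² L (4 n L + c') ≤ 5120 n³ L² = 5120 * 10 ^ 4 n⁵ (1 + log K)²`; `C = 6 * 10 ^ 7`.
`log ((k + 1) |R|) + log M ≤ log (k + 1) + (2 i + 6) log K + i ≤ L`: `k + 1 ≤ 128 n L + 2 ≤ 130 n L = 13000 n² (1 + log K)`,
`log (k + 1) ≤ 9.5 + 2 n + log K`. `l ≤ m` follows from `k l / m ≤ ε / 2`. New state `(σ, σ', τ')`;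
`∑ σ (1 - pr σ' Z) = ∑ σ' (1 - pr σ Z) ≤ δ` (`Z = - Z` is not even needed: both are `P (σ + σ' ∉ Z)`); support of `σ'`: if `pr σ Z x > 0` then
`x ∈ Z - (i + 1) • Z = (i + 2) • Z` (`Z = - Z`); `0 ∈ Z` as `0 ∈ A`, so `(i + 1) • Z ⊆ (i + 2) • Z`. -/
def GOS5 : Prop := ∃ C : ℝ, 0 < C ∧ ∀ n : ℕ, 1 ≤ n → ∀ (G : Type) [AddCommGroup G] [Fintype G]
  [DecidableEq G] (A : Finset G) (K : ℝ) (i m : ℕ) (d c c' : ℝ), (0 : G) ∈ A → 1 ≤ K →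
  ((A - A).card : ℝ) ≤ K * A.card → i < n → Good5 n A i d c → 0 < m →
  C * n ^ 5 * (1 + Real.log K) ^ 2 ≤ c' * m → 1 / 32 ≤ c' → c' ≤ 1 + Real.log K →
  Good5 n A (i + 1) ((1 + 1 / (n : ℝ)) * (d + m * c) + 1) c'

/-- QW-GON5, `n` levels, `n ≥ log (1 + log K)`.
PROOF. `l = 1 + log K`, `c 0 = log K ≤ l`, `c i = l ^ (1 - i / n) / 32` for `i ≥ 1`, `m i = ⌈C n⁵ l² / c (i + 1)⌉`,
`m i * c i ≤ (32 C n⁵ l² l ^ (-(1 - (i + 1) / n)) + 1) * l ^ (1 - i / n) ≤ 33 C' n⁵ l² l ^ (1 / n) ≤ 33 * 3 C' n⁵ l²`, as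
`l ^ (1 / n) ≤ e`. `d (i + 1) = (1 + 1 / n) (d i + m i c i) + 1`, so `d n ≤ (1 + 1 / n) ^ n * n * (99 C' n⁵ l² + 1) ≤ C'' n⁶ l²`. -/
def GON5 : Prop := ∃ C : ℝ, 0 < C ∧ ∀ n : ℕ, 1 ≤ n → ∀ (G : Type) [AddCommGroup G] [Fintype G]
  [DecidableEq G] (A : Finset G) (K : ℝ), (0 : G) ∈ A → 1 ≤ K →
  ((A - A).card : ℝ) ≤ K * A.card → Real.log (1 + Real.log K) ≤ n →
  Good5 n A n (C * n ^ 6 * (1 + Real.log K) ^ 2) (1 / 32)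

/-- QW-FG5: the result for finite groups, sets of small doubling. From GON5 with `n = ⌈log (1 + log K)⌉ + 1`. -/
def FG5 : Prop := ∃ C : ℝ, 0 < C ∧ ∀ (G : Type) [AddCommGroup G] [Fintype G]
  [DecidableEq G] (A : Finset G) (K : ℝ), A.Nonempty → 1 ≤ K →
  ((A - A).card : ℝ) ≤ K * A.card →
  ∃ Γ : Finset (AddChar G ℂ), (Γ.card : ℝ) ≤
      C * (Real.log ((Fintype.card G : ℝ) / A.card) +
        (1 + Real.log K) ^ 2 * (1 + Real.log (1 + Real.log K)) ^ 6) ∧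
    ∀ y : G, (∀ χ ∈ Γ, ‖χ y - 1‖ * (4 * (Γ.card : ℝ)) ≤ 1) → y ∈ (A - A) - (A - A)

end Pool.Agent.H952.QW
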