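import Pool.Agent.H98.BG.Final
import Pool.Agent.H952.QW.Stm5

/-!
# From sets of small doubling to sets of large energy (adapted from `Pool/Agent/H98/BG/Final.lean`, by helper98)
-/

set_option autoImplicit false

namespace Pool.Agent.H952.QW

open Finset Pool.Agent.H98.BG Pool.Agent.H98.BG.FinalL
open scoped Pointwise

/-- the function of the bound -/
noncomputable def ph (x : ℝ) : ℝ := x ^ 2 * (1 + Real.log (1 + x)) ^ 6

theorem ph_mono {x y : ℝ} (hx : 0 ≤ x) (hxy : x ≤ y) : ph x ≤ ph y := by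
  unfold ph
  have h1 : Real.log (1 + x) ≤ Real.log (1 + y) := Real.log_le_log (by linarith) (by linarith)
  have h2 : 0 ≤ Real.log (1 + x) := Real.log_nonneg (by linarith)
  gcongr

theorem ph_le {x : ℝ} (hx : 0 ≤ x) : ph x ≤ 46656 * (x ^ 2 * (1 + x)) := by
  have h2 : 0 ≤ Real.log (1 + x) := Real.log_nonneg (by linarith)
  have h3 : 1 + Real.log (1 + x) ≤ 6 * (1 + x) ^ ((1 : ℝ) / 6) := by
    have h4 : Real.log ((1 + x) ^ ((1 : ℝ) / 6)) ≤ (1 + x) ^ ((1 : ℝ) / 6) - 1 :=
      Real.log_le_sub_one_of_pos (Real.rpow_pos_of_pos (by linarith) _)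
    rw [Real.log_rpow (by linarith)] at h4
    linarith
  have h5 : (1 + Real.log (1 + x)) ^ 6 ≤ 46656 * (1 + x) := by
    calc (1 + Real.log (1 + x)) ^ 6 ≤ (6 * (1 + x) ^ ((1 : ℝ) / 6)) ^ 6 :=
          pow_le_pow_left₀ (by linarith) h3 6
      _ = 46656 * ((1 + x) ^ ((1 : ℝ) / 6)) ^ 6 := by rw [mul_pow]; norm_num
      _ = 46656 * (1 + x) := by
          rw [← Real.rpow_natCast, ← Real.rpow_mul (by linarith)]
          norm_num
  calc ph x = x ^ 2 * (1 + Real.log (1 + x)) ^ 6 := rfl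
    _ ≤ x ^ 2 * (46656 * (1 + x)) := by gcongr
    _ = _ := by ring

/-- sets of large additive energy in finite abelian groups -/
theorem fgEnergy5 (hFG : FG5) : ∃ C c : ℝ, 0 < C ∧ 0 < c ∧
    ∀ (G : Type) [AddCommGroup G] [Fintype G] [DecidableEq G] (A : Finset G) (K : ℝ),
      A.Nonempty → 1 ≤ K → (A.card : ℝ) ^ 3 ≤ K * (A.addEnergy A : ℕ) →
      ∃ Γ : Finset (AddChar G ℂ), (Γ.card : ℝ) ≤
          C * (Real.log (2 * Fintype.card G / A.card) +
            ph (Real.log (2 * K))) ∧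
        ∀ y : G, (∀ χ ∈ Γ, ‖χ y - 1‖ ≤ c / Real.log (2 * Fintype.card G / A.card)) →
          y ∈ (A - A) - (A - A) := by
  obtain ⟨C0, hC0, h0⟩ := hFG
  set C1 : ℝ := 1000000000 * C0 with hC1
  set C2 : ℝ := 10000 * (1 + C1) with hC2
  refine ⟨3 * C1, 1 / (C2 + 2), by positivity, by positivity, ?_⟩
  intro G _ _ _ A K hA hK hE
  have hcA : (0 : ℝ) < A.card := by exact_mod_cast hA.card_pos
  have hcG : (0 : ℝ) < Fintype.card G := by
    have : 0 < Fintype.card G := Fintype.card_pos_iff.2 ⟨hA.choose⟩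
    exact_mod_cast this
  have hAG : (A.card : ℝ) ≤ Fintype.card G := by exact_mod_cast Finset.card_le_univ A
  -- the energy is at least `|A|^4/|G|`
  have hE2 : (A.card : ℝ) ^ 3 ≤ (Fintype.card G / A.card) * (A.addEnergy A : ℕ) := by
    have h1 : A.card ^ 2 * A.card ^ 2 ≤ (A + A).card * A.addEnergy A :=
      Finset.le_card_add_mul_addEnergy A A
    have h2 : (A.card : ℝ) ^ 2 * (A.card : ℝ) ^ 2 ≤ (A + A).card * (A.addEnergy A : ℕ) := by
      exact_mod_cast h1
    have h3 : ((A + A).card : ℝ) ≤ Fintype.card G := by exact_mod_cast Finset.card_le_univ _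
    have h4 : (0 : ℝ) ≤ (A.addEnergy A : ℕ) := Nat.cast_nonneg _
    rw [div_mul_eq_mul_div, le_div_iff₀ hcA]
    nlinarith [mul_le_mul_of_nonneg_right h3 h4]
  set K1 : ℝ := min K (Fintype.card G / A.card) with hK1
  have hGA1 : 1 ≤ (Fintype.card G : ℝ) / A.card := by
    rw [le_div_iff₀ hcA, one_mul]; exact hAG
  have hK11 : 1 ≤ K1 := le_min hK hGA1
  have hE3 : (A.card : ℝ) ^ 3 ≤ K1 * (A.addEnergy A : ℕ) := by
    rcases min_choice K ((Fintype.card G : ℝ) / A.card) with h | h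
    · rw [hK1, h]; exact hE
    · rw [hK1, h]; exact hE2
  obtain ⟨B, hBA, hB, hAB, hBB⟩ := Pool.Agent.H217R3.AK.bsg A hA K1 (by linarith) hE3
  have hcB : (0 : ℝ) < B.card := by exact_mod_cast hB.card_pos
  set K2 : ℝ := 2 ^ 22 * K1 ^ 10 with hK2
  have hK21 : 1 ≤ K2 := by
    have : 1 ≤ K1 ^ 10 := one_le_pow₀ hK11
    rw [hK2]; nlinarith
  obtain ⟨Γ0, hΓc, hΓ⟩ := h0 G B K2 hB hK21 hBB
  set ℓ : ℝ := Real.log (2 * Fintype.card G / A.card) with hℓ
  have hl2 : (0.69 : ℝ) ≤ Real.log 2 := by linarith [Real.log_two_gt_d9]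
  have hl2' : Real.log 2 ≤ 0.7 := by linarith [Real.log_two_lt_d9]
  have hℓe : ℓ = Real.log 2 + Real.log (Fintype.card G / A.card) := by
    rw [hℓ, mul_div_assoc, Real.log_mul (by norm_num) (by positivity)]
  have hlGA : 0 ≤ Real.log ((Fintype.card G : ℝ) / A.card) := Real.log_nonneg hGA1
  have hℓ0 : 0.69 ≤ ℓ := by linarith
  have hlK1 : 0 ≤ Real.log K1 := Real.log_nonneg hK11
  have hlK1' : Real.log K1 ≤ Real.log (Fintype.card G / A.card) :=
    Real.log_le_log (by linarith) (min_le_right _ _)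
  have hlKK : Real.log K1 ≤ Real.log K := Real.log_le_log (by linarith) (min_le_left _ _)
  -- the density of `B`
  have hd1 : Real.log ((Fintype.card G : ℝ) / B.card) ≤ 6 * ℓ := by
    have h1 : (Fintype.card G : ℝ) / B.card ≤ 8 * K1 * (Fintype.card G / A.card) := by
      rw [div_le_iff₀ hcB]
      have : 8 * K1 * ((Fintype.card G : ℝ) / A.card) * B.card =
          Fintype.card G * ((8 * K1 * B.card) / A.card) := by ring
      rw [this]
      have h2 : 1 ≤ (8 * K1 * B.card) / A.card := by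
        rw [le_div_iff₀ hcA, one_mul]; exact hAB
      nlinarith
    have h3 : Real.log ((Fintype.card G : ℝ) / B.card) ≤
        Real.log (8 * K1 * (Fintype.card G / A.card)) :=
      Real.log_le_log (by positivity) h1
    have h4 : Real.log (8 * K1 * ((Fintype.card G : ℝ) / A.card)) =
        Real.log 8 + Real.log K1 + Real.log (Fintype.card G / A.card) := by
      rw [Real.log_mul (by positivity) (by positivity),
        Real.log_mul (by norm_num) (by positivity)]
    have h5 : Real.log 8 = 3 * Real.log 2 := by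
      rw [show (8 : ℝ) = 2 ^ 3 by norm_num, Real.log_pow]; norm_num
    rw [h4, h5] at h3
    linarith
  have hlK2 : 1 + Real.log K2 ≤ 24 * Real.log (2 * K1) := by
    rw [hK2, Real.log_mul (by norm_num) (by positivity), Real.log_pow, Real.log_pow,
      Real.log_mul (by norm_num) (by positivity)]
    push_cast
    linarith
  have hL1 : 0.69 ≤ Real.log (2 * K1) := by
    rw [Real.log_mul (by norm_num) (by positivity)]; linarith
  have hlK20 : 0 ≤ Real.log K2 := Real.log_nonneg hK21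
  obtain ⟨x, hx⟩ : ∃ x : ℝ, x = Real.log (2 * K1) := ⟨_, rfl⟩
  rw [← hx] at hlK2 hL1
  have hlx : 0 ≤ Real.log (1 + x) := Real.log_nonneg (by linarith)
  have hpw : (1 + Real.log K2) ^ 2 * (1 + Real.log (1 + Real.log K2)) ^ 6 ≤ 9000000 * ph x := by
    have h1 : Real.log (1 + Real.log K2) ≤ 4 + Real.log (1 + x) := by
      have h2 : Real.log (1 + Real.log K2) ≤ Real.log (24 * (1 + x)) :=
        Real.log_le_log (by linarith) (by linarith)
      rw [Real.log_mul (show (24 : ℝ) ≠ 0 by norm_num) (show 1 + x ≠ 0 by linarith)] at h2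
      have h3 : Real.log 24 ≤ 4 := by
        have h4 : Real.log 24 ≤ Real.log 32 := Real.log_le_log (by norm_num) (by norm_num)
        have h5 : Real.log 32 = 5 * Real.log 2 := by
          rw [show (32 : ℝ) = 2 ^ 5 by norm_num, Real.log_pow]; norm_num
        linarith
      linarith
    have h2 : 0 ≤ Real.log (1 + Real.log K2) := Real.log_nonneg (by linarith)
    have h3 : (1 + Real.log (1 + Real.log K2)) ^ 6 ≤ (5 * (1 + Real.log (1 + x))) ^ 6 :=
      pow_le_pow_left₀ (by linarith) (by linarith) 6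
    have h4 : (1 + Real.log K2) ^ 2 ≤ (24 * x) ^ 2 := pow_le_pow_left₀ (by linarith) hlK2 2
    calc (1 + Real.log K2) ^ 2 * (1 + Real.log (1 + Real.log K2)) ^ 6
        ≤ (24 * x) ^ 2 * (5 * (1 + Real.log (1 + x))) ^ 6 :=
          mul_le_mul h4 h3 (by positivity) (by positivity)
      _ = 9000000 * ph x := by unfold ph; ring
  have hph0 : 0 ≤ ph x := by unfold ph; positivity
  have hΓc1 : (Γ0.card : ℝ) ≤ C1 * (ℓ + ph x) := by
    refine hΓc.trans ?_
    rw [hC1, mul_comm 1000000000 C0, mul_assoc]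
    apply mul_le_mul_of_nonneg_left _ hC0.le
    linarith
  -- absolute bound by `ℓ^3`
  have hΓc2 : (Γ0.card : ℝ) ≤ 1000000 * C1 * ℓ ^ 3 := by
    have h1 : x ≤ 2 * ℓ := by
      rw [hx, Real.log_mul (by norm_num) (by positivity)]; linarith
    have h2 := ph_le (show 0 ≤ x by linarith)
    have h3 : x ^ 2 * (1 + x) ≤ (2 * ℓ) ^ 2 * (1 + 2 * ℓ) := by
      apply mul_le_mul (pow_le_pow_left₀ (by linarith) h1 2) (by linarith) (by linarith)
        (by positivity)
    have h4 : ℓ ≤ 8 * ℓ ^ 3 := by nlinarith [sq_nonneg (ℓ - 0.69), sq_nonneg ℓ]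
    have h6 : ℓ ^ 2 ≤ 2 * ℓ ^ 3 := by nlinarith [sq_nonneg ℓ]
    have h5 : ℓ + ph x ≤ 1000000 * ℓ ^ 3 := by nlinarith
    calc (Γ0.card : ℝ) ≤ C1 * (ℓ + ph x) := hΓc1
      _ ≤ C1 * (1000000 * ℓ ^ 3) := mul_le_mul_of_nonneg_left h5 (by positivity)
      _ = _ := by ring
  set R : ℕ := ⌈C2 * ℓ⌉₊ with hR
  have hC20 : 10000 ≤ C2 := by rw [hC2]; nlinarith [show 0 < C1 by positivity]
  have hR1 : C2 * ℓ ≤ R := Nat.le_ceil _
  have hR2 : (R : ℝ) ≤ C2 * ℓ + 1 := (Nat.ceil_lt_add_one (by positivity)).le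
  have hR3 : (R : ℝ) ≤ (C2 + 2) * ℓ := by nlinarith
  have hRpos : (0 : ℝ) < R := by nlinarith
  have hR4 : 1 ≤ R := by
    have : 0 < R := by exact_mod_cast hRpos
    omega
  have hR5 : 16 * (Γ0.card : ℝ) ≤ (R : ℝ) ^ 3 := by
    have h1 : (C2 * ℓ) ^ 3 ≤ (R : ℝ) ^ 3 := pow_le_pow_left₀ (by positivity) hR1 3
    have h2 : 16000000 * C1 ≤ C2 ^ 3 := by
      have h0 : 0 < C1 := by positivity
      have h3 : 10000 ^ 2 ≤ C2 ^ 2 := pow_le_pow_left₀ (by norm_num) hC20 2
      have h4 : C2 ^ 3 = C2 ^ 2 * C2 := by ring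
      have h5 : C1 ≤ C2 := by rw [hC2]; linarith
      rw [h4]
      calc 16000000 * C1 ≤ 10000 ^ 2 * C1 := by linarith
        _ ≤ C2 ^ 2 * C2 := mul_le_mul h3 h5 h0.le (by positivity)
    calc 16 * (Γ0.card : ℝ) ≤ 16000000 * C1 * ℓ ^ 3 := by linarith
      _ ≤ C2 ^ 3 * ℓ ^ 3 := mul_le_mul_of_nonneg_right h2 (by positivity)
      _ = (C2 * ℓ) ^ 3 := by ring
      _ ≤ _ := h1
  classical
  refine ⟨(Γ0 ×ˢ Finset.range 3).image fun p => p.1 ^ (R ^ p.2), ?_, ?_⟩
  · have h1 : (((Γ0 ×ˢ Finset.range 3).image fun p => p.1 ^ (R ^ p.2)).card : ℝ) ≤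
        Γ0.card * 3 := by
      have := Finset.card_image_le (s := Γ0 ×ˢ Finset.range 3)
        (f := fun p : AddChar G ℂ × ℕ => p.1 ^ (R ^ p.2))
      rw [Finset.card_product, Finset.card_range] at this
      exact_mod_cast this
    refine h1.trans ?_
    have h2 : ph x ≤ ph (Real.log (2 * K)) := by
      apply ph_mono (by linarith)
      rw [hx]
      exact Real.log_le_log (by positivity) (by
        have := min_le_left K ((Fintype.card G : ℝ) / A.card)
        rw [← hK1] at this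
        linarith)
    have h3 : C1 * (ℓ + ph x) ≤ C1 * (ℓ + ph (Real.log (2 * K))) :=
      mul_le_mul_of_nonneg_left (by linarith) (by positivity)
    linarith
  · intro y hy
    have hyR : ∀ χ ∈ Γ0, ‖χ y - 1‖ ≤ 4 / (R : ℝ) ^ 3 := by
      intro χ hχ
      refine radc (χ y) (AddChar.norm_apply χ y) R hR4 ?_
      intro j hj
      have h1 := hy (χ ^ (R ^ j)) (Finset.mem_image.2 ⟨(χ, j),
        Finset.mem_product.2 ⟨hχ, Finset.mem_range.2 (by simpa using Nat.lt_succ_of_le hj)⟩, rfl⟩)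
      rw [AddChar.pow_apply] at h1
      refine h1.trans ?_
      rw [div_div, div_le_div_iff_of_pos_left one_pos (by positivity) hRpos]
      exact hR3
    have hmem := hΓ y (fun χ hχ => by
      have h1 := hyR χ hχ
      have h2 : (0 : ℝ) ≤ 4 * Γ0.card := by positivity
      calc ‖χ y - 1‖ * (4 * (Γ0.card : ℝ)) ≤ 4 / (R : ℝ) ^ 3 * (4 * Γ0.card) :=
            mul_le_mul_of_nonneg_right h1 h2
        _ = 16 * Γ0.card / (R : ℝ) ^ 3 := by ring
        _ ≤ 1 := by rw [div_le_one (by positivity)]; exact hR5)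
    exact Finset.sub_subset_sub (Finset.sub_subset_sub hBA hBA)
      (Finset.sub_subset_sub hBA hBA) hmem

end Pool.Agent.H952.QW
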