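import Pool.Agent.H952.QW.Stm

/-! QW4: Jensen for several functions supported in one set. -/

set_option autoImplicit false

namespace Pool.Agent.H952.QW

open Finset Pool.Agent.H98.BG
open scoped Pointwise

theorem QW4aux.negMulLog_le {p n : ℝ} (hp : 0 ≤ p) (hn : 0 < n) :
    Real.negMulLog p ≤ p * Real.log n + (1 / n - p) := by
  unfold Real.negMulLog
  rcases hp.eq_or_lt with h0 | h0
  · rw [← h0]
    simp only [neg_zero, zero_mul, sub_zero, zero_add]
    positivity
  · have h1 : Real.log (1 / (n * p)) ≤ 1 / (n * p) - 1 :=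
      Real.log_le_sub_one_of_pos (by positivity)
    rw [one_div, Real.log_inv, Real.log_mul hn.ne' h0.ne'] at h1
    have h2 := mul_le_mul_of_nonneg_left h1 hp
    have h3 : p * ((n * p)⁻¹ - 1) = 1 / n - p := by
      field_simp
    rw [h3] at h2
    linarith

theorem esum : ESUM := by
  intro G _ _ _ k f R hf hR hs
  have hRn : R.Nonempty := by
    by_contra hcon
    rw [Finset.not_nonempty_iff_eq_empty] at hcon
    have h0 : ∀ i x, f i x = 0 := fun i x => by
      by_contra h
      have := hR i x h
      rw [hcon] at this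
      exact absurd this (Finset.notMem_empty x)
    rw [Finset.sum_eq_zero fun i _ => Finset.sum_eq_zero fun x _ => h0 i x] at hs
    exact zero_ne_one hs
  have hc : (0 : ℝ) < R.card := by exact_mod_cast hRn.card_pos
  have hn : (0 : ℝ) < (k + 1 : ℝ) * R.card := by positivity
  have hin : ∀ i x, x ∉ R → f i x = 0 := fun i x hx => by
    by_contra h
    exact hx (hR i x h)
  have h1 : ∀ i, H (f i) ≤ ∑ x ∈ R, (f i x * Real.log ((k + 1 : ℝ) * R.card) +
      (1 / ((k + 1 : ℝ) * R.card) - f i x)) := by
    intro i
    have h2 : H (f i) = ∑ x ∈ R, Real.negMulLog (f i x) := by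
      unfold H
      refine (Finset.sum_subset (Finset.subset_univ R) fun x _ hx => ?_).symm
      rw [hin i x hx, Real.negMulLog_zero]
    rw [h2]
    exact Finset.sum_le_sum fun x _ => QW4aux.negMulLog_le (hf i x) hn
  have h3 : ∑ i, ∑ x ∈ R, f i x = 1 := by
    rw [← hs]
    refine Finset.sum_congr rfl fun i _ => ?_
    exact Finset.sum_subset (Finset.subset_univ R) fun x _ hx => hin i x hx
  refine (Finset.sum_le_sum fun i _ => h1 i).trans (le_of_eq ?_)
  simp only [Finset.sum_add_distrib, Finset.sum_sub_distrib, ← Finset.sum_mul, h3,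
    Finset.sum_const, Finset.card_univ, Fintype.card_fin, nsmul_eq_mul]
  push_cast
  field_simp
  ring

end Pool.Agent.H952.QW
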