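import Pool.Agent.H952.QW.Stm

/-!
# The result for finite groups, sets of small doubling
-/

set_option autoImplicit false

namespace Pool.Agent.H952.QW

open Finset Pool.Agent.H98.BG
open scoped Pointwise

theorem fg4 (hG : GON4) (h1 : FIN1) (h4 : FIN4) (h2 : CH2) (h3 : CH3) : FG4 := by
  intro n hn
  obtain ⟨C0, hC0, h0⟩ := hG n hn
  refine ⟨4 * (1 + C0), by positivity, ?_⟩
  intro G _ _ _ A₀ K hA₀ hK hAA₀
  obtain ⟨a₀, ha₀⟩ := hA₀
  -- translate so that `0` is in the set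
  obtain ⟨A, hAd⟩ : ∃ A : Finset G, A = A₀.image (fun x => x - a₀) := ⟨_, rfl⟩
  have hcA' : A.card = A₀.card := by
    rw [hAd]
    exact card_image_of_injective _ sub_left_injective
  have hdiff : A - A = A₀ - A₀ := by
    ext y
    rw [hAd]
    simp only [mem_sub, mem_image]
    constructor
    · rintro ⟨-, ⟨u, hu, rfl⟩, -, ⟨v, hv, rfl⟩, rfl⟩
      exact ⟨u, hu, v, hv, by abel⟩
    · rintro ⟨u, hu, v, hv, rfl⟩
      exact ⟨u - a₀, ⟨u, hu, rfl⟩, v - a₀, ⟨v, hv, rfl⟩, by abel⟩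
  have h0A : (0 : G) ∈ A := by
    rw [hAd, mem_image]
    exact ⟨a₀, ha₀, sub_self _⟩
  have hAA : ((A - A).card : ℝ) ≤ K * A.card := by
    rw [hdiff, hcA']
    exact hAA₀
  rw [← hdiff, ← hcA']
  obtain ⟨a, σ, τ, ha, hσ, hτ, -, -, -, -, -, hZ, hD, hc⟩ := h0 G A K h0A hK hAA
  have hA : A.Nonempty := ⟨0, h0A⟩
  classical
  obtain ⟨Γ, hΓS, hdiss, hspan⟩ := h3 G
    (Finset.univ.filter fun χ : AddChar G ℂ => 1 / 2 ≤ ‖∑ t, (τ t : ℂ) * χ t‖ ^ 2)
  have hcA : (0 : ℝ) < A.card := by exact_mod_cast hA.card_pos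
  have hcG : (0 : ℝ) < Fintype.card G := by
    have : 0 < Fintype.card G := Fintype.card_pos_iff.2 ⟨0⟩
    exact_mod_cast this
  have hcard := h2 G τ Γ (Real.log (Fintype.card G) - H τ) hτ le_rfl hdiss
    (fun l hl => (Finset.mem_filter.1 (hΓS hl)).2)
  have hΛ : 0 ≤ (1 + Real.log K) ^ ((2 : ℝ) + 1 / n) := by
    have : 0 ≤ Real.log K := Real.log_nonneg hK
    positivity
  have hlog : 0 ≤ Real.log ((Fintype.card G : ℝ) / A.card) := by
    apply Real.log_nonneg
    rw [le_div_iff₀ hcA, one_mul]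
    exact_mod_cast Finset.card_le_univ A
  refine ⟨Γ, ?_, ?_⟩
  · have e : Real.log ((Fintype.card G : ℝ) / A.card) =
        Real.log (Fintype.card G) - Real.log A.card := Real.log_div hcG.ne' hcA.ne'
    have : (Γ.card : ℝ) ≤ 4 * (Real.log ((Fintype.card G : ℝ) / A.card) +
        C0 * (1 + Real.log K) ^ ((2 : ℝ) + 1 / n)) := by
      rw [e]; linarith
    refine this.trans ?_
    nlinarith [mul_nonneg hC0.le hlog]
  · intro y hy
    have hy' : ∀ χ : AddChar G ℂ, 1 / 2 ≤ ‖∑ t, (τ t : ℂ) * χ t‖ ^ 2 → ‖χ y - 1‖ ≤ 1 / 4 := by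
      intro χ hχ
      by_cases h0 : Γ.card = 0
      · have := hspan χ (Finset.mem_filter.2 ⟨Finset.mem_univ _, hχ⟩) y 0
          (fun l hl => by
            rw [Finset.card_eq_zero] at h0; rw [h0] at hl; exact absurd hl (by simp))
        rw [h0] at this
        simp only [Nat.cast_zero, mul_zero] at this
        linarith
      · have hpos : (0 : ℝ) < Γ.card := by exact_mod_cast Nat.pos_of_ne_zero h0
        have := hspan χ (Finset.mem_filter.2 ⟨Finset.mem_univ _, hχ⟩) y (1 / (4 * (Γ.card : ℝ)))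
          (fun l hl => by
            rw [le_div_iff₀ (by positivity)]; exact hy l hl)
        refine this.trans (le_of_eq ?_)
        field_simp
    have hZ' : ∑ x, a x * (1 - pr σ (A - A) x) ≤ 1 / 16 := by
      refine hZ.trans ?_
      have h2n : (0 : ℝ) < 2 ^ n := by positivity
      rw [div_le_div_iff₀ (by positivity) (by norm_num), pow_add]
      linarith
    exact h4 G a σ τ (A - A) ha hσ hτ (h1 G σ τ (1 / 32) hσ hτ hc) hZ' y hy'

end Pool.Agent.H952.QW
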