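import Pool.Agent.H952.QW.Stm5

/-!
# The result for finite groups, sets of small doubling, uniform version

`fg5 : GON5 → FIN1 → FIN4 → CH2 → CH3 → FG5` (helper972 for helper952).
-/

set_option autoImplicit false

namespace Pool.Agent.H952.QW

open Finset Pool.Agent.H98.BG
open scoped Pointwise

theorem fg5_tr {G : Type} [AddCommGroup G] [DecidableEq G] (A : Finset G) (a0 : G) :
    (A.image (fun x => x - a0)) - (A.image (fun x => x - a0)) = A - A := by
  ext x
  simp only [Finset.mem_sub, Finset.mem_image]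
  constructor
  · rintro ⟨_, ⟨y, hy, rfl⟩, _, ⟨z, hz, rfl⟩, rfl⟩
    exact ⟨y, hy, z, hz, by abel⟩
  · rintro ⟨y, hy, z, hz, rfl⟩
    exact ⟨_, ⟨y, hy, rfl⟩, _, ⟨z, hz, rfl⟩, by abel⟩

theorem fg5 (hG : GON5) (h1 : FIN1) (h4 : FIN4) (h2 : CH2) (h3 : CH3) : FG5 := by
  obtain ⟨C0, hC0, h0⟩ := hG
  refine ⟨4 * (1 + 64 * C0), by positivity, ?_⟩
  intro G _ _ _ A K hA hK hAA
  classical
  obtain ⟨a0, ha0⟩ := hA
  obtain ⟨B, hB⟩ : ∃ B : Finset G, B = A.image (fun x => x - a0) := ⟨_, rfl⟩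
  have hBB : B - B = A - A := by rw [hB]; exact fg5_tr A a0
  have hBc : B.card = A.card := by
    rw [hB]
    exact Finset.card_image_of_injective A sub_left_injective
  have hB0 : (0 : G) ∈ B := by
    rw [hB]
    exact Finset.mem_image.2 ⟨a0, ha0, sub_self a0⟩
  have hlK : 0 ≤ Real.log K := Real.log_nonneg hK
  have hll : 0 ≤ Real.log (1 + Real.log K) := Real.log_nonneg (by linarith)
  obtain ⟨n, hn⟩ : ∃ n : ℕ, n = ⌈Real.log (1 + Real.log K)⌉₊ + 1 := ⟨_, rfl⟩
  have hn1 : 1 ≤ n := by omega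
  have hn2 : Real.log (1 + Real.log K) ≤ n := by
    rw [hn]
    push_cast
    linarith [Nat.le_ceil (Real.log (1 + Real.log K))]
  have hn3 : (n : ℝ) ≤ 2 * (1 + Real.log (1 + Real.log K)) := by
    rw [hn]
    push_cast
    linarith [Nat.ceil_lt_add_one hll]
  have hn0 : (0 : ℝ) < n := by exact_mod_cast hn1
  obtain ⟨a, σ, τ, ha, hσ, hτ, -, -, -, -, -, hdef, hD, hc⟩ :=
    h0 n hn1 G B K hB0 hK (by rw [hBB, hBc]; exact hAA) hn2
  rw [hBB] at hdef
  rw [hBc] at hD
  have hdef2 : ∑ x, a x * (1 - pr σ (A - A) x) ≤ 1 / 16 := by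
    refine hdef.trans (le_of_eq ?_)
    field_simp
  obtain ⟨Γ, hΓS, hdiss, hspan⟩ := h3 G
    (Finset.univ.filter fun χ : AddChar G ℂ => 1 / 2 ≤ ‖∑ t, (τ t : ℂ) * χ t‖ ^ 2)
  have hcA : (0 : ℝ) < A.card := by exact_mod_cast Finset.card_pos.2 ⟨a0, ha0⟩
  have hcG : (0 : ℝ) < Fintype.card G := by
    have : 0 < Fintype.card G := Fintype.card_pos_iff.2 ⟨a0⟩
    exact_mod_cast this
  have hcard := h2 G τ Γ (Real.log (Fintype.card G) - H τ) hτ le_rfl hdiss
    (fun l hl => (Finset.mem_filter.1 (hΓS hl)).2)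
  have hlog : 0 ≤ Real.log ((Fintype.card G : ℝ) / A.card) := by
    apply Real.log_nonneg
    rw [le_div_iff₀ hcA, one_mul]
    exact_mod_cast Finset.card_le_univ A
  refine ⟨Γ, ?_, ?_⟩
  · have e : Real.log ((Fintype.card G : ℝ) / A.card) =
        Real.log (Fintype.card G) - Real.log A.card := Real.log_div hcG.ne' hcA.ne'
    have e1 : (Γ.card : ℝ) ≤ 4 * (Real.log ((Fintype.card G : ℝ) / A.card) +
        C0 * n ^ 6 * (1 + Real.log K) ^ 2) := by
      rw [e]
      linarith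
    have e2 : (n : ℝ) ^ 6 ≤ 64 * (1 + Real.log (1 + Real.log K)) ^ 6 := by
      refine (pow_le_pow_left₀ hn0.le hn3 6).trans (le_of_eq ?_)
      ring
    have e3 : C0 * n ^ 6 * (1 + Real.log K) ^ 2 ≤
        64 * C0 * ((1 + Real.log K) ^ 2 * (1 + Real.log (1 + Real.log K)) ^ 6) := by
      have h5 : 0 ≤ C0 * (1 + Real.log K) ^ 2 := by positivity
      calc C0 * n ^ 6 * (1 + Real.log K) ^ 2 = C0 * (1 + Real.log K) ^ 2 * n ^ 6 := by ring
        _ ≤ C0 * (1 + Real.log K) ^ 2 * (64 * (1 + Real.log (1 + Real.log K)) ^ 6) :=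
          mul_le_mul_of_nonneg_left e2 h5
        _ = _ := by ring
    have e4 : 0 ≤ (1 + Real.log K) ^ 2 * (1 + Real.log (1 + Real.log K)) ^ 6 := by positivity
    refine e1.trans ?_
    nlinarith [mul_nonneg hC0.le hlog]
  · intro y hy
    have hy' : ∀ χ : AddChar G ℂ, 1 / 2 ≤ ‖∑ t, (τ t : ℂ) * χ t‖ ^ 2 → ‖χ y - 1‖ ≤ 1 / 4 := by
      intro χ hχ
      by_cases h0 : Γ.card = 0
      · have := hspan χ (Finset.mem_filter.2 ⟨Finset.mem_univ _, hχ⟩) y 0
          (fun l hl => by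
            rw [Finset.card_eq_zero] at h0
            rw [h0] at hl
            exact absurd hl (by simp))
        rw [h0] at this
        simp only [Nat.cast_zero, mul_zero] at this
        linarith
      · have hpos : (0 : ℝ) < Γ.card := by exact_mod_cast Nat.pos_of_ne_zero h0
        have := hspan χ (Finset.mem_filter.2 ⟨Finset.mem_univ _, hχ⟩) y (1 / (4 * (Γ.card : ℝ)))
          (fun l hl => by
            rw [le_div_iff₀ (by positivity)]
            exact hy l hl)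
        refine this.trans (le_of_eq ?_)
        field_simp
    exact h4 G a σ τ (A - A) ha hσ hτ (h1 G σ τ (1 / 32) hσ hτ hc) hdef2 y hy'

end Pool.Agent.H952.QW
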