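import Pool.Agent.H952.QW.Stm
import Pool.Agent.H98.BG.FIN2

/-!
# QW11 (helper922): the Bohr set
-/

set_option autoImplicit false

namespace Pool.Agent.H952.QW

open Finset Pool.Agent.H98.BG
open scoped Pointwise

namespace Fin4L

variable {G : Type} [AddCommGroup G] [Fintype G] [DecidableEq G]

open Pool.Agent.H98.BG.FIN2L in
/-- the Fourier part -/
lemma phi_ge (σ τ : G → ℝ) (hσ : IsP σ) (hτ : IsP τ)
    (h : ∑ t, ∑ t', τ t * τ t' * (1 - ∑ x, √(σ x) * √(σ (x + (t - t')))) ≤ 1 / 32)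
    (y : G) (hy : ∀ χ : AddChar G ℂ, 1 / 2 ≤ ‖∑ t, (τ t : ℂ) * χ t‖ ^ 2 → ‖χ y - 1‖ ≤ 1 / 4) :
    1 / 2 < ∑ x, √(σ x) * √(σ (x + y)) := by
  set g : G → ℝ := fun x => √(σ x) with hg
  -- the coefficient of `τ`
  set T : AddChar G ℂ → ℝ := fun χ => ‖∑ t, (τ t : ℂ) * χ t‖ ^ 2 with hT
  have hw0 : ∀ χ, 0 ≤ w g χ := fun χ => by unfold w; positivity
  have hw1 : ∑ χ, w g χ = 1 := by
    have h1 := F_eq g 0
    have h2 : (∑ x, g x * g (x + 0) : ℝ) = 1 := by
      rw [← hσ.2]
      refine Finset.sum_congr rfl fun x _ => ?_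
      rw [add_zero]
      exact Real.mul_self_sqrt (hσ.1 x)
    rw [h2] at h1
    simp only [AddChar.map_zero_eq_one, mul_one] at h1
    exact_mod_cast h1.symm
  have hF : ∀ z : G, (∑ x, g x * g (x + z) : ℝ) = ∑ χ, w g χ * (χ z).re := by
    intro z
    have h1 := congrArg Complex.re (F_eq g z)
    rw [Complex.ofReal_re, Complex.re_sum] at h1
    rw [h1]
    refine Finset.sum_congr rfl fun χ _ => ?_
    rw [Complex.re_ofReal_mul]
  have hT1 : ∀ χ, T χ ≤ 1 := by
    intro χ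
    have h1 : ‖∑ t, (τ t : ℂ) * χ t‖ ≤ 1 := by
      rw [← hτ.2]
      refine (norm_sum_le _ _).trans (Finset.sum_le_sum fun t _ => ?_)
      rw [norm_mul, AddChar.norm_apply, mul_one, Complex.norm_real, Real.norm_of_nonneg (hτ.1 t)]
    exact pow_le_one₀ (norm_nonneg _) h1
  have hTre : ∀ χ, T χ = ∑ t, ∑ t', τ t * τ t' * (χ (t - t')).re := by
    intro χ
    have h1 := congrArg Complex.re (sq_norm_eq τ χ)
    rw [Complex.ofReal_re] at h1
    rw [hT]
    simp only
    rw [h1, Complex.re_sum]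
    refine Finset.sum_congr rfl fun t _ => ?_
    rw [Complex.re_sum]
    refine Finset.sum_congr rfl fun t' _ => ?_
    rw [← Complex.ofReal_mul, Complex.re_ofReal_mul]
  have hmain : ∑ t, ∑ t', τ t * τ t' * (1 - ∑ x, √(σ x) * √(σ (x + (t - t')))) =
      ∑ χ, w g χ * (1 - T χ) := by
    have h1 : ∀ t t' : G, τ t * τ t' * (1 - ∑ x, √(σ x) * √(σ (x + (t - t')))) =
        ∑ χ, w g χ * (τ t * τ t' - τ t * τ t' * (χ (t - t')).re) := by
      intro t t'
      have h2 : ∑ x, √(σ x) * √(σ (x + (t - t'))) = ∑ χ, w g χ * (χ (t - t')).re := hF (t - t')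
      rw [h2]
      conv_lhs => rw [← hw1]
      rw [← Finset.sum_sub_distrib, Finset.mul_sum]
      exact Finset.sum_congr rfl fun χ _ => by ring
    rw [Finset.sum_congr rfl (fun t _ => Finset.sum_congr rfl fun t' _ => h1 t t')]
    rw [Finset.sum_congr rfl (fun t _ => Finset.sum_comm), Finset.sum_comm]
    refine Finset.sum_congr rfl fun χ _ => ?_
    have h3 : (1 : ℝ) = ∑ t, ∑ t', τ t * τ t' := by
      rw [← Finset.sum_mul_sum, hτ.2, one_mul]
    rw [hTre χ]
    nth_rewrite 1 [h3]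
    rw [← Finset.sum_sub_distrib, Finset.mul_sum]
    refine Finset.sum_congr rfl fun t _ => ?_
    rw [← Finset.sum_sub_distrib, Finset.mul_sum]
  rw [hmain] at h
  -- the value at `y`
  have hpt : ∀ χ : AddChar G ℂ, 3 / 4 - 7 / 2 * (1 - T χ) ≤ (χ y).re := by
    intro χ
    have hn : ‖χ y‖ = 1 := AddChar.norm_apply χ y
    by_cases hc : 1 / 2 ≤ T χ
    · have h1 := hy χ hc
      have h2 : |(χ y - 1).re| ≤ 1 / 4 := (Complex.abs_re_le_norm _).trans h1
      rw [Complex.sub_re, Complex.one_re] at h2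
      have h3 := (abs_le.1 h2).1
      have h4 := hT1 χ
      linarith
    · push Not at hc
      have h2 : |(χ y).re| ≤ 1 := (Complex.abs_re_le_norm _).trans hn.le
      have h3 := (abs_le.1 h2).1
      linarith
  change 1 / 2 < ∑ x, g x * g (x + y)
  rw [hF y]
  have h1 : ∑ χ, w g χ * (3 / 4 - 7 / 2 * (1 - T χ)) ≤ ∑ χ, w g χ * (χ y).re :=
    Finset.sum_le_sum fun χ _ => mul_le_mul_of_nonneg_left (hpt χ) (hw0 χ)
  have h2 : ∑ χ, w g χ * (3 / 4 - 7 / 2 * (1 - T χ)) =
      3 / 4 * ∑ χ, w g χ - 7 / 2 * ∑ χ, w g χ * (1 - T χ) := by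
    rw [Finset.mul_sum, Finset.mul_sum, ← Finset.sum_sub_distrib]
    exact Finset.sum_congr rfl fun χ _ => by ring
  rw [h2, hw1] at h1
  linarith

end Fin4L

open Fin4L in
theorem fin4 : FIN4 := by
  intro G _ _ _ a σ τ Z ha hσ hτ h haz y hy
  have hphi := phi_ge σ τ hσ hτ h y hy
  by_contra hyZ
  -- the probability that `s + x ∉ Z`
  set r : G → ℝ := fun x => ∑ s, if s + x ∈ Z then 0 else a s with hr
  have hr0 : ∀ x, 0 ≤ r x := fun x => Finset.sum_nonneg fun s _ => by
    split_ifs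
    · exact le_rfl
    · exact ha.1 s
  have hr1 : ∀ x, r x ≤ 1 := fun x => by
    rw [← ha.2]
    refine Finset.sum_le_sum fun s _ => ?_
    split_ifs
    · exact ha.1 s
    · exact le_rfl
  have hrr : ∀ x, 1 ≤ r x + r (x + y) := by
    intro x
    rw [hr]
    simp only
    rw [← Finset.sum_add_distrib, ← ha.2]
    refine Finset.sum_le_sum fun s _ => ?_
    by_cases h1 : s + x ∈ Z
    · by_cases h2 : s + (x + y) ∈ Z
      · exfalso
        apply hyZ
        rw [Finset.mem_sub]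
        exact ⟨_, h2, _, h1, by abel⟩
      · rw [if_pos h1, if_neg h2, zero_add]
    · rw [if_neg h1]
      split_ifs
      · rw [add_zero]
      · linarith [ha.1 s]
  have hsum : ∑ x, σ x * r x ≤ 1 / 16 := by
    refine le_of_eq_of_le ?_ haz
    have e1 : ∀ x, σ x * r x = ∑ s, a s * (if s + x ∈ Z then 0 else σ x) := by
      intro x
      rw [hr]
      simp only
      rw [Finset.mul_sum]
      refine Finset.sum_congr rfl fun s _ => ?_
      split_ifs
      · ring
      · ring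
    rw [Finset.sum_congr rfl (fun x _ => e1 x), Finset.sum_comm]
    refine Finset.sum_congr rfl fun s _ => ?_
    rw [← Finset.mul_sum]
    congr 1
    rw [pr, eq_sub_iff_add_eq, ← Finset.sum_add_distrib, ← hσ.2]
    refine Finset.sum_congr rfl fun x _ => ?_
    split_ifs
    · rw [zero_add]
    · rw [add_zero]
  have hsh : ∀ f : G → ℝ, ∑ x, f (x + y) = ∑ x, f x := fun f =>
    Equiv.sum_comp (Equiv.addRight y) f
  have hbound : ∑ x, √(σ x) * √(σ (x + y)) ≤ 1 / 2 := by
    have e1 : ∀ x, √(σ x) * √(σ (x + y)) ≤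
        (2 * (σ x * r x) + σ x / 8) + (2 * (σ (x + y) * r (x + y)) + σ (x + y) / 8) := by
      intro x
      set A := √(σ x) with hA
      set B := √(σ (x + y)) with hB
      have hA0 : 0 ≤ A := Real.sqrt_nonneg _
      have hB0 : 0 ≤ B := Real.sqrt_nonneg _
      have hA2 : σ x = A ^ 2 := (Real.sq_sqrt (hσ.1 x)).symm
      have hB2 : σ (x + y) = B ^ 2 := (Real.sq_sqrt (hσ.1 (x + y))).symm
      rw [hA2, hB2]
      have i1 : A * B ≤ A * B * (r x + r (x + y)) := by
        nlinarith [hrr x, mul_nonneg hA0 hB0]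
      have i2 : A * B * r x ≤ 2 * (A ^ 2 * r x) + B ^ 2 / 8 := by
        have j1 : A ^ 2 * r x ^ 2 ≤ A ^ 2 * r x := by
          have := mul_le_mul_of_nonneg_left (hr1 x) (hr0 x)
          nlinarith [sq_nonneg A, hr0 x, hr1 x]
        nlinarith [sq_nonneg (A * r x - B / 4)]
      have i3 : A * B * r (x + y) ≤ 2 * (B ^ 2 * r (x + y)) + A ^ 2 / 8 := by
        have j1 : B ^ 2 * r (x + y) ^ 2 ≤ B ^ 2 * r (x + y) := by
          have := mul_le_mul_of_nonneg_left (hr1 (x + y)) (hr0 (x + y))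
          nlinarith [sq_nonneg B, hr0 (x + y), hr1 (x + y)]
        nlinarith [sq_nonneg (B * r (x + y) - A / 4)]
      nlinarith [i1, i2, i3]
    refine (Finset.sum_le_sum fun x _ => e1 x).trans ?_
    rw [Finset.sum_add_distrib, hsh (fun x => 2 * (σ x * r x) + σ x / 8), Finset.sum_add_distrib,
      ← Finset.mul_sum, ← Finset.sum_div, hσ.2]
    linarith
  linarith

end Pool.Agent.H952.QW
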