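import Pool.Agent.H952.QW.Main5
import Pool.Agent.H952.BW.H

/-!
# Subspaces in `2A - 2A` over `𝔽_p ^ n`
-/

set_option autoImplicit false

namespace Pool.Agent.H952.QW

open Finset
open scoped Pointwise

theorem mem_four {G : Type} [AddCommGroup G] [DecidableEq G] {A : Finset G} {y : G}
    (hy : y ∈ (A - A) - (A - A)) : ∃ a ∈ A, ∃ b ∈ A, ∃ c ∈ A, ∃ d ∈ A, y = a + b - c - d := by
  obtain ⟨u, hu, v, hv, rfl⟩ := Finset.mem_sub.1 hy
  obtain ⟨a, ha, c, hc, rfl⟩ := Finset.mem_sub.1 hu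
  obtain ⟨d, hd, b, hb, rfl⟩ := Finset.mem_sub.1 hv
  exact ⟨a, ha, b, hb, c, hc, d, hd, by abel⟩

/-- the version with the doubling constant -/
theorem fp5_doubling : ∃ C : ℝ, 0 < C ∧ ∀ (p : ℕ) [Fact p.Prime] (n : ℕ) (A : Finset (Fin n → ZMod p)) (K : ℝ),
    A.Nonempty → 1 ≤ K → ((A - A).card : ℝ) ≤ K * A.card →
    ∃ W : Submodule (ZMod p) (Fin n → ZMod p),
      (n : ℝ) ≤ Module.finrank (ZMod p) W + C * (Real.log ((p : ℝ) ^ n / A.card) +
        (1 + Real.log K) ^ 2 * (1 + Real.log (1 + Real.log K)) ^ 6) ∧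
      ∀ x ∈ W, ∃ a ∈ A, ∃ b ∈ A, ∃ c ∈ A, ∃ d ∈ A, x = a + b - c - d := by
  obtain ⟨C, hC, h⟩ := fgMain5
  refine ⟨C, hC, fun p _ n A K hA hK hAA => ?_⟩
  obtain ⟨Γ, hΓ, hmain⟩ := h (Fin n → ZMod p) A K hA hK hAA
  refine ⟨Pool.Agent.H952.BW.fpW Γ, ?_, fun x hx => mem_four (hmain x fun χ hχ => ?_)⟩
  · have h1 := Pool.Agent.H952.BW.fp_card Γ
    have h2 : (n : ℝ) ≤ Module.finrank (ZMod p) (Pool.Agent.H952.BW.fpW Γ) + Γ.card := by exact_mod_cast h1
    have hcard : ((Fintype.card (Fin n → ZMod p) : ℕ) : ℝ) = (p : ℝ) ^ n := by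
      rw [Fintype.card_fun, Fintype.card_fin, ZMod.card]
      push_cast
      rfl
    rw [hcard] at hΓ
    linarith
  · rw [(Pool.Agent.H952.BW.fp_mem Γ x).1 hx χ hχ, sub_self, norm_zero, zero_mul]
    norm_num

/-- the version with energy -/
theorem fp5_energy : ∃ C : ℝ, 0 < C ∧ ∀ (p : ℕ) [Fact p.Prime] (n : ℕ) (A : Finset (Fin n → ZMod p)) (K : ℝ),
    A.Nonempty → 1 ≤ K → (A.card : ℝ) ^ 3 ≤ K * (A.addEnergy A : ℕ) →
    ∃ W : Submodule (ZMod p) (Fin n → ZMod p),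
      (n : ℝ) ≤ Module.finrank (ZMod p) W + C * (Real.log ((p : ℝ) ^ n / A.card) +
        (1 + Real.log K) ^ 2 * (1 + Real.log (1 + Real.log K)) ^ 6) ∧
      ∀ x ∈ W, ∃ a ∈ A, ∃ b ∈ A, ∃ c ∈ A, ∃ d ∈ A, x = a + b - c - d := by
  obtain ⟨C, hC, h⟩ := fp5_doubling
  refine ⟨10000000000 * C, by positivity, ?_⟩
  intro p hp n A K hA hK hE
  have hApos : (0 : ℝ) < A.card := by exact_mod_cast hA.card_pos
  obtain ⟨B, hBA, hB, hB1, hB2⟩ := Pool.Agent.H217R3.AK.bsg A hA K (by linarith) hE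
  have hBpos : (0 : ℝ) < B.card := by exact_mod_cast hB.card_pos
  obtain ⟨k, hk⟩ : ∃ k : ℝ, k = Real.log K := ⟨_, rfl⟩
  have hk0 : 0 ≤ k := by rw [hk]; exact Real.log_nonneg hK
  have hK1 : (1 : ℝ) ≤ 2 ^ 22 * K ^ 10 := by
    have : (1 : ℝ) ≤ K ^ 10 := one_le_pow₀ hK
    linarith
  obtain ⟨W, hW1, hW2⟩ := h p n B (2 ^ 22 * K ^ 10) hB hK1 hB2
  refine ⟨W, ?_, ?_⟩
  · have hp0 : (0 : ℝ) < p := by exact_mod_cast hp.out.pos
    have hpn : (0 : ℝ) < (p : ℝ) ^ n := by positivity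
    have hlogA : 0 ≤ Real.log ((p : ℝ) ^ n / A.card) := by
      apply Real.log_nonneg
      rw [one_le_div hApos]
      have h1 : A.card ≤ p ^ n := by
        have := Finset.card_le_univ A
        rwa [Fintype.card_fun, Fintype.card_fin, ZMod.card] at this
      exact_mod_cast h1
    have hlogB : Real.log ((p : ℝ) ^ n / B.card) ≤ Real.log ((p : ℝ) ^ n / A.card) + k + 3 := by
      have h1 : (p : ℝ) ^ n / B.card ≤ ((p : ℝ) ^ n / A.card) * (8 * K) := by
        rw [div_mul_eq_mul_div, div_le_div_iff₀ hBpos hApos]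
        calc (p : ℝ) ^ n * A.card ≤ (p : ℝ) ^ n * (8 * K * B.card) := by gcongr
          _ = _ := by ring
      have h2 := Real.log_le_log (by positivity) h1
      rw [Real.log_mul (by positivity) (by positivity), Real.log_mul (by norm_num) (by positivity), ← hk] at h2
      have h3 : Real.log 8 ≤ 3 := by
        have : (8 : ℝ) = 2 ^ (3 : ℕ) := by norm_num
        rw [this, Real.log_pow]
        push_cast
        linarith [Real.log_two_lt_d9]
      linarith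
    obtain ⟨q, hq⟩ : ∃ q : ℝ, q = Real.log (2 ^ 22 * K ^ 10) := ⟨_, rfl⟩
    rw [← hq] at hW1
    have hlogK : q ≤ 16 + 10 * k := by
      rw [hq, Real.log_mul (by positivity) (by positivity), Real.log_pow, Real.log_pow, ← hk]
      push_cast
      linarith [Real.log_two_lt_d9]
    have hlogK0 : 0 ≤ q := by rw [hq]; exact Real.log_nonneg hK1
    have h1 : (1 + q) ^ 2 ≤ (17 * (1 + k)) ^ 2 := by
      apply pow_le_pow_left₀ (by linarith)
      linarith
    have hlk : 0 ≤ Real.log (1 + k) := Real.log_nonneg (by linarith)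
    have h2 : Real.log (1 + q) ≤ 4 + Real.log (1 + k) := by
      have h3 : Real.log (1 + q) ≤ Real.log (17 * (1 + k)) := Real.log_le_log (by linarith) (by linarith)
      rw [Real.log_mul (show (17 : ℝ) ≠ 0 by norm_num) (show 1 + k ≠ 0 by linarith)] at h3
      have h4 : Real.log 17 ≤ Real.log 32 := Real.log_le_log (by norm_num) (by norm_num)
      have h5 : Real.log 32 = 5 * Real.log 2 := by
        rw [show (32 : ℝ) = 2 ^ 5 by norm_num, Real.log_pow]; norm_num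
      linarith [Real.log_two_lt_d9]
    have h20 : 0 ≤ Real.log (1 + q) := Real.log_nonneg (by linarith)
    have h3 : (1 + Real.log (1 + q)) ^ 6 ≤ (5 * (1 + Real.log (1 + k))) ^ 6 :=
      pow_le_pow_left₀ (by linarith) (by linarith) 6
    have h4 : (1 + q) ^ 2 * (1 + Real.log (1 + q)) ^ 6 ≤
        4515625 * ((1 + k) ^ 2 * (1 + Real.log (1 + k)) ^ 6) := by
      calc (1 + q) ^ 2 * (1 + Real.log (1 + q)) ^ 6
          ≤ (17 * (1 + k)) ^ 2 * (5 * (1 + Real.log (1 + k))) ^ 6 :=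
            mul_le_mul h1 h3 (by positivity) (by positivity)
        _ = _ := by ring
    have h5 : k + 3 ≤ 3 * ((1 + k) ^ 2 * (1 + Real.log (1 + k)) ^ 6) := by
      have e1 : (1 : ℝ) ≤ 1 + k := by linarith
      have e2 : (1 : ℝ) ≤ (1 + Real.log (1 + k)) ^ 6 := one_le_pow₀ (by linarith)
      have e3 : (1 + k) * 1 ≤ (1 + k) ^ 2 * (1 + Real.log (1 + k)) ^ 6 := by
        apply mul_le_mul _ e2 (by norm_num) (by positivity)
        calc 1 + k = (1 + k) * 1 := by ring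
          _ ≤ (1 + k) * (1 + k) := mul_le_mul_of_nonneg_left e1 (by linarith)
          _ = (1 + k) ^ 2 := by ring
      linarith
    obtain ⟨P, hP⟩ : ∃ P : ℝ, P = (1 + k) ^ 2 * (1 + Real.log (1 + k)) ^ 6 := ⟨_, rfl⟩
    have hP0 : 0 ≤ P := by rw [hP]; positivity
    rw [← hP] at h4 h5
    have h6 : Real.log ((p : ℝ) ^ n / B.card) + (1 + q) ^ 2 * (1 + Real.log (1 + q)) ^ 6 ≤
        10000000000 * (Real.log ((p : ℝ) ^ n / A.card) + P) := by
      calc Real.log ((p : ℝ) ^ n / B.card) + (1 + q) ^ 2 * (1 + Real.log (1 + q)) ^ 6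
          ≤ (Real.log ((p : ℝ) ^ n / A.card) + k + 3) + 4515625 * P := add_le_add hlogB h4
        _ ≤ 10000000000 * (Real.log ((p : ℝ) ^ n / A.card) + P) := by linarith
    have h8 := mul_le_mul_of_nonneg_left h6 hC.le
    rw [← hk, ← hP]
    linarith
  · intro x hx
    obtain ⟨a, ha, b, hb, c, hc, d, hd, e⟩ := hW2 x hx
    exact ⟨a, hBA ha, b, hBA hb, c, hBA hc, d, hBA hd, e⟩

/-- the version with the density -/
theorem fp5_density : ∃ C : ℝ, 0 < C ∧ ∀ (p : ℕ) [Fact p.Prime] (n : ℕ) (A : Finset (Fin n → ZMod p)) (α : ℝ),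
    0 < α → α ≤ 1 / 2 → α * (p : ℝ) ^ n ≤ (A.card : ℝ) →
    ∃ W : Submodule (ZMod p) (Fin n → ZMod p),
      (n : ℝ) ≤ Module.finrank (ZMod p) W +
        C * (Real.log (1 / α) ^ 2 * (1 + Real.log (1 + Real.log (1 / α))) ^ 6) ∧
      ∀ x ∈ W, ∃ a ∈ A, ∃ b ∈ A, ∃ c ∈ A, ∃ d ∈ A, x = a + b - c - d := by
  obtain ⟨C, hC, hD⟩ := fp5_doubling
  refine ⟨20 * C, by positivity, fun p hp n A α hα hα2 hA => ?_⟩
  have hp0 : (0 : ℝ) < p := by exact_mod_cast hp.out.pos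
  have hpn : (0 : ℝ) < (p : ℝ) ^ n := by positivity
  have hApos : (0 : ℝ) < A.card := lt_of_lt_of_le (by positivity) hA
  have hAne : A.Nonempty := Finset.card_pos.1 (by exact_mod_cast hApos)
  have hcard : ((Fintype.card (Fin n → ZMod p) : ℕ) : ℝ) = (p : ℝ) ^ n := by
    rw [Fintype.card_fun, Fintype.card_fin, ZMod.card]
    push_cast
    rfl
  have h3 : (A.card : ℝ) ≤ (p : ℝ) ^ n := by
    rw [← hcard]
    exact_mod_cast Finset.card_le_univ A
  have hK1 : 1 ≤ 1 / α := by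
    rw [le_div_iff₀ hα]; linarith
  have hKA : ((A - A).card : ℝ) ≤ 1 / α * A.card := by
    have h4 : ((A - A).card : ℝ) ≤ (p : ℝ) ^ n := by
      rw [← hcard]
      exact_mod_cast Finset.card_le_univ _
    refine h4.trans ?_
    rw [div_mul_eq_mul_div, one_mul, le_div_iff₀ hα, mul_comm]
    exact hA
  obtain ⟨W, h1, h2⟩ := hD p n A (1 / α) hAne hK1 hKA
  refine ⟨W, h1.trans ?_, h2⟩
  obtain ⟨t, ht⟩ : ∃ t : ℝ, t = Real.log (1 / α) := ⟨_, rfl⟩
  rw [← ht]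
  have ht2 : 2 / 3 ≤ t := by
    have h4 : Real.log 2 ≤ t := by
      rw [ht]
      refine Real.log_le_log (by norm_num) ?_
      rw [le_div_iff₀ hα]
      linarith
    have h5 := Real.log_two_gt_d9
    linarith
  have hlK : Real.log ((p : ℝ) ^ n / A.card) ≤ t := by
    rw [ht]
    refine Real.log_le_log (by positivity) ?_
    rw [div_le_div_iff₀ hApos hα, one_mul, mul_comm]
    exact hA
  have hl : 0 ≤ Real.log (1 + t) := Real.log_nonneg (by linarith)
  obtain ⟨s, hs⟩ : ∃ s : ℝ, s = (1 + Real.log (1 + t)) ^ 6 := ⟨_, rfl⟩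
  have hs1 : 1 ≤ s := by rw [hs]; exact one_le_pow₀ (by linarith)
  rw [← hs]
  have h6 : (1 + t) ^ 2 ≤ 25 / 4 * t ^ 2 := by
    have : (1 + t) ^ 2 ≤ (5 / 2 * t) ^ 2 := pow_le_pow_left₀ (by linarith) (by linarith) 2
    calc (1 + t) ^ 2 ≤ (5 / 2 * t) ^ 2 := this
      _ = _ := by ring
  have h7 : t ≤ 3 / 2 * t ^ 2 := by nlinarith
  have h8 : 0 ≤ t ^ 2 := by positivity
  have h9 : t ^ 2 ≤ t ^ 2 * s := by nlinarith
  have h10 : (1 + t) ^ 2 * s ≤ 25 / 4 * t ^ 2 * s := mul_le_mul_of_nonneg_right h6 (by linarith)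
  have h11 : Real.log ((p : ℝ) ^ n / A.card) + (1 + t) ^ 2 * s ≤ 20 * (t ^ 2 * s) := by
    linarith
  have h12 := mul_le_mul_of_nonneg_left h11 hC.le
  linarith

end Pool.Agent.H952.QW
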