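import Pool.Agent.H952.QW.Stm

/-!
# QW-GO04: the start
-/

set_option autoImplicit false
set_option linter.unusedSectionVars false

namespace Pool.Agent.H952.QW

open Finset Pool.Agent.H98.BG
open scoped Pointwise

namespace GO04L

variable {G : Type} [AddCommGroup G] [Fintype G] [DecidableEq G]

/-- the uniform weights on `A` -/
noncomputable def un (A : Finset G) (x : G) : ℝ := if x ∈ A then (A.card : ℝ)⁻¹ else 0

theorem un_isP (A : Finset G) (hA : A.Nonempty) : IsP (un A) := by
  have h : (0 : ℝ) < A.card := by exact_mod_cast hA.card_pos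
  constructor
  · intro x
    unfold un
    split_ifs <;> positivity
  · unfold un
    rw [Finset.sum_ite_mem, univ_inter, sum_const, nsmul_eq_mul, mul_inv_cancel₀ h.ne']

theorem un_supp (A : Finset G) (x : G) (h : un A x ≠ 0) : x ∈ A := by
  by_contra hx
  exact h (if_neg hx)

theorem un_le (A : Finset G) (x : G) : un A x ≤ (A.card : ℝ)⁻¹ := by
  unfold un
  split_ifs
  · exact le_rfl
  · positivity

theorem un_H (A : Finset G) (hA : A.Nonempty) : H (un A) = Real.log A.card := by
  have h : (0 : ℝ) < A.card := by exact_mod_cast hA.card_pos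
  have h1 : ∀ x, Real.negMulLog (un A x) = if x ∈ A then (A.card : ℝ)⁻¹ * Real.log A.card else 0 := by
    intro x
    unfold un
    split_ifs
    · rw [Real.negMulLog, Real.log_inv]
      ring
    · rw [Real.negMulLog_zero]
  unfold H
  simp only [h1]
  rw [Finset.sum_ite_mem, univ_inter, sum_const, nsmul_eq_mul, ← mul_assoc, mul_inv_cancel₀ h.ne',
    one_mul]

theorem cv_supp (σ τ : G → ℝ) (P Q : Finset G) (hσ : ∀ x, σ x ≠ 0 → x ∈ P)
    (hτ : ∀ x, τ x ≠ 0 → x ∈ Q) (y : G) (h : cv σ τ y ≠ 0) : y ∈ P + Q := by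
  unfold cv at h
  obtain ⟨t, -, ht⟩ := Finset.exists_ne_zero_of_sum_ne_zero h
  have h1 := hσ _ (left_ne_zero_of_mul ht)
  have h2 := hτ _ (right_ne_zero_of_mul ht)
  have h3 := Finset.add_mem_add h1 h2
  rwa [sub_add_cancel] at h3

/-- if `x + s ∈ B` for all `s` in the support of `σ` then `pr σ B x = 1` -/
theorem pr_one {σ : G → ℝ} (hσ : IsP σ) (B : Finset G) (x : G)
    (h : ∀ s, σ s ≠ 0 → x + s ∈ B) : pr σ B x = 1 := by
  rw [← hσ.2]
  unfold pr
  refine Finset.sum_congr rfl fun s _ => ?_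
  by_cases hs : σ s = 0
  · rw [hs, ite_self]
  · rw [if_pos (h s hs)]

end GO04L

open GO04L

theorem go04 (bas : BAS) : GO04 := by
  intro n G _ _ _ A K h0A hK
  obtain ⟨b1, b2, b3, b4, b5, b6, b7⟩ := bas G
  have hA : A.Nonempty := ⟨0, h0A⟩
  have h0 : (0 : ℝ) < A.card := by exact_mod_cast hA.card_pos
  have hnA : (-A).Nonempty := hA.neg
  have hAA : (0 : ℝ) < (A - A).card := by exact_mod_cast (hA.sub hA).card_pos
  have hK0 : 0 < K := by
    by_contra hneg
    push Not at hneg
    nlinarith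
  have hsub : ∀ x ∈ A, x ∈ (0 + 1) • (A - A) := by
    intro x hx
    rw [zero_add, one_nsmul]
    have := Finset.sub_mem_sub hx h0A
    rwa [sub_zero] at this
  have hneg : ∀ x ∈ -A, x ∈ (0 + 1) • (A - A) := by
    intro x hx
    rw [zero_add, one_nsmul]
    have := Finset.sub_mem_sub h0A (Finset.mem_neg'.1 hx)
    rwa [zero_sub, neg_neg] at this
  refine ⟨un A, un (-A), un A, un_isP A hA, un_isP (-A) hnA, un_isP A hA,
    fun x hx => hsub x (un_supp A x hx), fun x hx => hneg x (un_supp (-A) x hx), un_supp A,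
    ?_, ?_, ?_, ?_, ?_⟩
  · intro x
    rw [pow_zero, one_div]
    exact un_le A x
  · intro x
    rw [pow_zero, one_div, ← Finset.card_neg A]
    exact un_le (-A) x
  · rw [pow_zero, sub_self, zero_div]
    refine (Finset.sum_nonpos fun x _ => ?_)
    by_cases hx : un A x = 0
    · rw [hx, zero_mul]
    · rw [pr_one (un_isP (-A) hnA) (A - A) x, sub_self, mul_zero]
      intro s hs
      have h1 := Finset.sub_mem_sub (un_supp A x hx) (Finset.mem_neg'.1 (un_supp (-A) s hs))
      rwa [sub_neg_eq_add] at h1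
  · rw [un_H A hA, sub_self]
  · rw [un_H (-A) hnA, Finset.card_neg]
    have h1 := b1 (cv (un (-A)) (un A)) (-A + A) (b3 _ _ (un_isP (-A) hnA) (un_isP A hA)).2
      (fun t ht => cv_supp _ _ (-A) A (un_supp (-A)) (un_supp A) t ht)
    rw [add_comm (-A) A, ← sub_eq_add_neg] at h1
    have h2 : Real.log (A - A).card ≤ Real.log (K * A.card) := Real.log_le_log hAA hK
    rw [Real.log_mul hK0.ne' h0.ne'] at h2
    linarith

end Pool.Agent.H952.QW
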