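import Pool.Agent.H952.QW.Stm5

/-!
`n` levels, uniformly in `n`.
-/

set_option autoImplicit false

namespace Pool.Agent.H952.QW

open Finset Pool.Agent.H98.BG
open scoped Pointwise

theorem gon5_mono {G : Type} [AddCommGroup G] [Fintype G] [DecidableEq G] {n : ℕ} {A : Finset G}
    {i : ℕ} {d c d' c' : ℝ} (h : Good5 n A i d c) (hd : d ≤ d') (hc : c ≤ c') :
    Good5 n A i d' c' := by
  obtain ⟨a, σ, τ, h1, h2, h3, h4, h5, h6, h7, h8, h9, h10, h11⟩ := h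
  exact ⟨a, σ, τ, h1, h2, h3, h4, h5, h6, h7, h8, h9, h10.trans hd, h11.trans hc⟩

/-- the number of steps of one level -/
theorem gon5_steps {C₁ : ℝ} (hC : 0 < C₁) {n : ℕ} (hn : 1 ≤ n) {l : ℝ} (hl : 1 ≤ l)
    (hln : Real.log l ≤ n) (i : ℕ) : ∃ m : ℕ, 0 < m ∧
      C₁ * n ^ 5 * l ^ 2 ≤ (l ^ (1 - ((i + 1 : ℕ) : ℝ) / n) / 32) * m ∧
      m * l ^ (1 - (i : ℝ) / n) ≤ (96 * C₁ + 1) * n ^ 5 * l ^ 2 := by
  have hl0 : 0 < l := by linarith
  have hn1 : (1 : ℝ) ≤ n := by exact_mod_cast hn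
  have hn0 : (0 : ℝ) < n := by linarith
  obtain ⟨c', hc'⟩ : ∃ c', c' = l ^ (1 - ((i + 1 : ℕ) : ℝ) / n) / 32 := ⟨_, rfl⟩
  have hc0 : 0 < c' := by
    rw [hc']
    positivity
  rw [← hc']
  obtain ⟨X, hX⟩ : ∃ X, X = C₁ * n ^ 5 * l ^ 2 / c' := ⟨_, rfl⟩
  have hX0 : 0 < X := by
    rw [hX]
    positivity
  have hXc : X * c' = C₁ * n ^ 5 * l ^ 2 := by
    rw [hX]
    field_simp
  have h3 : l ^ (1 / (n : ℝ)) ≤ 3 := by
    rw [Real.rpow_def_of_pos hl0]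
    have h1 : Real.log l * (1 / (n : ℝ)) ≤ 1 := by
      rw [mul_one_div, div_le_one hn0]
      exact hln
    exact (Real.exp_le_exp.2 h1).trans Real.exp_one_lt_three.le
  have h4 : l ^ (1 - (i : ℝ) / n) ≤ 96 * c' := by
    have e : (1 - (i : ℝ) / n) = (1 - ((i + 1 : ℕ) : ℝ) / n) + 1 / n := by
      push_cast
      ring
    rw [e, Real.rpow_add hl0]
    have e2 : l ^ (1 - ((i + 1 : ℕ) : ℝ) / n) = 32 * c' := by
      rw [hc']
      ring
    rw [e2]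
    nlinarith
  have h5 : l ^ (1 - (i : ℝ) / n) ≤ n ^ 5 * l ^ 2 := by
    have h6 : l ^ (1 - (i : ℝ) / n) ≤ l ^ (1 : ℝ) := by
      apply Real.rpow_le_rpow_of_exponent_le hl
      have : 0 ≤ (i : ℝ) / n := by positivity
      linarith
    rw [Real.rpow_one] at h6
    have h7 : (1 : ℝ) ≤ (n : ℝ) ^ 5 := one_le_pow₀ hn1
    have h8 : l ≤ l ^ 2 := by nlinarith
    calc l ^ (1 - (i : ℝ) / n) ≤ 1 * l ^ 2 := by linarith
      _ ≤ n ^ 5 * l ^ 2 := mul_le_mul_of_nonneg_right h7 (by positivity)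
  have h9 : 0 ≤ l ^ (1 - (i : ℝ) / n) := by positivity
  refine ⟨⌈X⌉₊, Nat.ceil_pos.2 hX0, ?_, ?_⟩
  · rw [← hXc, mul_comm]
    exact mul_le_mul_of_nonneg_left (Nat.le_ceil X) hc0.le
  · have h10 : (⌈X⌉₊ : ℝ) ≤ X + 1 := (Nat.ceil_lt_add_one hX0.le).le
    calc (⌈X⌉₊ : ℝ) * l ^ (1 - (i : ℝ) / n) ≤ (X + 1) * l ^ (1 - (i : ℝ) / n) :=
          mul_le_mul_of_nonneg_right h10 h9
      _ = X * l ^ (1 - (i : ℝ) / n) + l ^ (1 - (i : ℝ) / n) := by ring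
      _ ≤ X * (96 * c') + n ^ 5 * l ^ 2 := add_le_add (mul_le_mul_of_nonneg_left h4 hX0.le) h5
      _ = 96 * (X * c') + n ^ 5 * l ^ 2 := by ring
      _ = _ := by rw [hXc]; ring

theorem gon5_pow {n : ℕ} (hn : 1 ≤ n) : (1 + 1 / (n : ℝ)) ^ n ≤ 3 := by
  have hn0 : (0 : ℝ) < n := by
    have : (1 : ℝ) ≤ n := by exact_mod_cast hn
    linarith
  have h1 : 1 + 1 / (n : ℝ) ≤ Real.exp (1 / n) := by
    rw [add_comm]
    exact Real.add_one_le_exp _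
  have h2 : (1 + 1 / (n : ℝ)) ^ n ≤ Real.exp (1 / n) ^ n := pow_le_pow_left₀ (by positivity) h1 n
  rw [← Real.exp_nat_mul, mul_one_div_cancel hn0.ne'] at h2
  exact h2.trans Real.exp_one_lt_three.le

/-- QW-GON5 -/
theorem gon5 (h0 : GO05) (h1 : GOS5) : GON5 := by
  obtain ⟨C₁, hC, h1⟩ := h1
  refine ⟨3 * (96 * C₁ + 2), by positivity, fun n hn G _ _ _ A K hA hK hAK hln => ?_⟩
  have hn1 : (1 : ℝ) ≤ n := by exact_mod_cast hn
  have hn0 : (0 : ℝ) < n := by linarith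
  have hlogK : 0 ≤ Real.log K := Real.log_nonneg hK
  obtain ⟨l, hl⟩ : ∃ l, l = 1 + Real.log K := ⟨_, rfl⟩
  have hl1 : 1 ≤ l := by linarith
  have hl0 : 0 < l := by linarith
  have hln' : Real.log l ≤ n := by
    rw [hl]
    exact hln
  obtain ⟨E, hE⟩ : ∃ E, E = (96 * C₁ + 1) * n ^ 5 * l ^ 2 + 1 := ⟨_, rfl⟩
  have hE0 : 0 < E := by
    rw [hE]
    positivity
  obtain ⟨q, hq⟩ : ∃ q, q = 1 + 1 / (n : ℝ) := ⟨_, rfl⟩
  have hq1 : 1 ≤ q := by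
    rw [hq]
    have : 0 ≤ 1 / (n : ℝ) := by positivity
    linarith
  -- one level
  have step : ∀ i : ℕ, i < n → Good5 n A i (q ^ i * i * E) (l ^ (1 - (i : ℝ) / n)) →
      Good5 n A (i + 1) (q ^ (i + 1) * ((i + 1 : ℕ) : ℝ) * E)
        (l ^ (1 - ((i + 1 : ℕ) : ℝ) / n) / 32) := by
    intro i hi hg
    obtain ⟨m, hm, hm1, hm2⟩ := gon5_steps hC hn hl1 hln' i
    have hexp : 0 ≤ 1 - ((i + 1 : ℕ) : ℝ) / n := by
      rw [sub_nonneg, div_le_one hn0]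
      exact_mod_cast hi
    have h2 : 1 ≤ l ^ (1 - ((i + 1 : ℕ) : ℝ) / n) := Real.one_le_rpow hl1 hexp
    have h3 : l ^ (1 - ((i + 1 : ℕ) : ℝ) / n) ≤ l := by
      have h4 : l ^ (1 - ((i + 1 : ℕ) : ℝ) / n) ≤ l ^ (1 : ℝ) := by
        apply Real.rpow_le_rpow_of_exponent_le hl1
        have : 0 ≤ ((i + 1 : ℕ) : ℝ) / n := by positivity
        linarith
      rwa [Real.rpow_one] at h4
    have h5 := h1 n hn G A K i m _ _ (l ^ (1 - ((i + 1 : ℕ) : ℝ) / n) / 32) hA hK hAK hi hg hm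
      (by rw [← hl]; exact hm1) (by linarith) (by rw [← hl]; linarith)
    refine gon5_mono h5 ?_ le_rfl
    rw [← hq]
    have h6 : m * l ^ (1 - (i : ℝ) / n) + 1 ≤ E := by
      rw [hE]
      linarith
    have h7 : q ≤ q ^ (i + 1) := by
      calc q = q ^ 1 := (pow_one q).symm
        _ ≤ q ^ (i + 1) := pow_le_pow_right₀ hq1 (by omega)
    have h8 : q * (q ^ i * i * E + m * l ^ (1 - (i : ℝ) / n)) + 1 ≤
        q * (q ^ i * i * E + m * l ^ (1 - (i : ℝ) / n)) + q := by linarith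
    have h9 : q * (q ^ i * i * E + m * l ^ (1 - (i : ℝ) / n)) + q =
        q * (q ^ i * i * E) + q * (m * l ^ (1 - (i : ℝ) / n) + 1) := by ring
    have h10 : q * (m * l ^ (1 - (i : ℝ) / n) + 1) ≤ q ^ (i + 1) * E :=
      mul_le_mul h7 h6 (by positivity) (by positivity)
    push_cast
    calc q * (q ^ i * i * E + m * l ^ (1 - (i : ℝ) / n)) + 1 ≤
          q * (q ^ i * i * E) + q * (m * l ^ (1 - (i : ℝ) / n) + 1) := h8.trans h9.le
      _ ≤ q * (q ^ i * i * E) + q ^ (i + 1) * E := by linarith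
      _ = q ^ (i + 1) * ((i : ℝ) + 1) * E := by ring
  -- all levels
  have all : ∀ i : ℕ, i < n → Good5 n A i (q ^ i * i * E) (l ^ (1 - (i : ℝ) / n)) := by
    intro i
    induction i with
    | zero =>
      intro _
      refine gon5_mono (h0 n G A K hA hAK) ?_ ?_
      · simp
      · simp only [Nat.cast_zero, zero_div, sub_zero, Real.rpow_one]
        linarith
    | succ i ih =>
      intro hi
      refine gon5_mono (step i (by omega) (ih (by omega))) le_rfl ?_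
      have : 0 ≤ l ^ (1 - ((i + 1 : ℕ) : ℝ) / n) := by positivity
      linarith
  obtain ⟨k, rfl⟩ : ∃ k, n = k + 1 := ⟨n - 1, by omega⟩
  refine gon5_mono (step k (by omega) (all k (by omega))) ?_ ?_
  · have h2 := gon5_pow hn
    rw [← hq] at h2
    have h3 : E ≤ (96 * C₁ + 2) * ((k + 1 : ℕ) : ℝ) ^ 5 * l ^ 2 := by
      have h4 : (1 : ℝ) ≤ ((k + 1 : ℕ) : ℝ) ^ 5 * l ^ 2 :=
        one_le_mul_of_one_le_of_one_le (one_le_pow₀ hn1) (one_le_pow₀ hl1)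
      rw [hE]
      linarith
    rw [← hl]
    calc q ^ (k + 1) * ((k + 1 : ℕ) : ℝ) * E ≤ 3 * ((k + 1 : ℕ) : ℝ) *
          ((96 * C₁ + 2) * ((k + 1 : ℕ) : ℝ) ^ 5 * l ^ 2) :=
          mul_le_mul (mul_le_mul_of_nonneg_right h2 hn0.le) h3 hE0.le (by positivity)
      _ = _ := by ring
  · rw [div_self hn0.ne', sub_self, Real.rpow_zero]

end Pool.Agent.H952.QW
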