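import Pool.Agent.H952.QW.Stm

/-!
# One level: parameters and supports
-/

set_option autoImplicit false
set_option linter.unusedSectionVars false

namespace Pool.Agent.H952.QW

open Finset Pool.Agent.H98.BG
open scoped Pointwise

namespace Gos4L

variable {G : Type} [AddCommGroup G] [Fintype G] [DecidableEq G]

/-- Pluennecke-Ruzsa -/
theorem card_nsmul_le (A : Finset G) (hA : A.Nonempty) (K : ℝ) (_hK : 1 ≤ K)
    (hAA : ((A - A).card : ℝ) ≤ K * A.card) (j : ℕ) :
    ((j • (A - A)).card : ℝ) ≤ K ^ (2 * j) * A.card := by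
  have h1 := Finset.pluennecke_ruzsa_inequality_nsmul_sub_nsmul_sub hA A j j
  have h0 : (0 : ℝ) < A.card := by exact_mod_cast hA.card_pos
  have h2 : ((j • A - j • A).card : ℝ) ≤ (((A - A).card : ℝ) / A.card) ^ (j + j) * A.card := by
    have h4 := (NNRat.cast_le (K := ℝ)).2 h1
    push_cast at h4
    exact h4
  have h3 : ((A - A).card : ℝ) / A.card ≤ K := (div_le_iff₀ h0).2 hAA
  have h4 : j • (A - A) = j • A - j • A := nsmul_sub A A j
  rw [h4]
  refine h2.trans (mul_le_mul_of_nonneg_right ?_ h0.le)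
  rw [← two_mul]
  exact pow_le_pow_left₀ (div_nonneg (Nat.cast_nonneg _) h0.le) h3 _

theorem zero_mem_sub {A : Finset G} (hA : A.Nonempty) : (0 : G) ∈ A - A := by
  obtain ⟨x, hx⟩ := hA
  rw [← sub_self x]
  exact Finset.sub_mem_sub hx hx

theorem nsmul_mono {A : Finset G} (hA : A.Nonempty) {i j : ℕ} (h : i ≤ j) :
    i • (A - A) ⊆ j • (A - A) := by
  obtain ⟨k, rfl⟩ := Nat.exists_eq_add_of_le h
  intro x hx
  rw [add_nsmul, ← add_zero x]
  refine Finset.add_mem_add hx ?_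
  have h0 := zero_mem_sub hA
  have : ∀ k : ℕ, (0 : G) ∈ k • (A - A) := by
    intro k
    induction k with
    | zero => simp
    | succ k ih =>
      rw [succ_nsmul, ← add_zero (0 : G)]
      exact Finset.add_mem_add ih h0
  exact this k

theorem neg_mem {A : Finset G} {j : ℕ} {x : G} (hx : x ∈ j • (A - A)) : -x ∈ j • (A - A) := by
  have h : -(j • (A - A)) = j • (A - A) := by
    clear hx
    induction j with
    | zero => simp
    | succ j ih => rw [succ_nsmul, neg_add, neg_sub, ih]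
  rw [← h]
  exact Finset.neg_mem_neg hx

theorem pr_pos {σ : G → ℝ} {B : Finset G} {y : G} (h : 1 / 2 ≤ pr σ B y) :
    ∃ s, σ s ≠ 0 ∧ y + s ∈ B := by
  have h1 : pr σ B y ≠ 0 := by intro h0; rw [h0] at h; norm_num at h
  obtain ⟨s, -, hs⟩ := Finset.exists_ne_zero_of_sum_ne_zero h1
  by_cases hb : y + s ∈ B
  · rw [if_pos hb] at hs
    exact ⟨s, hs, hb⟩
  · exact absurd (by rw [if_neg hb]) hs

/-- symmetry of the defect -/
theorem swap {σ σ' : G → ℝ} (hσ : IsP σ) (hσ' : IsP σ') (B : Finset G) :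
    ∑ x, σ x * (1 - pr σ' B x) = ∑ x, σ' x * (1 - pr σ B x) := by
  have h1 : ∀ p p' : G → ℝ, IsP p → ∑ x, p x * (1 - pr p' B x) =
      1 - ∑ x, ∑ s, if x + s ∈ B then p x * p' s else 0 := by
    intro p p' hp
    simp only [mul_sub, mul_one, Finset.sum_sub_distrib, hp.2]
    congr 1
    refine Finset.sum_congr rfl fun x _ => ?_
    unfold pr
    rw [Finset.mul_sum]
    refine Finset.sum_congr rfl fun s _ => ?_
    rw [mul_ite, mul_zero]
  rw [h1 _ _ hσ, h1 _ _ hσ', Finset.sum_comm]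
  congr 1
  refine Finset.sum_congr rfl fun x _ => Finset.sum_congr rfl fun s _ => ?_
  rw [add_comm x s, mul_comm]

/-- the logarithm -/
theorem log_bound {X : ℝ} (hX : 1 ≤ X) : Real.log (16002 * X) ≤ 20 * X := by
  rw [Real.log_mul (by norm_num) (by linarith)]
  have h1 : Real.log X ≤ X - 1 := Real.log_le_sub_one_of_pos (by linarith)
  have h2 : Real.log 16002 ≤ 14 := by
    have h3 : Real.log 16002 ≤ Real.log (2 ^ 14) := Real.log_le_log (by norm_num) (by norm_num)
    rw [Real.log_pow] at h3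
    have h4 : Real.log 2 ≤ 1 := by
      have := Real.log_le_sub_one_of_pos (show (0 : ℝ) < 2 by norm_num)
      linarith
    push_cast at h3
    linarith
  linarith

end Gos4L

open Gos4L

theorem gos4 (st : STEP4) : GOS4 := by
  intro n
  refine ⟨60000 * ((n : ℝ) + 1) ^ 2 * 2 ^ (2 * n + 14), by positivity, ?_⟩
  intro G _ _ _ A K i m d c c' h0A hK1 hK hin hgood hm hcm hc' hc'2
  obtain ⟨a, σ, τ, ha, hσ, hτ, haS, hσS, hτS, haM, hσM, hdef, hd, hc⟩ := hgood
  have hA : A.Nonempty := ⟨0, h0A⟩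
  have hA0 : (0 : ℝ) < A.card := by exact_mod_cast hA.card_pos
  have hlogK : 0 ≤ Real.log K := Real.log_nonneg hK1
  set lam : ℝ := 1 + Real.log K with hlam
  have hlam1 : 1 ≤ lam := by linarith
  have hn0 : (0 : ℝ) ≤ n := n.cast_nonneg
  set X : ℝ := ((n : ℝ) + 1) * lam with hX
  have hX1 : 1 ≤ X := by nlinarith
  set L : ℝ := 100 * X with hL
  have hL0 : 0 < L := by linarith
  have hc'0 : 0 < c' := by linarith
  set k : ℕ := ⌈5 * L / c'⌉₊ with hk
  have hk0 : 0 < k := Nat.ceil_pos.2 (by positivity)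
  have hk0' : (0 : ℝ) < k := by exact_mod_cast hk0
  have hk1 : 5 * L / c' ≤ k := Nat.le_ceil _
  have hk2 : (k : ℝ) ≤ 5 * L / c' + 1 := (Nat.ceil_lt_add_one (by positivity)).le
  set l : ℝ := L * 2 ^ (n + 7) with hl
  have hl0 : 0 < l := by positivity
  have hm0 : (0 : ℝ) < m := by exact_mod_cast hm
  -- the sets
  set Z := A - A with hZ
  have hiZ : ∀ x, (a x ≠ 0 ∨ 1 / 2 ≤ pr σ Z x) → x ∈ (i + 2) • Z := by
    intro x hx
    rcases hx with hx | hx
    · exact nsmul_mono hA (by omega) (haS x hx)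
    · obtain ⟨s, hs, hs'⟩ := pr_pos hx
      have h1 : x = (x + s) + -s := by abel
      rw [h1, show i + 2 = 1 + (i + 1) by ring, add_nsmul, one_nsmul]
      exact Finset.add_mem_add hs' (neg_mem (hσS s hs))
  have hR : ∀ x, (a x ≠ 0 ∨ 1 / 2 ≤ pr σ Z x) → ∀ t ∈ A, ∀ t' ∈ A, x - t + t' ∈ (i + 3) • Z := by
    intro x hx t ht t' ht'
    have h1 : x - t + t' = x + (t' - t) := by abel
    rw [h1, show i + 3 = (i + 2) + 1 by ring, add_nsmul, one_nsmul]
    exact Finset.add_mem_add (hiZ x hx) (Finset.sub_mem_sub ht' ht)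
  -- the logarithm
  have hcard := card_nsmul_le A hA K hK1 hK (i + 3)
  rw [← hZ] at hcard
  have hne : ((i + 3) • Z).Nonempty := by
    refine ⟨0, nsmul_mono hA (show 1 ≤ i + 3 by omega) ?_⟩
    rw [one_nsmul]
    exact zero_mem_sub hA
  have hRpos : (0 : ℝ) < ((i + 3) • Z).card := by exact_mod_cast hne.card_pos
  have hKpos : (0 : ℝ) < K := by linarith
  have hin' : (i : ℝ) + 1 ≤ n := by exact_mod_cast hin
  have hi0 : (0 : ℝ) ≤ i := i.cast_nonneg
  have hlog : Real.log (((k : ℝ) + 1) * ((i + 3) • Z).card) +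
      Real.log ((2 : ℝ) ^ i / A.card) ≤ L := by
    rw [Real.log_mul (by positivity) hRpos.ne', Real.log_div (by positivity) hA0.ne',
      Real.log_pow]
    have h1 : Real.log ((i + 3) • Z).card ≤ (2 * (i + 3 : ℕ) : ℕ) * Real.log K +
        Real.log A.card := by
      have h2 := Real.log_le_log hRpos hcard
      rwa [Real.log_mul (by positivity) hA0.ne', Real.log_pow] at h2
    have h2 : Real.log ((k : ℝ) + 1) ≤ 20 * X := by
      refine (Real.log_le_log (by positivity) ?_).trans (log_bound hX1)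
      have h3 : 5 * L / c' ≤ 16000 * X := by
        rw [div_le_iff₀ hc'0, hL]
        nlinarith
      linarith
    have h3 : Real.log 2 ≤ 1 := by
      have := Real.log_le_sub_one_of_pos (show (0 : ℝ) < 2 by norm_num)
      linarith
    have h4 : (i : ℝ) * Real.log 2 ≤ X := by
      have h5 : (i : ℝ) * Real.log 2 ≤ i * 1 := mul_le_mul_of_nonneg_left h3 hi0
      nlinarith
    have h5 : (((2 * (i + 3 : ℕ) : ℕ) : ℝ)) * Real.log K ≤ 8 * X := by
      push_cast
      have h6 : 2 * ((i : ℝ) + 3) ≤ 8 * ((n : ℝ) + 1) := by linarith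
      have h7 : Real.log K ≤ lam := by linarith
      calc 2 * ((i : ℝ) + 3) * Real.log K ≤ 8 * ((n : ℝ) + 1) * Real.log K :=
            mul_le_mul_of_nonneg_right h6 hlogK
        _ ≤ 8 * ((n : ℝ) + 1) * lam := mul_le_mul_of_nonneg_left h7 (by positivity)
        _ = 8 * X := by rw [hX]; ring
    rw [hL]
    linarith
  -- the sizes
  have hkL : (k : ℝ) * c' ≤ 6 * L := by
    have h1 : c' ≤ L := by
      rw [hL, hX]
      nlinarith
    have h2 : (k : ℝ) * c' ≤ (5 * L / c' + 1) * c' := mul_le_mul_of_nonneg_right hk2 hc'0.le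
    have h3 : (5 * L / c' + 1) * c' = 5 * L + c' := by field_simp
    linarith
  have hkm : (k : ℝ) * L * 2 ^ (2 * n + 14) ≤ m := by
    have h1 : (k : ℝ) * L * 2 ^ (2 * n + 14) * c' ≤ c' * m := by
      refine le_trans ?_ hcm
      have h2 : (k : ℝ) * L * 2 ^ (2 * n + 14) * c' = (k * c') * (L * 2 ^ (2 * n + 14)) := by ring
      rw [h2]
      refine (mul_le_mul_of_nonneg_right hkL (by positivity)).trans (le_of_eq ?_)
      rw [hL, hX]
      ring
    rw [mul_comm c' (m : ℝ)] at h1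
    exact le_of_mul_le_mul_right h1 hc'0
  have hpow2 : (2 : ℝ) ^ (2 * n + 14) = 2 ^ (n + 7) * 2 ^ (n + 7) := by
    rw [← pow_add]
    congr 1
    ring
  have h2pos : (0 : ℝ) < 2 ^ (n + 7) := by positivity
  have hkl : (k : ℝ) * l * 2 ^ (n + 7) ≤ m := by
    refine le_trans (le_of_eq ?_) hkm
    rw [hl, hpow2]
    ring
  have hk1' : (1 : ℝ) ≤ k := by exact_mod_cast hk0
  have h2one : (1 : ℝ) ≤ 2 ^ (n + 7) := one_le_pow₀ (by norm_num)
  have hlm : l ≤ m := by
    refine le_trans ?_ hkl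
    calc l = 1 * l * 1 := by ring
      _ ≤ (k : ℝ) * l * 2 ^ (n + 7) := by gcongr
  have e1 : L / l = 1 / 2 ^ (n + 7) := by
    rw [hl]
    field_simp
  have e2 : (k : ℝ) * l / m ≤ 1 / 2 ^ (n + 7) := by
    rw [div_le_div_iff₀ hm0 h2pos, one_mul]
    exact hkl
  set u : ℝ := (2 ^ i - 1) / 2 ^ (n + 5) with hu
  have e3 : (1 : ℝ) / 2 ^ (n + 7) + 1 / 2 ^ (n + 7) = 1 / 2 ^ (n + 6) := by
    rw [pow_succ 2 (n + 6)]
    field_simp
    norm_num
  have e4 : (1 : ℝ) / 2 ^ (n + 6) = 1 / 2 * (1 / 2 ^ (n + 5)) := by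
    rw [pow_succ 2 (n + 5)]
    field_simp
  have hδ : u + 1 / 2 ^ (n + 6) ≤ 1 / 8 := by
    have h1 : (2 : ℝ) ^ i ≤ 2 ^ n := pow_le_pow_right₀ (by norm_num) hin.le
    have h2 : (0 : ℝ) < 2 ^ n := by positivity
    have h3 : (2 : ℝ) ^ (n + 5) = 32 * 2 ^ n := by rw [pow_add]; ring
    have h4 : u + 1 / 2 ^ (n + 6) = (2 ^ i - 1 / 2) / (32 * 2 ^ n) := by
      rw [e4, hu, h3]
      field_simp
      ring
    rw [h4, div_le_div_iff₀ (by positivity) (by norm_num)]
    nlinarith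
  obtain ⟨σ', τ', g1, g2, g3, g4, g5, g6, g7, g8⟩ := st G a σ τ Z ((i + 3) • Z) A m k c u l
    (u + 1 / 2 ^ (n + 6)) (2 ^ i / A.card) L (Real.log A.card) ha hσ hτ hτS le_rfl hR
    (fun x hx => nsmul_mono hA (by omega) (haS x hx)) haM (by positivity) hc hdef hm hk0 hl0 hlm
    hL0 (by simpa using hlog) (by linarith) hδ
  refine ⟨σ, σ', τ', hσ, g1, g2, fun x hx => nsmul_mono hA (by omega) (hσS x hx),
    fun x hx => hiZ x (g3 x hx), fun t ht => hτS t (g5 t ht), fun x => ?_, fun x => ?_, ?_, ?_, ?_⟩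
  · refine (hσM x).trans (div_le_div_of_nonneg_right ?_ hA0.le)
    exact pow_le_pow_right₀ (by norm_num) (Nat.le_succ i)
  · refine (g4 x).trans (le_of_eq ?_)
    rw [pow_succ]
    ring
  · rw [swap hσ g1]
    refine g6.trans (le_of_eq ?_)
    rw [e4, hu, pow_succ]
    ring
  · refine g7.trans ?_
    linarith
  · refine g8.trans ?_
    rw [div_le_iff₀ hk0']
    rw [div_le_iff₀ hc'0] at hk1
    linarith

end Pool.Agent.H952.QW
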