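import Pool.Agent.H952.QW.Stm5

/-!
# One level, uniform in the number of levels (`GOS5`), by helper225
-/

set_option autoImplicit false
set_option linter.unusedSectionVars false

namespace Pool.Agent.H952.QW

open Finset Pool.Agent.H98.BG
open scoped Pointwise

namespace Gos5L

section

variable {G : Type} [AddCommGroup G] [Fintype G] [DecidableEq G]

theorem card_le (A : Finset G) (hA : A.Nonempty) (K : ℝ) (hK : 1 ≤ K)
    (h : ((A - A).card : ℝ) ≤ K * A.card) (a b M : ℕ) (hab : a + b ≤ M) :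
    ((a • A - b • A).card : ℝ) ≤ K ^ M * A.card := by
  have h0 : (0 : ℝ) < A.card := by exact_mod_cast hA.card_pos
  have h1 := Finset.pluennecke_ruzsa_inequality_nsmul_sub_nsmul_sub hA A a b
  have h2 : ((a • A - b • A).card : ℝ) ≤ (((A - A).card : ℝ) / A.card) ^ (a + b) * A.card := by
    have h4 := (NNRat.cast_le (K := ℝ)).2 h1
    push_cast at h4
    exact h4
  refine h2.trans ?_
  have h3 : ((A - A).card : ℝ) / A.card ≤ K := by
    rw [div_le_iff₀ h0]
    exact h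
  gcongr
  exact (pow_le_pow_left₀ (by positivity) h3 _).trans (pow_le_pow_right₀ hK hab)

theorem card_nsmul_le (A : Finset G) (hA : A.Nonempty) (K : ℝ) (hK : 1 ≤ K)
    (h : ((A - A).card : ℝ) ≤ K * A.card) (j : ℕ) :
    ((j • (A - A)).card : ℝ) ≤ K ^ (2 * j) * A.card := by
  have e : j • (A - A) = j • A - j • A := nsmul_sub A A j
  rw [e]
  exact card_le A hA K hK h j j (2 * j) (by omega)

theorem zero_mem_nsm {Z : Finset G} (h : (0 : G) ∈ Z) (r : ℕ) : (0 : G) ∈ r • Z := by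
  induction r with
  | zero => rw [zero_nsmul]; exact Finset.zero_mem_zero
  | succ r ih =>
    rw [succ_nsmul]
    have := Finset.add_mem_add ih h
    rwa [add_zero] at this

theorem nsm_mono {Z : Finset G} (h : (0 : G) ∈ Z) {i j : ℕ} (hij : i ≤ j) : i • Z ⊆ j • Z := by
  obtain ⟨r, rfl⟩ := Nat.exists_eq_add_of_le hij
  rw [add_nsmul]
  intro x hx
  have := Finset.add_mem_add hx (zero_mem_nsm h r)
  rwa [add_zero] at this

theorem neg_mem_nsm (A : Finset G) (j : ℕ) {x : G} (hx : x ∈ j • (A - A)) :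
    -x ∈ j • (A - A) := by
  have h1 : -(j • (A - A)) = j • (A - A) := by rw [← neg_nsmul, neg_sub]
  rw [← h1]
  exact Finset.neg_mem_neg hx

theorem pr_pos' {σ : G → ℝ} {B : Finset G} {y : G} (h : 1 / 2 ≤ pr σ B y) :
    ∃ s, σ s ≠ 0 ∧ y + s ∈ B := by
  have h1 : pr σ B y ≠ 0 := by intro h0; rw [h0] at h; norm_num at h
  obtain ⟨s, -, hs⟩ := Finset.exists_ne_zero_of_sum_ne_zero h1
  by_cases hb : y + s ∈ B
  · rw [if_pos hb] at hs
    exact ⟨s, hs, hb⟩
  · exact absurd (if_neg hb) hs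

theorem supp (A : Finset G) (h0 : (0 : G) ∈ A - A) {σ : G → ℝ} {a : G → ℝ} {i : ℕ}
    (ha : ∀ x, a x ≠ 0 → x ∈ (i + 1) • (A - A)) (hσ : ∀ x, σ x ≠ 0 → x ∈ (i + 1) • (A - A))
    {x : G} (hx : a x ≠ 0 ∨ 1 / 2 ≤ pr σ (A - A) x) : x ∈ (i + 1 + 1) • (A - A) := by
  rcases hx with hx | hx
  · exact nsm_mono h0 (Nat.le_succ _) (ha x hx)
  · obtain ⟨s, hs, hsx⟩ := pr_pos' hx
    have h1 := Finset.add_mem_add (neg_mem_nsm A (i + 1) (hσ s hs)) hsx
    rw [← succ_nsmul] at h1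
    have e : -s + (x + s) = x := by abel
    rwa [e] at h1

theorem sym (Z : Finset G) {σ σ' : G → ℝ} (hσ : IsP σ) (hσ' : IsP σ') :
    ∑ x, σ x * (1 - pr σ' Z x) = ∑ x, σ' x * (1 - pr σ Z x) := by
  have h1 : ∀ p q : G → ℝ, IsP p → ∑ x, p x * (1 - pr q Z x) =
      1 - ∑ x, ∑ s, (if x + s ∈ Z then p x * q s else 0) := by
    intro p q hp
    have e : ∀ x, p x * (1 - pr q Z x) = p x - ∑ s, (if x + s ∈ Z then p x * q s else 0) := by
      intro x
      unfold pr
      rw [mul_sub, mul_one, Finset.mul_sum]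
      congr 1
      refine Finset.sum_congr rfl fun s _ => ?_
      rw [mul_ite, mul_zero]
    rw [Finset.sum_congr rfl fun x _ => e x, Finset.sum_sub_distrib, hp.2]
  rw [h1 σ σ' hσ, h1 σ' σ hσ', Finset.sum_comm]
  congr 1
  refine Finset.sum_congr rfl fun s _ => Finset.sum_congr rfl fun x _ => ?_
  rw [add_comm x s, mul_comm (σ x) (σ' s)]

end

theorem num1 {n i k : ℕ} (hn : 1 ≤ n) (hi : i < n) {K c' L : ℝ} (hK : 1 ≤ K)
    (hL : L = 100 * n * (1 + Real.log K)) (hk : (k : ℝ) ≤ 4 * n * L / c' + 1)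
    (hc' : 1 / 32 ≤ c') :
    Real.log ((k : ℝ) + 1) + (2 * (i : ℝ) + 6) * Real.log K + i * Real.log 2 ≤ L := by
  have hn1 : (1 : ℝ) ≤ n := by exact_mod_cast hn
  have hi1 : (i : ℝ) + 1 ≤ n := by exact_mod_cast hi
  have hi0 : (0 : ℝ) ≤ i := Nat.cast_nonneg i
  have hlK : 0 ≤ Real.log K := Real.log_nonneg hK
  have hL0 : 100 ≤ L := by rw [hL]; nlinarith
  have hc0 : 0 < c' := by linarith
  have h1 : 4 * n * L / c' ≤ 128 * n * L := by
    rw [div_le_iff₀ hc0]
    have h2 : 0 ≤ n * L := by positivity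
    nlinarith
  have h2 : (k : ℝ) + 1 ≤ 2 ^ 14 * (n : ℝ) ^ 2 * (1 + Real.log K) := by
    have h3 : (1 : ℝ) ≤ n * L := by nlinarith
    have h4 : (k : ℝ) + 1 ≤ 130 * (n * L) := by linarith
    refine h4.trans ?_
    rw [hL]
    have h5 : 0 ≤ (n : ℝ) ^ 2 * (1 + Real.log K) := by positivity
    nlinarith
  have hΛ : 0 < 1 + Real.log K := by linarith
  have h3 : Real.log ((k : ℝ) + 1) ≤ 14 * Real.log 2 + 2 * Real.log n + Real.log (1 + Real.log K) := by
    have h4 := Real.log_le_log (by positivity) h2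
    rw [Real.log_mul (by positivity) hΛ.ne', Real.log_mul (by positivity) (by positivity),
      Real.log_pow, Real.log_pow] at h4
    push_cast at h4
    exact h4
  have h4 : Real.log n ≤ n - 1 := Real.log_le_sub_one_of_pos (by linarith)
  have h5 : Real.log (1 + Real.log K) ≤ 1 + Real.log K - 1 := Real.log_le_sub_one_of_pos hΛ
  have h6 : Real.log 2 ≤ 0.7 := by
    have := Real.log_two_lt_d9
    linarith
  have h7 : (i : ℝ) * Real.log 2 ≤ n * 0.7 := by
    have h8 : (0 : ℝ) ≤ Real.log 2 := Real.log_nonneg (by norm_num)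
    nlinarith
  have h8 : (2 * (i : ℝ) + 6) * Real.log K ≤ (2 * n + 6) * Real.log K := by
    apply mul_le_mul_of_nonneg_right _ hlK
    linarith
  rw [hL]
  have h9 : Real.log K ≤ n * Real.log K := by nlinarith
  nlinarith

theorem num2 {n c' L Λ k m : ℝ} (hn : 1 ≤ n) (hΛ : 1 ≤ Λ) (hc0 : 0 < c') (hcΛ : c' ≤ Λ)
    (hL : L = 100 * n * Λ) (hk : c' * k ≤ 4 * n * L + c')
    (hm : 60000000 * n ^ 5 * Λ ^ 2 ≤ c' * m) : 1024 * n ^ 2 * k * L ≤ m := by
  have hL0 : 0 < L := by rw [hL]; positivity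
  have h1 : Λ ≤ n * L := by
    rw [hL]
    have h2 : 1 ≤ n * (100 * n) := by nlinarith
    nlinarith
  have h2 : c' * k ≤ 5 * n * L := by linarith
  have h3 : c' * (1024 * n ^ 2 * k * L) ≤ c' * m := by
    calc c' * (1024 * n ^ 2 * k * L) = 1024 * n ^ 2 * L * (c' * k) := by ring
      _ ≤ 1024 * n ^ 2 * L * (5 * n * L) := by
          apply mul_le_mul_of_nonneg_left h2 (by positivity)
      _ = 51200000 * (n ^ 5 * Λ ^ 2) := by rw [hL]; ring
      _ ≤ 60000000 * (n ^ 5 * Λ ^ 2) := by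
          apply mul_le_mul_of_nonneg_right (by norm_num) (by positivity)
      _ = 60000000 * n ^ 5 * Λ ^ 2 := by ring
      _ ≤ c' * m := hm
  exact le_of_mul_le_mul_left h3 hc0

end Gos5L

open Gos5L

theorem gos5 (st : STEP5) : GOS5 := by
  refine ⟨60000000, by norm_num, ?_⟩
  intro n hn G _ _ _ A K i m d c c' hA0 hK1 hK hin hgood hm hmc hc1 hc2
  obtain ⟨a, σ, τ, ha, hσ, hτ, has, hσs, hτs, haM, hσM, hu, hd, hc⟩ := hgood
  have hA : A.Nonempty := ⟨0, hA0⟩
  have hZ0 : (0 : G) ∈ A - A := by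
    have := Finset.sub_mem_sub hA0 hA0
    rwa [sub_zero] at this
  have hAc : (0 : ℝ) < A.card := by exact_mod_cast hA.card_pos
  have hn1 : (1 : ℝ) ≤ n := by exact_mod_cast hn
  have hi1 : (i : ℝ) + 1 ≤ n := by exact_mod_cast hin
  have hlK : 0 ≤ Real.log K := Real.log_nonneg hK1
  have hc0 : 0 < c' := by linarith
  obtain ⟨L, hL⟩ : ∃ L : ℝ, L = 100 * n * (1 + Real.log K) := ⟨_, rfl⟩
  have hL0 : 0 < L := by rw [hL]; positivity
  obtain ⟨k, hk⟩ : ∃ k : ℕ, k = ⌈4 * n * L / c'⌉₊ := ⟨_, rfl⟩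
  have hk1 : 4 * n * L / c' ≤ k := by rw [hk]; exact Nat.le_ceil _
  have hk2 : (k : ℝ) ≤ 4 * n * L / c' + 1 := by
    rw [hk]
    exact (Nat.ceil_lt_add_one (by positivity)).le
  have hk1' : 4 * n * L ≤ c' * k := by
    rw [div_le_iff₀ hc0] at hk1
    linarith
  have hk0 : 0 < k := by
    rw [hk]
    exact Nat.ceil_pos.2 (by positivity)
  have hk0' : (0 : ℝ) < k := by exact_mod_cast hk0
  have hk01 : (1 : ℝ) ≤ k := by exact_mod_cast hk0
  have hk3 : c' * k ≤ 4 * n * L + c' := by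
    have h1 := mul_le_mul_of_nonneg_left hk2 hc0.le
    have h2 : c' * (4 * n * L / c' + 1) = 4 * n * L + c' := by
      field_simp
    linarith
  have hm0 : (0 : ℝ) < m := by exact_mod_cast hm
  have hkm : 1024 * (n : ℝ) ^ 2 * k * L ≤ m :=
    num2 hn1 (by linarith) hc0 hc2 hL hk3 hmc
  have hnum := num1 hn hin hK1 hL hk2 hc1
  -- the application of the step
  have hR0 : (0 : G) ∈ (i + 3) • (A - A) := zero_mem_nsm hZ0 _
  have hRc : (0 : ℝ) < ((i + 3) • (A - A)).card := by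
    exact_mod_cast Finset.card_pos.2 ⟨0, hR0⟩
  have hMpos : (0 : ℝ) < 2 ^ i / A.card := by positivity
  have hlog : Real.log ((k + 1 : ℝ) * ((i + 3) • (A - A)).card) +
      Real.log (2 ^ i / A.card) ≤ L := by
    rw [Real.log_mul (by positivity) hRc.ne', Real.log_div (by positivity) hAc.ne', Real.log_pow]
    have h1 := card_nsmul_le A hA K hK1 hK (i + 3)
    have h2 := Real.log_le_log hRc h1
    rw [Real.log_mul (by positivity) hAc.ne', Real.log_pow] at h2
    push_cast at h2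
    have e : 2 * ((i : ℝ) + 3) = 2 * i + 6 := by ring
    rw [e] at h2
    linarith
  have hl0 : 0 < 32 * n * L := by positivity
  have hlm : 32 * n * L ≤ m := by
    refine le_trans ?_ hkm
    have h1 : 32 * n * L ≤ 1024 * (n : ℝ) ^ 2 * 1 * L := by
      have h3 : (n : ℝ) ≤ n ^ 2 := by nlinarith
      have h4 : 32 * (n : ℝ) ≤ 1024 * n ^ 2 := by nlinarith
      nlinarith
    refine h1.trans ?_
    gcongr
  have hdel : (i : ℝ) / (16 * n) + (L / (32 * n * L) + k * (32 * n * L) / m) ≤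
      ((i + 1 : ℕ) : ℝ) / (16 * n) := by
    have h1 : L / (32 * n * L) = 1 / (32 * n) := by
      field_simp
    have h2 : k * (32 * n * L) / m ≤ 1 / (32 * n) := by
      rw [div_le_div_iff₀ hm0 (by positivity)]
      nlinarith
    rw [h1]
    have h3 : ((i + 1 : ℕ) : ℝ) / (16 * n) = (i : ℝ) / (16 * n) + (1 / (32 * n) + 1 / (32 * n)) := by
      push_cast
      field_simp
      ring
    rw [h3]
    linarith
  have hdel2 : ((i + 1 : ℕ) : ℝ) / (16 * n) ≤ 1 / 8 := by
    rw [div_le_div_iff₀ (by positivity) (by norm_num)]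
    push_cast
    linarith
  have hθ0 : (0 : ℝ) < 1 / n := by positivity
  have hθ1 : (1 : ℝ) / n ≤ 1 := by
    rw [div_le_one (by linarith)]
    exact hn1
  obtain ⟨σ', τ', q1, q2, q3, q4, q5, q6, q7, q8⟩ := st G a σ τ (A - A) ((i + 3) • (A - A)) A m k
    c ((i : ℝ) / (16 * n)) (32 * n * L) (((i + 1 : ℕ) : ℝ) / (16 * n)) (1 / n) (2 ^ i / A.card) L
    (Real.log A.card) ha hσ hτ hτs le_rfl
    (fun x hx t ht t' ht' => by
      have h1 := supp A hZ0 has hσs hx
      have h2 := Finset.add_mem_add h1 (Finset.sub_mem_sub ht' ht)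
      rw [← succ_nsmul] at h2
      have e : x + (t' - t) = x - t + t' := by abel
      rwa [e] at h2)
    (fun x hx => nsm_mono hZ0 (by omega) (has x hx)) haM hMpos hc hu hm hk0 hl0 hlm hL0 hlog hdel
    hdel2 hθ0 hθ1
  refine ⟨σ, σ', τ', hσ, q1, q2, fun x hx => nsm_mono hZ0 (by omega) (hσs x hx),
    fun x hx => supp A hZ0 has hσs (q3 x hx), fun t ht => hτs t (q5 t ht), ?_, ?_, ?_, ?_, ?_⟩
  · intro x
    refine (hσM x).trans ?_
    apply div_le_div_of_nonneg_right _ hAc.le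
    rw [pow_succ]
    have : (0 : ℝ) < 2 ^ i := by positivity
    linarith
  · intro x
    refine (q4 x).trans (le_of_eq ?_)
    rw [pow_succ]
    ring
  · rw [sym (A - A) hσ q1]
    exact q6
  · refine q7.trans ?_
    have h1 : (0 : ℝ) ≤ 1 + 1 / n := by positivity
    have h2 := mul_le_mul_of_nonneg_left (add_le_add_left hd (m * c)) h1
    linarith
  · refine q8.trans ?_
    rw [div_le_iff₀ (by positivity)]
    have h1 : c' * (k * (1 / (n : ℝ))) = c' * k / n := by ring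
    rw [h1, le_div_iff₀ (by linarith)]
    linarith

end Pool.Agent.H952.QW
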