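import Pool.Agent.H952.QW.Stm5

set_option autoImplicit false

/-! # QW-KILL5: the killed walk, version 5 (adapted from the file of helper115 by helper180, for helper952) -/

namespace Pool.Agent.H952.QW

open Finset Pool.Agent.H98.BG
open scoped Pointwise

namespace Kill5Aux

variable {G : Type} [AddCommGroup G] [Fintype G] [DecidableEq G]

/-- the killed walk -/
noncomputable def al (N : (G → ℝ) → (G → ℝ)) (a g : G → ℝ) : ℕ → G → ℝ
  | 0 => a
  | j + 1 => fun x => if 1 / 2 ≤ g x then N (al N a g j) x else 0

/-- the killed part -/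
noncomputable def ka (N : (G → ℝ) → (G → ℝ)) (a g : G → ℝ) (j : ℕ) : G → ℝ :=
  fun x => if 1 / 2 ≤ g x then 0 else N (al N a g j) x

theorem al_succ (N : (G → ℝ) → (G → ℝ)) (a g : G → ℝ) (j : ℕ) (x : G) :
    al N a g (j + 1) x = if 1 / 2 ≤ g x then N (al N a g j) x else 0 := rfl

theorem add_eq (N : (G → ℝ) → (G → ℝ)) (a g : G → ℝ) (j : ℕ) (x : G) :
    al N a g (j + 1) x + ka N a g j x = N (al N a g j) x := by
  rw [al_succ]
  unfold ka
  split_ifs
  · rw [add_zero]
  · rw [zero_add]

theorem H_eq (N : (G → ℝ) → (G → ℝ)) (a g : G → ℝ) (j : ℕ) :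
    H (N (al N a g j)) = H (al N a g (j + 1)) + H (ka N a g j) := by
  unfold H
  rw [← Finset.sum_add_distrib]
  refine Finset.sum_congr rfl fun x _ => ?_
  rw [al_succ]
  unfold ka
  split_ifs
  · rw [Real.negMulLog_zero, add_zero]
  · rw [Real.negMulLog_zero, zero_add]

end Kill5Aux

open Kill5Aux

theorem kill5 (esum : ESUM) : KILL5 := by
  intro G _ _ _ N a g R k M L l w u δ hN1 hN2 hN3 hN4 haR hdr hg0 hg1 ha haM hM hk hl hw hL hu hδ hδ8
  classical
  obtain ⟨ha0, ha1⟩ := ha
  have hk' : (0 : ℝ) < k := by exact_mod_cast hk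
  -- F1
  have F1 : ∀ j x, 0 ≤ al N a g j x := by
    intro j
    induction j with
    | zero => exact ha0
    | succ j ih =>
      intro x
      rw [al_succ]
      split_ifs
      · exact hN1 _ ih x
      · exact le_refl _
  have K1 : ∀ j x, 0 ≤ ka N a g j x := by
    intro j x
    unfold ka
    split_ifs
    · exact le_refl _
    · exact hN1 _ (F1 j) x
  -- F2
  have F2 : ∀ j x, al N a g j x ≤ M := by
    intro j
    induction j with
    | zero => exact haM
    | succ j ih =>
      intro x
      rw [al_succ]
      split_ifs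
      · exact hN3 _ M ih x
      · exact hM.le
  -- F3
  have F3 : ∀ j x, al N a g j x ≠ 0 → a x ≠ 0 ∨ 1 / 2 ≤ g x := by
    intro j x hx
    cases j with
    | zero => exact Or.inl hx
    | succ j =>
      rw [al_succ] at hx
      by_cases h : 1 / 2 ≤ g x
      · exact Or.inr h
      · rw [if_neg h] at hx
        exact absurd rfl hx
  -- F4
  have F4 : ∀ j y, N (al N a g j) y ≠ 0 → y ∈ R := fun j => hN4 _ (F3 j)
  have F4a : ∀ j x, al N a g j x ≠ 0 → x ∈ R := by
    intro j x hx
    cases j with
    | zero => exact haR x hx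
    | succ j =>
      rw [al_succ] at hx
      by_cases h : 1 / 2 ≤ g x
      · rw [if_pos h] at hx
        exact F4 j x hx
      · rw [if_neg h] at hx
        exact absurd rfl hx
  have F4k : ∀ j x, ka N a g j x ≠ 0 → x ∈ R := by
    intro j x hx
    unfold ka at hx
    by_cases h : 1 / 2 ≤ g x
    · rw [if_pos h] at hx
      exact absurd rfl hx
    · rw [if_neg h] at hx
      exact F4 j x hx
  -- F5
  have F5 : ∀ j, ∑ x, al N a g (j + 1) x + ∑ x, ka N a g j x = ∑ x, al N a g j x := by
    intro j
    rw [← hN2 (al N a g j), ← Finset.sum_add_distrib]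
    exact Finset.sum_congr rfl fun x _ => add_eq N a g j x
  have F5b : ∀ J, ∑ x, al N a g J x + ∑ j ∈ range J, ∑ x, ka N a g j x = 1 := by
    intro J
    induction J with
    | zero =>
      rw [Finset.range_zero, Finset.sum_empty, add_zero]
      exact ha1
    | succ J ih =>
      rw [Finset.sum_range_succ]
      have := F5 J
      linarith
  have F5c : ∀ J, ∑ x, al N a g J x ≤ 1 := by
    intro J
    have h1 := F5b J
    have h2 : 0 ≤ ∑ j ∈ range J, ∑ x, ka N a g j x :=
      Finset.sum_nonneg fun j _ => Finset.sum_nonneg fun x _ => K1 j x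
    linarith
  -- R is not empty
  have hR : 1 ≤ R.card := by
    rw [Finset.one_le_card]
    by_contra hne
    rw [Finset.not_nonempty_iff_eq_empty] at hne
    have h0 : ∀ x, a x = 0 := by
      intro x
      by_contra hx
      have := haR x hx
      rw [hne] at this
      exact absurd this (Finset.notMem_empty x)
    have : (1 : ℝ) = 0 := by
      rw [← ha1]
      exact Finset.sum_eq_zero fun x _ => h0 x
    norm_num at this
  have hR' : (1 : ℝ) ≤ R.card := by exact_mod_cast hR
  -- F7
  have F7 : ∀ J, J ≤ k → H (al N a g J) + ∑ j ∈ range J, H (ka N a g j) ≤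
      Real.log ((k + 1 : ℝ) * R.card) := by
    intro J hJ
    let ff : ℕ → G → ℝ := fun i => if i < J then ka N a g i else al N a g J
    have e1 : ∀ i ∈ range J, ff i = ka N a g i := fun i hi => if_pos (Finset.mem_range.1 hi)
    have e2 : ff J = al N a g J := if_neg (lt_irrefl J)
    have h := esum G J (fun i : Fin (J + 1) => ff i) R (fun i x => by
        by_cases hi : (i : ℕ) < J
        · have : ff i = ka N a g i := if_pos hi
          simp only [this]
          exact K1 _ x
        · have : ff i = al N a g J := if_neg hi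
          simp only [this]
          exact F1 _ x) (fun i x hx => by
        by_cases hi : (i : ℕ) < J
        · have : ff i = ka N a g i := if_pos hi
          simp only [this] at hx
          exact F4k _ x hx
        · have : ff i = al N a g J := if_neg hi
          simp only [this] at hx
          exact F4a _ x hx) (by
        have h1 : ∑ i : Fin (J + 1), ∑ x, ff i x = ∑ i ∈ range (J + 1), ∑ x, ff i x :=
          (Finset.sum_range (fun i => ∑ x, ff i x)).symm
        rw [h1, Finset.sum_range_succ, e2]
        have h2 : ∑ i ∈ range J, ∑ x, ff i x = ∑ j ∈ range J, ∑ x, ka N a g j x :=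
          Finset.sum_congr rfl fun i hi => by rw [e1 i hi]
        rw [h2]
        have := F5b J
        linarith)
    have h1 : ∑ i : Fin (J + 1), H (ff i) = ∑ i ∈ range (J + 1), H (ff i) :=
      (Finset.sum_range (fun i => H (ff i))).symm
    rw [h1, Finset.sum_range_succ, e2] at h
    have h2 : ∑ i ∈ range J, H (ff i) = ∑ j ∈ range J, H (ka N a g j) :=
      Finset.sum_congr rfl fun i hi => by rw [e1 i hi]
    rw [h2] at h
    have h3 : Real.log ((J + 1 : ℝ) * R.card) ≤ Real.log ((k + 1 : ℝ) * R.card) := by
      apply Real.log_le_log (by positivity)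
      have : (J : ℝ) ≤ k := by exact_mod_cast hJ
      exact mul_le_mul_of_nonneg_right (by linarith) (by positivity)
    linarith
  -- F8
  have hHa : -Real.log M ≤ H a := by
    have h1 : -Real.log M = ∑ x, a x * (-Real.log M) := by
      rw [← Finset.sum_mul, ha1, one_mul]
    rw [h1]
    unfold H
    refine Finset.sum_le_sum fun x _ => ?_
    rcases (ha0 x).eq_or_lt with h | h
    · rw [← h, Real.negMulLog_zero, zero_mul]
    · have h2 := Real.log_le_log h (haM x)
      have h3 : a x * (-Real.log M) ≤ a x * (-Real.log (a x)) :=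
        mul_le_mul_of_nonneg_left (by linarith) h.le
      unfold Real.negMulLog
      linarith
  have F8t : ∀ J, ∑ j ∈ range J, (H (N (al N a g j)) - H (al N a g j)) =
      H (al N a g J) - H a + ∑ j ∈ range J, H (ka N a g j) := by
    intro J
    induction J with
    | zero =>
      rw [Finset.range_zero, Finset.sum_empty, Finset.sum_empty]
      show 0 = H a - H a + 0
      ring
    | succ J ih =>
      rw [Finset.sum_range_succ, Finset.sum_range_succ, ih, H_eq]
      ring
  have F8 : ∀ J, J ≤ k → ∑ j ∈ range J, (H (N (al N a g j)) - H (al N a g j)) ≤ L := by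
    intro J hJ
    rw [F8t]
    have := F7 J hJ
    linarith
  -- F9
  have F9 : ∀ j, l * (∑ x, al N a g (j + 1) x * (1 - g x) - ∑ x, al N a g j x * (1 - g x) +
      (∑ x, ka N a g j x) / 2) ≤ H (N (al N a g j)) - H (al N a g j) + w := by
    intro j
    refine le_trans ?_ (hdr _ (F1 j) (F5c j))
    refine mul_le_mul_of_nonneg_left ?_ hl.le
    have h1 : ∑ x, al N a g j x * g x - ∑ y, N (al N a g j) y * g y =
        ∑ y, N (al N a g j) y * (1 - g y) - ∑ x, al N a g j x * (1 - g x) := by
      have e1 : ∑ y, N (al N a g j) y * (1 - g y) =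
          ∑ y, N (al N a g j) y - ∑ y, N (al N a g j) y * g y := by
        rw [← Finset.sum_sub_distrib]
        exact Finset.sum_congr rfl fun x _ => by ring
      have e2 : ∑ x, al N a g j x * (1 - g x) =
          ∑ x, al N a g j x - ∑ x, al N a g j x * g x := by
        rw [← Finset.sum_sub_distrib]
        exact Finset.sum_congr rfl fun x _ => by ring
      rw [e1, e2, hN2]
      ring
    rw [h1]
    have h2 : ∑ y, N (al N a g j) y * (1 - g y) =
        ∑ y, al N a g (j + 1) y * (1 - g y) + ∑ y, ka N a g j y * (1 - g y) := by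
      rw [← Finset.sum_add_distrib]
      refine Finset.sum_congr rfl fun x _ => ?_
      rw [← add_eq N a g j x]
      ring
    have h3 : (∑ x, ka N a g j x) / 2 ≤ ∑ y, ka N a g j y * (1 - g y) := by
      rw [Finset.sum_div]
      refine Finset.sum_le_sum fun x _ => ?_
      have hk0 := K1 j x
      by_cases h : 1 / 2 ≤ g x
      · have : ka N a g j x = 0 := if_pos h
        rw [this]
        norm_num
      · push Not at h
        have : ka N a g j x * (1 / 2) ≤ ka N a g j x * (1 - g x) :=
          mul_le_mul_of_nonneg_left (by linarith) hk0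
        linarith
    rw [h2]
    linarith
  have F9s : ∀ J, l * (∑ x, al N a g J x * (1 - g x) - ∑ x, a x * (1 - g x) +
      (∑ j ∈ range J, ∑ x, ka N a g j x) / 2) ≤
      ∑ j ∈ range J, (H (N (al N a g j)) - H (al N a g j)) + J * w := by
    intro J
    induction J with
    | zero =>
      rw [Finset.range_zero, Finset.sum_empty, Finset.sum_empty]
      show l * (∑ x, a x * (1 - g x) - ∑ x, a x * (1 - g x) + 0 / 2) ≤ 0 + ((0 : ℕ) : ℝ) * w
      simp
    | succ J ih =>
      rw [Finset.sum_range_succ, Finset.sum_range_succ]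
      have := F9 J
      push_cast
      linarith
  have F10 : ∀ J, J ≤ k → ∑ x, al N a g J x * (1 - g x) + (1 - ∑ x, al N a g J x) / 2 ≤ δ := by
    intro J hJ
    have h1 := F9s J
    have h2 := F8 J hJ
    have h3 := F5b J
    have h4 : (J : ℝ) * w ≤ k * w :=
      mul_le_mul_of_nonneg_right (by exact_mod_cast hJ) hw
    have h5 : ∑ x, al N a g J x * (1 - g x) - ∑ x, a x * (1 - g x) +
        (1 - ∑ x, al N a g J x) / 2 ≤ (L + k * w) / l := by
      rw [le_div_iff₀ hl]
      have h6 : ∑ j ∈ range J, ∑ x, ka N a g j x = 1 - ∑ x, al N a g J x := by linarith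
      rw [h6] at h1
      linarith
    linarith
  -- the choice of the index
  obtain ⟨j, hj, hjL⟩ := Finset.exists_le_of_sum_le (s := range k)
    (f := fun j => H (N (al N a g j)) - H (al N a g j)) (g := fun _ => L / k)
    ⟨0, Finset.mem_range.2 hk⟩ (by
      rw [Finset.sum_const, Finset.card_range, nsmul_eq_mul, mul_div_cancel₀ _ hk'.ne']
      exact F8 k le_rfl)
  have hjk : j ≤ k := (Finset.mem_range.1 hj).le
  exact ⟨al N a g j, F1 j, F2 j, F3 j, F5c j, F10 j hjk, hjL⟩

end Pool.Agent.H952.QW
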