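import Pool.Agent.H952.QW.Stm

/-!
# QW1: exponential moments of the empirical frequency (helper80; after helper98's `MOM.lean`)
-/

set_option autoImplicit false

namespace Pool.Agent.H952.QW

open Finset Pool.Agent.H98.BG
open scoped Pointwise

namespace MGFL

variable {G : Type} [AddCommGroup G] [Fintype G] [DecidableEq G]

lemma exp_le_quad {s : ℝ} (h0 : 0 ≤ s) (h1 : s ≤ 1) : Real.exp s ≤ 1 + s + s ^ 2 := by
  have h := Real.abs_exp_sub_one_sub_id_le (x := s) (by rw [abs_of_nonneg h0]; exact h1)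
  have := (abs_le.mp h).2
  linarith

omit [AddCommGroup G] [DecidableEq G] in
lemma Ex_const_mul {m : ℕ} (σ : G → ℝ) (φ : (Fin m → G) → ℝ) (c : ℝ) :
    Ex σ (fun s => c * φ s) = c * Ex σ φ := by
  unfold Ex
  rw [Finset.mul_sum]
  apply Finset.sum_congr rfl
  intro s _
  ring

omit [AddCommGroup G] [DecidableEq G] in
lemma Ex_prod {m : ℕ} (σ g : G → ℝ) :
    Ex σ (fun s : Fin m → G => ∏ i, g (s i)) = (∑ y, σ y * g y) ^ m := by
  unfold Ex
  rw [Fintype.sum_pow]
  apply Finset.sum_congr rfl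
  intro s _
  rw [Finset.prod_mul_distrib]

lemma weight_sum (σ : G → ℝ) (B : Finset G) (x : G) (a : ℝ) (hσ : IsP σ) :
    ∑ y, σ y * Real.exp (a * (if x + y ∈ B then (1 : ℝ) else 0)) =
      1 + pr σ B x * (Real.exp a - 1) := by
  have h : ∀ y, σ y * Real.exp (a * (if x + y ∈ B then (1 : ℝ) else 0)) =
      σ y + (if x + y ∈ B then σ y else 0) * (Real.exp a - 1) := by
    intro y
    split_ifs
    · rw [mul_one]; ring
    · simp
  rw [Finset.sum_congr rfl (fun y _ => h y), Finset.sum_add_distrib, hσ.2, ← Finset.sum_mul]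
  rfl

end MGFL

open MGFL in
/-- exponential moments of the empirical frequency -/
theorem mgf : MGF := by
  intro G _ _ _ m σ B x l hσ hm hl0 hlm
  have hmR : (0 : ℝ) < m := by exact_mod_cast hm
  set g : ℝ := pr σ B x with hg
  set θ : ℝ := l / m with hθ
  have hθ0 : 0 ≤ θ := div_nonneg hl0 hmR.le
  have hθ1 : θ ≤ 1 := (div_le_one hmR).2 hlm
  have hg0 : 0 ≤ g := by
    rw [hg]
    unfold pr
    apply Finset.sum_nonneg
    intro y _
    split_ifs
    · exact hσ.1 y
    · exact le_rfl
  have hg1 : g ≤ 1 := by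
    rw [hg, ← hσ.2]
    unfold pr
    apply Finset.sum_le_sum
    intro y _
    split_ifs
    · exact le_rfl
    · exact hσ.1 y
  have e1 : (fun s : Fin m → G => Real.exp (l * (em B s x - g))) =
      fun s : Fin m → G => Real.exp (-(l * g)) *
        ∏ i, (fun y => Real.exp (θ * (if x + y ∈ B then (1 : ℝ) else 0))) (s i) := by
    funext s
    simp only
    rw [← Real.exp_sum, ← Finset.mul_sum, ← Real.exp_add]
    congr 1
    unfold Pool.Agent.H98.BG.em
    rw [hθ]
    field_simp
    ring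
  rw [e1, Ex_const_mul, Ex_prod σ (fun y => Real.exp (θ * (if x + y ∈ B then (1 : ℝ) else 0))),
    weight_sum σ B x θ hσ, ← hg]
  have h1 : (1 + g * (Real.exp θ - 1)) ^ m ≤ Real.exp (m * (g * θ + θ ^ 2)) := by
    rw [Real.exp_nat_mul]
    have he : 0 ≤ Real.exp θ - 1 := by
      have := Real.add_one_le_exp θ
      linarith
    apply pow_le_pow_left₀
    · have := mul_nonneg hg0 he
      linarith
    · have h3 := Real.add_one_le_exp (g * θ + θ ^ 2)
      have h5 := exp_le_quad hθ0 hθ1
      have h4 : g * (Real.exp θ - 1) ≤ g * (θ + θ ^ 2) :=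
        mul_le_mul_of_nonneg_left (by linarith) hg0
      have h6 : g * θ ^ 2 ≤ 1 * θ ^ 2 := mul_le_mul_of_nonneg_right hg1 (by positivity)
      nlinarith
  have h2 : (m : ℝ) * (g * θ + θ ^ 2) = l * g + l ^ 2 / m := by
    rw [hθ]
    field_simp
  rw [h2] at h1
  calc Real.exp (-(l * g)) * (1 + g * (Real.exp θ - 1)) ^ m
      ≤ Real.exp (-(l * g)) * Real.exp (l * g + l ^ 2 / m) :=
        mul_le_mul_of_nonneg_left h1 (Real.exp_pos _).le
    _ = Real.exp (l ^ 2 / m) := by
        rw [← Real.exp_add]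
        congr 1
        ring

end Pool.Agent.H952.QW
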