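import Pool.Agent.H952.QW.Stm

/-!
# QW-NENT: the entropy of the mixture
-/

set_option autoImplicit false
set_option linter.unusedSectionVars false

namespace Pool.Agent.H952.QW

open Finset Pool.Agent.H98.BG
open scoped Pointwise

namespace NentL

variable {G : Type} [AddCommGroup G] [Fintype G] [DecidableEq G]

lemma sum_prod_one {m : ℕ} (σ : G → ℝ) (hσ : ∑ x, σ x = 1) :
    ∑ s : Fin m → G, ∏ i, σ (s i) = 1 := by
  rw [← Fintype.sum_pow, hσ, one_pow]

lemma sum_translate {m : ℕ} (t : G) (F : (Fin m → G) → ℝ) :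
    ∑ z : Fin m → G, F z = ∑ s : Fin m → G, F (fun i => s i + t) := by
  have := Equiv.sum_comp (Equiv.addRight (fun _ : Fin m => t)) F
  rw [← this]
  rfl

lemma wt_nonneg {m : ℕ} {σ τ : G → ℝ} (hσ : IsP σ) (hτ : IsP τ) (z : Fin m → G) (t : G) :
    0 ≤ Wt σ τ z t :=
  mul_nonneg (hτ.1 t) (Finset.prod_nonneg (fun _ _ => hσ.1 _))

lemma pz_nonneg {m : ℕ} {σ τ : G → ℝ} (hσ : IsP σ) (hτ : IsP τ) (z : Fin m → G) :
    0 ≤ Pz σ τ z :=
  Finset.sum_nonneg (fun t _ => wt_nonneg hσ hτ z t)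

lemma post_nonneg {m : ℕ} {σ τ : G → ℝ} (hσ : IsP σ) (hτ : IsP τ) (z : Fin m → G) (t : G) :
    0 ≤ post σ τ z t :=
  div_nonneg (wt_nonneg hσ hτ z t) (pz_nonneg hσ hτ z)

lemma sum_wt_one {m : ℕ} {σ τ : G → ℝ} (hσ : IsP σ) (hτ : IsP τ) :
    ∑ z : Fin m → G, ∑ t, Wt σ τ z t = 1 := by
  rw [Finset.sum_comm]
  have h : ∀ t : G, ∑ z : Fin m → G, Wt σ τ z t = τ t := by
    intro t
    rw [sum_translate t]
    have h1 : ∀ s : Fin m → G, Wt σ τ (fun i => s i + t) t = τ t * ∏ i, σ (s i) := by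
      intro s
      unfold Wt
      simp
    simp only [h1]
    rw [← Finset.mul_sum, sum_prod_one σ hσ.2, mul_one]
  simp only [h]
  exact hτ.2

/-- the law `Nst` is a mixture of translates of the laws `cv σ' (post z)` -/
lemma nst_eq {m : ℕ} (σ τ α : G → ℝ) (y : G) :
    Nst m σ τ α y = ∑ z : Fin m → G, ∑ t, Wt σ τ z t * cv α (post σ τ z) (y + t) := by
  unfold Nst cv
  refine Finset.sum_congr rfl fun z _ => Finset.sum_congr rfl fun t _ => ?_
  rw [Finset.mul_sum]
  refine Finset.sum_congr rfl fun t' _ => ?_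
  ring

end NentL

open NentL in
theorem nent : NENT := by
  intro G _ _ _ m σ τ σ' hσ hτ hσ'
  -- invariance under translation
  have hinv : ∀ (z : Fin m → G) (t : G),
      ∑ y, Real.negMulLog (cv σ' (post σ τ z) (y + t)) = H (cv σ' (post σ τ z)) := by
    intro z t
    exact Equiv.sum_comp (Equiv.addRight t) (fun y => Real.negMulLog (cv σ' (post σ τ z) y))
  -- concavity
  have hcon : ∀ y : G, ∑ z : Fin m → G, ∑ t, Wt σ τ z t *
      Real.negMulLog (cv σ' (post σ τ z) (y + t)) ≤ Real.negMulLog (Nst m σ τ σ' y) := by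
    intro y
    rw [nst_eq]
    have h := Real.concaveOn_negMulLog.le_map_sum (t := (univ : Finset ((Fin m → G) × G)))
      (w := fun i => Wt σ τ i.1 i.2) (p := fun i => cv σ' (post σ τ i.1) (y + i.2))
      (fun i _ => wt_nonneg hσ hτ i.1 i.2)
      (by rw [← univ_product_univ, Finset.sum_product]; exact sum_wt_one hσ hτ)
      (fun i _ => Finset.sum_nonneg fun t' _ => mul_nonneg (hσ'.1 _) (post_nonneg hσ hτ _ _))
    rw [← univ_product_univ, Finset.sum_product, Finset.sum_product] at h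
    simpa only [smul_eq_mul] using h
  calc ∑ z : Fin m → G, Pz σ τ z * H (cv σ' (post σ τ z))
      = ∑ z : Fin m → G, ∑ t, Wt σ τ z t * ∑ y, Real.negMulLog (cv σ' (post σ τ z) (y + t)) := by
        refine Finset.sum_congr rfl fun z _ => ?_
        unfold Pz
        rw [Finset.sum_mul]
        refine Finset.sum_congr rfl fun t _ => ?_
        rw [hinv]
    _ = ∑ z : Fin m → G, ∑ y, ∑ t, Wt σ τ z t * Real.negMulLog (cv σ' (post σ τ z) (y + t)) := by
        simp only [Finset.mul_sum]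
        exact Finset.sum_congr rfl fun z _ => Finset.sum_comm
    _ = ∑ y, ∑ z : Fin m → G, ∑ t, Wt σ τ z t * Real.negMulLog (cv σ' (post σ τ z) (y + t)) :=
        Finset.sum_comm
    _ ≤ ∑ y, Real.negMulLog (Nst m σ τ σ' y) := Finset.sum_le_sum fun y _ => hcon y
    _ = H (Nst m σ τ σ') := rfl

end Pool.Agent.H952.QW
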