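import Pool.Agent.H952.QW.Stm

/-!
# Elementary properties of the walk operator `Nst` (NST)
-/

set_option autoImplicit false
set_option linter.unusedSectionVars false

namespace Pool.Agent.H952.QW

open Finset Pool.Agent.H98.BG
open scoped Pointwise

section NstP

variable {G : Type} [AddCommGroup G] [Fintype G] [DecidableEq G]

theorem nst_Wt_nonneg {m : ℕ} {σ τ : G → ℝ} (hσ : IsP σ) (hτ : IsP τ) (z : Fin m → G) (t : G) :
    0 ≤ Wt σ τ z t :=
  mul_nonneg (hτ.1 t) (Finset.prod_nonneg fun _ _ => hσ.1 _)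

theorem nst_Pz_nonneg {m : ℕ} {σ τ : G → ℝ} (hσ : IsP σ) (hτ : IsP τ) (z : Fin m → G) :
    0 ≤ Pz σ τ z :=
  Finset.sum_nonneg fun t _ => nst_Wt_nonneg hσ hτ z t

theorem nst_post_nonneg {m : ℕ} {σ τ : G → ℝ} (hσ : IsP σ) (hτ : IsP τ) (z : Fin m → G) (t : G) :
    0 ≤ post σ τ z t :=
  div_nonneg (nst_Wt_nonneg hσ hτ z t) (nst_Pz_nonneg hσ hτ z)

theorem nst_sum_post {m : ℕ} {σ τ : G → ℝ} (hσ : IsP σ) (hτ : IsP τ) (z : Fin m → G) (t : G) :
    ∑ t', Wt σ τ z t * post σ τ z t' = Wt σ τ z t := by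
  by_cases h0 : Pz σ τ z = 0
  · have h1 : Wt σ τ z t = 0 :=
      (Finset.sum_eq_zero_iff_of_nonneg fun t _ => nst_Wt_nonneg hσ hτ z t).1 h0 t
        (Finset.mem_univ t)
    simp [h1]
  · rw [← Finset.mul_sum]
    have h1 : ∑ t', post σ τ z t' = 1 := by
      unfold post
      rw [← Finset.sum_div]
      exact div_self h0
    rw [h1, mul_one]

theorem nst_sum_Wt {m : ℕ} {σ τ : G → ℝ} (hσ : IsP σ) (hτ : IsP τ) :
    ∑ z : Fin m → G, ∑ t, Wt σ τ z t = 1 := by
  rw [Finset.sum_comm]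
  have h1 : ∀ t : G, ∑ z : Fin m → G, Wt σ τ z t = τ t := by
    intro t
    unfold Wt
    rw [← Finset.mul_sum]
    have h2 : ∑ z : Fin m → G, ∏ i, σ (z i - t) = ∏ _i : Fin m, ∑ y, σ (y - t) := by
      rw [Finset.prod_univ_sum, Fintype.piFinset_univ]
    have h3 : ∑ y, σ (y - t) = 1 := by
      rw [← hσ.2]
      exact Equiv.sum_comp (Equiv.subRight t) σ
    rw [h2, h3, Finset.prod_const_one, mul_one]
  rw [Finset.sum_congr rfl fun t _ => h1 t]
  exact hτ.2

theorem nst_total {m : ℕ} {σ τ : G → ℝ} (hσ : IsP σ) (hτ : IsP τ) :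
    ∑ z : Fin m → G, ∑ t, ∑ t', Wt σ τ z t * post σ τ z t' = 1 := by
  rw [← nst_sum_Wt (m := m) hσ hτ]
  exact Finset.sum_congr rfl fun z _ => Finset.sum_congr rfl fun t _ => nst_sum_post hσ hτ z t

end NstP

theorem nst : NST := by
  intro G _ _ _ m σ τ hσ hτ
  refine ⟨?_, ?_, ?_, ?_, ?_⟩
  · intro α hα y
    exact Finset.sum_nonneg fun z _ => Finset.sum_nonneg fun t _ => Finset.sum_nonneg fun t' _ =>
      mul_nonneg (mul_nonneg (nst_Wt_nonneg hσ hτ z t) (nst_post_nonneg hσ hτ z t')) (hα _)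
  · intro α
    have h1 : ∀ t t' : G, ∑ y, α (y + t - t') = ∑ x, α x := by
      intro t t'
      have h2 : ∀ y : G, α (y + t - t') = α (y + (t - t')) := fun y => by rw [add_sub_assoc]
      rw [Finset.sum_congr rfl fun y _ => h2 y]
      exact Equiv.sum_comp (Equiv.addRight (t - t')) α
    calc ∑ y, Nst m σ τ α y
        = ∑ z : Fin m → G, ∑ t, ∑ t', ∑ y, Wt σ τ z t * post σ τ z t' * α (y + t - t') := by
          unfold Nst
          rw [Finset.sum_comm]
          refine Finset.sum_congr rfl fun z _ => ?_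
          rw [Finset.sum_comm]
          refine Finset.sum_congr rfl fun t _ => ?_
          rw [Finset.sum_comm]
      _ = ∑ z : Fin m → G, ∑ t, ∑ t', Wt σ τ z t * post σ τ z t' * ∑ x, α x := by
          refine Finset.sum_congr rfl fun z _ => Finset.sum_congr rfl fun t _ =>
            Finset.sum_congr rfl fun t' _ => ?_
          rw [← Finset.mul_sum, h1]
      _ = (∑ z : Fin m → G, ∑ t, ∑ t', Wt σ τ z t * post σ τ z t') * ∑ x, α x := by
          rw [Finset.sum_mul]
          refine Finset.sum_congr rfl fun z _ => ?_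
          rw [Finset.sum_mul]
          refine Finset.sum_congr rfl fun t _ => ?_
          rw [Finset.sum_mul]
      _ = ∑ x, α x := by rw [nst_total hσ hτ, one_mul]
  · intro α M hM y
    calc Nst m σ τ α y
        ≤ ∑ z : Fin m → G, ∑ t, ∑ t', Wt σ τ z t * post σ τ z t' * M := by
          unfold Nst
          exact Finset.sum_le_sum fun z _ => Finset.sum_le_sum fun t _ =>
            Finset.sum_le_sum fun t' _ => mul_le_mul_of_nonneg_left (hM _)
              (mul_nonneg (nst_Wt_nonneg hσ hτ z t) (nst_post_nonneg hσ hτ z t'))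
      _ = (∑ z : Fin m → G, ∑ t, ∑ t', Wt σ τ z t * post σ τ z t') * M := by
          rw [Finset.sum_mul]
          refine Finset.sum_congr rfl fun z _ => ?_
          rw [Finset.sum_mul]
          refine Finset.sum_congr rfl fun t _ => ?_
          rw [Finset.sum_mul]
      _ = M := by rw [nst_total hσ hτ, one_mul]
  · intro α y hy
    obtain ⟨z, -, hz⟩ := Finset.exists_ne_zero_of_sum_ne_zero hy
    obtain ⟨t, -, ht⟩ := Finset.exists_ne_zero_of_sum_ne_zero hz
    obtain ⟨t', -, ht'⟩ := Finset.exists_ne_zero_of_sum_ne_zero ht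
    have h1 : α (y + t - t') ≠ 0 := right_ne_zero_of_mul ht'
    have h2 : Wt σ τ z t ≠ 0 := left_ne_zero_of_mul (left_ne_zero_of_mul ht')
    have h3 : post σ τ z t' ≠ 0 := right_ne_zero_of_mul (left_ne_zero_of_mul ht')
    have h4 : Wt σ τ z t' ≠ 0 := by
      intro h0
      apply h3
      unfold post
      rw [h0, zero_div]
    exact ⟨y + t - t', t, t', h1, left_ne_zero_of_mul h2, left_ne_zero_of_mul h4, by abel⟩
  · intro α c y
    unfold Nst
    rw [Finset.mul_sum]
    refine Finset.sum_congr rfl fun z _ => ?_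
    rw [Finset.mul_sum]
    refine Finset.sum_congr rfl fun t _ => ?_
    rw [Finset.mul_sum]
    refine Finset.sum_congr rfl fun t' _ => ?_
    ring

end Pool.Agent.H952.QW
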