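import Pool.Agent.H952.QW.Stm5

/-!
# One level, uniform version (`STEP5`)
-/

set_option autoImplicit false

namespace Pool.Agent.H952.QW

open Finset Pool.Agent.H98.BG
open scoped Pointwise

namespace Step5L

/-- choice of an outcome -/
lemma select {α : Type} [Fintype α] (P F1 F2 : α → ℝ) (hP : IsP P) {a0 c' θ : ℝ} (ha : 0 ≤ a0)
    (hc : 0 < c') (hθ : 0 < θ) (hθ1 : θ ≤ 1) (h1 : ∑ z, P z * F1 z ≤ a0)
    (h2 : ∑ z, P z * F2 z ≤ θ / 3 * c')
    (n1 : ∀ z, 0 < P z → 0 ≤ F1 z) (n2 : ∀ z, 0 < P z → 0 ≤ F2 z) :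
    ∃ z, 0 < P z ∧ F1 z ≤ (1 + θ) * a0 + 1 ∧ F2 z ≤ c' := by
  by_contra hcon
  push Not at hcon
  have hb : 0 < (1 + θ) * a0 + 1 := by
    have : 0 ≤ (1 + θ) * a0 := mul_nonneg (by linarith) ha
    linarith
  have key : ∀ z, P z * 1 ≤ P z * (F1 z / ((1 + θ) * a0 + 1) + F2 z / c') := by
    intro z
    rcases (hP.1 z).eq_or_lt with h0 | hpos
    · rw [← h0]; simp
    · apply mul_le_mul_of_nonneg_left _ hpos.le
      have g1 := n1 z hpos
      have g2 := n2 z hpos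
      by_cases hF : F1 z ≤ (1 + θ) * a0 + 1
      · have := hcon z hpos hF
        have e1 : 1 ≤ F2 z / c' := by
          rw [le_div_iff₀ hc]; linarith
        have e2 : 0 ≤ F1 z / ((1 + θ) * a0 + 1) := div_nonneg g1 hb.le
        linarith
      · have e1 : 1 ≤ F1 z / ((1 + θ) * a0 + 1) := by
          rw [le_div_iff₀ hb]; linarith
        have e2 : 0 ≤ F2 z / c' := div_nonneg g2 hc.le
        linarith
  have hs := Finset.sum_le_sum fun z (_ : z ∈ Finset.univ) => key z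
  rw [← Finset.sum_mul, hP.2] at hs
  have e : ∑ z, P z * (F1 z / ((1 + θ) * a0 + 1) + F2 z / c') =
      (∑ z, P z * F1 z) / ((1 + θ) * a0 + 1) + (∑ z, P z * F2 z) / c' := by
    rw [Finset.sum_div, Finset.sum_div, ← Finset.sum_add_distrib]
    refine Finset.sum_congr rfl fun z _ => by ring
  rw [e] at hs
  have e1 : (∑ z, P z * F1 z) / ((1 + θ) * a0 + 1) < 1 - θ / 3 := by
    rw [div_lt_iff₀ hb]
    refine lt_of_le_of_lt h1 ?_
    have h3 : 0 ≤ θ * (2 - θ) * a0 := mul_nonneg (mul_nonneg hθ.le (by linarith)) ha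
    nlinarith
  have e2 : (∑ z, P z * F2 z) / c' ≤ θ / 3 := by
    rw [div_le_iff₀ hc]; linarith
  linarith

variable {G : Type} [AddCommGroup G] [Fintype G] [DecidableEq G]

lemma pr_nonneg {σ : G → ℝ} (hσ : IsP σ) (B : Finset G) (x : G) : 0 ≤ pr σ B x :=
  Finset.sum_nonneg fun s _ => by split_ifs <;> [exact hσ.1 s; exact le_rfl]

lemma pr_le_one {σ : G → ℝ} (hσ : IsP σ) (B : Finset G) (x : G) : pr σ B x ≤ 1 := by
  rw [← hσ.2]
  refine Finset.sum_le_sum fun s _ => ?_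
  split_ifs
  · exact le_rfl
  · exact hσ.1 s

omit [AddCommGroup G] [DecidableEq G] in
/-- the entropy of a multiple -/
lemma H_smul (c : ℝ) (β : G → ℝ) :
    H (fun x => c * β x) = c * H β + Real.negMulLog c * ∑ x, β x := by
  unfold H
  rw [Finset.mul_sum, Finset.mul_sum, ← Finset.sum_add_distrib]
  refine Finset.sum_congr rfl fun x _ => ?_
  rw [Real.negMulLog_mul]
  ring

end Step5L

open Step5L

theorem step5 (t1 : T1) (bas : BAS) (nst : NST) (nent : NENT) (drift : DRIFT) (kill : KILL5) :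
    STEP5 := by
  intro G _ _ _ a σ τ Z R Q m k c u l δ θ M L Lq ha hσ hτ hQ hLq hR haR haM hM hc hu hm hk hl hlm hL
    hlog hδ hδ8 hθ hθ1
  obtain ⟨b1, b2, b3, b4, b5, b6, b7⟩ := bas G
  obtain ⟨n1, n2, n3, n4, n5⟩ := nst G m σ τ hσ hτ
  have hm' : (0 : ℝ) < m := by exact_mod_cast hm
  have hk' : (0 : ℝ) < k := by exact_mod_cast hk
  have hw : 0 ≤ l ^ 2 / m := by positivity
  have hδ' : u + (L + k * (l ^ 2 / m)) / l ≤ δ := by
    have : (L + k * (l ^ 2 / m)) / l = L / l + k * l / m := by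
      field_simp
    rw [this]
    exact hδ
  obtain ⟨α, h0, hαM, hαs, hα1, hαδ, hαH⟩ := kill G (Nst m σ τ) a (pr σ Z) R k M L l
    (l ^ 2 / m) u δ n1 n2 n3
    (by
      intro α hα y hy
      obtain ⟨x, t, t', hx, ht, ht', rfl⟩ := n4 α y hy
      exact hR x (hα x hx) t (hQ t ht) t' (hQ t' ht'))
    haR
    (by
      intro α hα0 hα1
      exact drift G m σ τ α Z l hσ hτ hα0 hα1 hm hl.le hlm)
    (pr_nonneg hσ Z) (pr_le_one hσ Z) ha haM hM hk hl hw hlog hu hδ' hδ8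
  obtain ⟨s, hs⟩ : ∃ s, s = ∑ x, α x := ⟨_, rfl⟩
  rw [← hs] at hαδ hα1
  have hδ0 : 0 ≤ ∑ x, α x * (1 - pr σ Z x) :=
    Finset.sum_nonneg fun x _ => mul_nonneg (h0 x) (by linarith [pr_le_one hσ Z x])
  have hα34 : 3 / 4 ≤ s := by linarith
  have hs0 : 0 < s := by linarith
  obtain ⟨r, hr⟩ : ∃ r, r = s⁻¹ := ⟨_, rfl⟩
  have hr0 : 0 < r := by
    rw [hr]
    exact inv_pos.2 hs0
  have hrs : r * s = 1 := by
    rw [hr]
    exact inv_mul_cancel₀ hs0.ne'
  have hr43 : r ≤ 4 / 3 := by nlinarith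
  obtain ⟨σ', hσ'd⟩ : ∃ σ' : G → ℝ, σ' = fun x => r * α x := ⟨_, rfl⟩
  have hσ' : IsP σ' := by
    rw [hσ'd]
    refine ⟨fun x => mul_nonneg hr0.le (h0 x), ?_⟩
    rw [← Finset.mul_sum, ← hs]
    exact hrs
  have hNσ' : Nst m σ τ σ' = fun y => r * Nst m σ τ α y := by
    rw [hσ'd]
    funext y
    exact n5 α r y
  have hHd : H (Nst m σ τ σ') - H σ' = r * (H (Nst m σ τ α) - H α) := by
    rw [hNσ', hσ'd, H_smul, H_smul, n2 α]
    ring
  have hLk : 0 < L / k := div_pos hL hk'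
  have hH2 : H (Nst m σ τ σ') - H σ' ≤ 4 / 3 * (L / k) := by
    rw [hHd]
    calc r * (H (Nst m σ τ α) - H α) ≤ r * (L / k) := mul_le_mul_of_nonneg_left hαH hr0.le
      _ ≤ 4 / 3 * (L / k) := mul_le_mul_of_nonneg_right hr43 hLk.le
  have hcost : ∑ z : Fin m → G, Pz σ τ z * (H (cv σ' (post σ τ z)) - H σ') ≤
      θ / 3 * (4 * L / (k * θ)) := by
    have e0 : ∑ z : Fin m → G, Pz σ τ z * (H (cv σ' (post σ τ z)) - H σ') =
        ∑ z : Fin m → G, Pz σ τ z * H (cv σ' (post σ τ z)) - H σ' := by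
      simp only [mul_sub, Finset.sum_sub_distrib]
      rw [← Finset.sum_mul, (b4 m σ τ hσ hτ).2, one_mul]
    rw [e0]
    have h1 := nent G m σ τ σ' hσ hτ hσ'
    have h2 : θ / 3 * (4 * L / (k * θ)) = 4 / 3 * (L / k) := by
      field_simp
    rw [h2]
    linarith
  have hcvcm : ∀ ρ ν : G → ℝ, IsP ρ → IsP ν → H ρ ≤ H (cv ρ ν) := by
    intro ρ ν hρ hν
    have h1 := b2 ρ (fun t => ν (-t)) hρ (b7 ρ ν hν).1
    have h2 : cm ρ (fun t => ν (-t)) = cv ρ ν := by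
      have := (b7 ρ (fun t => ν (-t)) (b7 ρ ν hν).1).2.2
      simp only [neg_neg] at this
      exact this.symm
    rwa [h2] at h1
  have hpost := t1 G m σ τ c Lq hσ hτ hc
  have hHτ : H τ ≤ Lq := (b1 τ Q hτ hQ).trans hLq
  have hc0 : 0 ≤ c := by
    have h1 := hcvcm σ τ hσ hτ
    linarith
  obtain ⟨z, hz, hz1, hz2⟩ := select (Pz σ τ : (Fin m → G) → ℝ)
    (fun z => Lq - H (post σ τ z)) (fun z => H (cv σ' (post σ τ z)) - H σ') (b4 m σ τ hσ hτ)
    (a0 := (Lq - H τ) + m * c) (c' := 4 * L / (k * θ))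
    (by have := mul_nonneg hm'.le hc0; linarith) (by positivity) hθ hθ1 hpost hcost
    (fun z hz => by
      have := b1 (post σ τ z) Q (b5 m σ τ z hσ hτ hz) (fun t ht => hQ t (b6 m σ τ z t ht))
      linarith)
    (fun z hz => by
      have := hcvcm σ' (post σ τ z) hσ' (b5 m σ τ z hσ hτ hz)
      linarith)
  refine ⟨σ', post σ τ z, hσ', b5 m σ τ z hσ hτ hz, ?_, ?_, fun t ht => b6 m σ τ z t ht, ?_, hz1,
    hz2⟩
  · intro x hx
    rw [hσ'd] at hx
    exact hαs x (right_ne_zero_of_mul hx)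
  · intro x
    rw [hσ'd]
    calc r * α x ≤ r * M := mul_le_mul_of_nonneg_left (hαM x) hr0.le
      _ ≤ 2 * M := mul_le_mul_of_nonneg_right (by linarith) hM.le
  · have e : ∑ x, σ' x * (1 - pr σ Z x) = r * ∑ x, α x * (1 - pr σ Z x) := by
      rw [hσ'd, Finset.mul_sum]
      exact Finset.sum_congr rfl fun x _ => by ring
    rw [e]
    have h5 : ∑ x, α x * (1 - pr σ Z x) ≤ δ * s := by
      have h6 : 0 ≤ (1 - s) * (1 / 2 - δ) := mul_nonneg (by linarith) (by linarith)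
      nlinarith
    calc r * ∑ x, α x * (1 - pr σ Z x) ≤ r * (δ * s) := mul_le_mul_of_nonneg_left h5 hr0.le
      _ = δ * (r * s) := by ring
      _ = δ := by rw [hrs, mul_one]

end Pool.Agent.H952.QW
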