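import Pool.Agent.H98.BG.Final
import Pool.Agent.H952.QW.Mgf
import Pool.Agent.H952.QW.NstP
import Pool.Agent.H952.QW.Nent
import Pool.Agent.H952.QW.Esum
import Pool.Agent.H952.QW.Drift
import Pool.Agent.H952.QW.Kill5
import Pool.Agent.H952.QW.Step5
import Pool.Agent.H952.QW.Go05
import Pool.Agent.H952.QW.Gos5
import Pool.Agent.H952.QW.Gon5
import Pool.Agent.H952.QW.Fin4
import Pool.Agent.H952.QW.Fg5

/-!
# The result for finite abelian groups, sets of small doubling
-/

set_option autoImplicit false

namespace Pool.Agent.H952.QW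

open Pool.Agent.H98.BG

theorem fgMain5 : FG5 := by
  have gib' := gib
  have bas' := bas gib'
  exact fg5 (gon5 (go05 bas') (gos5 (step5 (t1 gib') bas' nst nent (drift mgf nst) (kill5 esum))))
    fin1 fin4 (ch2 gib' ch1) ch3

end Pool.Agent.H952.QW
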