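import Pool.Agent.H98.BG.Stmt3

/-!
# `2A - 2A`: exponent `2 + 1/n` (statements)

The definitions `IsP`, `H`, `cv`, `cm`, `pr`, `em`, `Ex`, `Wt`, `Pz`, `post` are in
`Pool/Agent/H98/BG/Defs.lean` (by helper98).

THE WALK. `S_1, …, S_m` have the law `σ`, `T` the law `τ`, all independent, `z = (S_i + T)_i`; `T'` is
a fresh copy of `T` given `z` (law `post σ τ z`); the point `x` moves to `y = x - T + T'`, and
`S'_i = z_i - T'`. Then `(S, T)` and `(S', T')` have the same law, `y + S'_i = x + S_i`.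
`Nst m σ τ α` is the law of `y` when `x` has the law `α` (not necessarily of mass `1`).
-/

set_option autoImplicit false

namespace Pool.Agent.H952.QW

open Finset Pool.Agent.H98.BG
open scoped Pointwise

/-- the law of `x - T + T'` when `x` has the law `α` -/
noncomputable def Nst {G : Type} [AddCommGroup G] [Fintype G] [DecidableEq G] (m : ℕ) (σ τ : G → ℝ)
    (α : G → ℝ) (y : G) : ℝ :=
  ∑ z : Fin m → G, ∑ t, ∑ t', Wt σ τ z t * post σ τ z t' * α (y + t - t')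

/-- QW-MGF: exponential moments of the empirical frequency.
PROOF. Put `g = pr σ B x`, `θ = l / m ∈ [0, 1]`. `exp (l * em B s x) = ∏ i, (if x + s i ∈ B then exp θ else 1)`,
so by `Finset.prod_univ_sum` / `Fintype.piFinset_univ` the mean over `s` is `(1 - g + g exp θ) ^ m`.
`exp θ - 1 ≤ θ + θ ^ 2` for `0 ≤ θ ≤ 1`, so `1 + g (exp θ - 1) ≤ exp (g (exp θ - 1)) ≤ exp (g θ + θ ^ 2)`
(`g ≤ 1`). The `m`-th power is `exp (l g + l ^ 2 / m)`. Compare `Pool/Agent/H98/BG/MOM.lean`. -/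
def MGF : Prop := ∀ (G : Type) [AddCommGroup G] [Fintype G] [DecidableEq G] (m : ℕ) (σ : G → ℝ)
  (B : Finset G) (x : G) (l : ℝ), IsP σ → 0 < m → 0 ≤ l → l ≤ m →
  Ex σ (fun s : Fin m → G => Real.exp (l * (em B s x - pr σ B x))) ≤ Real.exp (l ^ 2 / m)

/-- QW-NST: elementary properties of `Nst`. The weights `Wt σ τ z t * post σ τ z t'` are nonnegative and their
sum over `z, t, t'` is `1` (if `Pz σ τ z = 0` then all `Wt σ τ z t = 0`). -/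
def NST : Prop := ∀ (G : Type) [AddCommGroup G] [Fintype G] [DecidableEq G] (m : ℕ) (σ τ : G → ℝ),
  IsP σ → IsP τ →
  (∀ (α : G → ℝ), (∀ x, 0 ≤ α x) → ∀ y, 0 ≤ Nst m σ τ α y) ∧
  (∀ (α : G → ℝ), ∑ y, Nst m σ τ α y = ∑ x, α x) ∧
  (∀ (α : G → ℝ) (M : ℝ), (∀ x, α x ≤ M) → ∀ y, Nst m σ τ α y ≤ M) ∧
  (∀ (α : G → ℝ) (y : G), Nst m σ τ α y ≠ 0 →
    ∃ x t t', α x ≠ 0 ∧ τ t ≠ 0 ∧ τ t' ≠ 0 ∧ y = x - t + t') ∧
  (∀ (α : G → ℝ) (c : ℝ) (y : G), Nst m σ τ (fun x => c * α x) y = c * Nst m σ τ α y)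

/-- QW-NENT: the entropy of the mixture.
PROOF. `Nst m σ τ σ' y = ∑ z, Pz z * ∑ t, post z t * (cv σ' (post z)) (y + t)` (if `Pz z = 0` then `Wt z t = 0` for
all `t`), where the weights `Pz z * post z t` are nonnegative with sum `1`. Since `Real.negMulLog` is concave on
`[0, ∞)` (`Real.concaveOn_negMulLog`, `ConcaveOn.le_map_sum`), `H (Nst ..) ≥ ∑ z, Pz z * ∑ t, post z t *
H (fun y => cv σ' (post z) (y + t))`, and `H` is invariant under translation. -/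
def NENT : Prop := ∀ (G : Type) [AddCommGroup G] [Fintype G] [DecidableEq G] (m : ℕ)
  (σ τ σ' : G → ℝ), IsP σ → IsP τ → IsP σ' →
  ∑ z : Fin m → G, Pz σ τ z * H (cv σ' (post σ τ z)) ≤ H (Nst m σ τ σ')

/-- QW-ESUM: Jensen. PROOF. Apply `GIB` (or concavity of `negMulLog`) to the weights `(i, x) ↦ f i x` on
`Fin (k + 1) × G` and the comparison weights `1 / ((k + 1) |R|)` on `Fin (k + 1) × R`, `0` elsewhere. -/
def ESUM : Prop := ∀ (G : Type) [AddCommGroup G] [Fintype G] [DecidableEq G] (k : ℕ)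
  (f : Fin (k + 1) → G → ℝ) (R : Finset G), (∀ i x, 0 ≤ f i x) → (∀ i x, f i x ≠ 0 → x ∈ R) →
  ∑ i, ∑ x, f i x = 1 → ∑ i, H (f i) ≤ Real.log ((k + 1 : ℝ) * R.card)

/-- QW-DRIFT: the drift of `g = pr σ B` along the walk is controlled by the entropy.
PROOF. For `x, s, t, t'` put `z = s + t`, `y = x - t + t'`, `s' = z - t'`,
`Q = α x * (∏ i, σ (s i)) * τ t * post σ τ z t'` and
`R = Nst α y * (∏ i, σ (s' i)) * τ t' * post σ τ z t * exp (l * (em B s' y - g y) - l ^ 2 / m)`.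
(1) `Q = α x * W`, `R = Nst α y * W * exp (..)` with the same `W = Wt z t * Wt z t' / Pz z`.
(2) The sum of `Q` is `a := ∑ x, α x ≤ 1`; the sum of `R` is at most `a`: substitute `(y, s', t', t)` for
`(x, s, t, t')`, sum over `t` (`∑ post = 1`), over `t'` (`∑ τ = 1`), over `s'` (MGF), and `∑ Nst α = ∑ α`.
(3) `Q * (log (Nst α y) - log (α x) + l * (em B s' y - g y) - l ^ 2 / m) = Q * log (R / Q) ≤ R - Q` if `Q > 0`
(then `Nst α y > 0` as `Q` is one of its terms), and `= 0 ≤ R` if `Q = 0`.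
(4) Sum: `∑ Q log (Nst α y) = ∑ y, Nst α y * log (Nst α y) = - H (Nst α)`, `∑ Q log (α x) = - H α`,
`em B s' y = em B s x` (as `y + s' i = x + s i`), `∑ Q em B s x = ∑ α x * g x`, `∑ Q g y = ∑ Nst α y * g y`. -/
def DRIFT : Prop := ∀ (G : Type) [AddCommGroup G] [Fintype G] [DecidableEq G] (m : ℕ)
  (σ τ α : G → ℝ) (B : Finset G) (l : ℝ), IsP σ → IsP τ → (∀ x, 0 ≤ α x) → ∑ x, α x ≤ 1 →
  0 < m → 0 ≤ l → l ≤ m →
  l * (∑ x, α x * pr σ B x - ∑ y, Nst m σ τ α y * pr σ B y) ≤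
    H (Nst m σ τ α) - H α + l ^ 2 / m

/-- QW-KILL: the killed walk. For an operator `N` on functions with the properties of `Nst`, and `g` with values in
`[0, 1]`.
PROOF. `α 0 = a`, `α (j + 1) = 1_{g ≥ 1/2} N (α j)`, `κ j = 1_{g < 1/2} N (α j)`. `α j ≤ M`, `α j` is supported in
`{a ≠ 0} ∪ {g ≥ 1/2}`, `N (α j)` in `R`. `H (N (α j)) = H (α (j + 1)) + H (κ j)` (disjoint supports). For every `J ≤ k`
the functions `κ 0, …, κ (J - 1), α J` are supported in `R` and have total mass `1` (for `J = 0`: `a` is supported in `R`), so by ESUM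
`∑ j < J, (H (N (α j)) - H (α j)) = H (α J) + ∑ j < J, H (κ j) - H a ≤ log ((J + 1) |R|) + log M ≤ L`
(`H a ≥ - log M` as `0 ≤ a ≤ M`). By the drift hypothesis, summed over `j < J`, and
`∑ (α j - N (α j)) g = ∑ N (α j) (1 - g) - ∑ α j (1 - g) ≥ u (j + 1) - u j + p j / 2`, where `u j = ∑ α j (1 - g)`,
`p j = ∑ κ j` (equal masses of `α j`, `N (α j)`): `l (u J - u 0 + (∑ j < J, p j) / 2) ≤ L + k l² / m`, and
`∑ j < J, p j = 1 - ∑ α J`. So `u J + (1 - ∑ α J) / 2 ≤ δ` for all `J ≤ k`. By the bound for `J = k` some `j < k` has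
`H (N (α j)) - H (α j) ≤ L / k`. Take this `α j`. -/
def KILL : Prop := ∀ (G : Type) [AddCommGroup G] [Fintype G] [DecidableEq G]
  (N : (G → ℝ) → (G → ℝ)) (a g : G → ℝ) (R : Finset G) (k : ℕ) (M L l w u δ : ℝ),
  (∀ α : G → ℝ, (∀ x, 0 ≤ α x) → ∀ y, 0 ≤ N α y) →
  (∀ α : G → ℝ, ∑ y, N α y = ∑ x, α x) →
  (∀ (α : G → ℝ) (M : ℝ), (∀ x, α x ≤ M) → ∀ y, N α y ≤ M) →
  (∀ α : G → ℝ, (∀ x, α x ≠ 0 → a x ≠ 0 ∨ 1 / 2 ≤ g x) → ∀ y, N α y ≠ 0 → y ∈ R) →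
  (∀ x, a x ≠ 0 → x ∈ R) →
  (∀ α : G → ℝ, (∀ x, 0 ≤ α x) → ∑ x, α x ≤ 1 →
    l * (∑ x, α x * g x - ∑ y, N α y * g y) ≤ H (N α) - H α + w) →
  (∀ x, 0 ≤ g x) → (∀ x, g x ≤ 1) → IsP a → (∀ x, a x ≤ M) → 0 < M → 0 < k → 0 < l → 0 ≤ w →
  Real.log ((k + 1 : ℝ) * R.card) + Real.log M ≤ L →
  ∑ x, a x * (1 - g x) ≤ u → u + (L + k * w) / l ≤ δ → δ ≤ 1 / 8 →
  ∃ α : G → ℝ, (∀ x, 0 ≤ α x) ∧ (∀ x, α x ≤ M) ∧ (∀ x, α x ≠ 0 → a x ≠ 0 ∨ 1 / 2 ≤ g x) ∧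
    3 / 4 ≤ ∑ x, α x ∧ ∑ x, α x ≤ 1 ∧ ∑ x, α x * (1 - g x) ≤ δ ∧ H (N α) - H α ≤ L / k

/-- QW-STEP: one level.
PROOF. Apply KILL to `N = Nst m σ τ`, `g = pr σ Z`, `w = l ^ 2 / m` (DRIFT, NST), to get `α`; let `s = ∑ α ≥ 3/4` and
`σ' = α / s`. `H (N σ') - H σ' = (H (N α) - H α) / s ≤ 2 L / k` (the masses of `α`, `N α` are equal). By NENT and T1
`∑ z, Pz z * Y z ≤ 2 L / k` and `∑ z, Pz z * X z ≤ (Lq - H τ) + m c` where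
`Y z = H (cv σ' (post z)) - H σ' ≥ 0` and `X z = Lq - H (post z) ≥ 0` for `Pz z > 0` (BAS: supports in `Q`). So some `z` with
`Pz z > 0` has `X z ≤ 2 ((Lq - H τ) + m c) + 1` and `Y z ≤ 5 L / k`, as otherwise
`X z / (2 x + 1) + Y z / (5 L / k) > 1` for all such `z`, with mean at most `x / (2 x + 1) + 2/5 < 1`. -/
def STEP4 : Prop := ∀ (G : Type) [AddCommGroup G] [Fintype G] [DecidableEq G] (a σ τ : G → ℝ)
  (Z R Q : Finset G) (m k : ℕ) (c u l δ M L Lq : ℝ), IsP a → IsP σ → IsP τ →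
  (∀ t, τ t ≠ 0 → t ∈ Q) → Real.log Q.card ≤ Lq →
  (∀ x, (a x ≠ 0 ∨ 1 / 2 ≤ pr σ Z x) → ∀ t ∈ Q, ∀ t' ∈ Q, x - t + t' ∈ R) →
  (∀ x, a x ≠ 0 → x ∈ R) → (∀ x, a x ≤ M) → 0 < M →
  H (cv σ τ) - H σ ≤ c → ∑ x, a x * (1 - pr σ Z x) ≤ u → 0 < m → 0 < k → 0 < l → l ≤ m → 0 < L →
  Real.log ((k + 1 : ℝ) * R.card) + Real.log M ≤ L → u + (L / l + k * l / m) ≤ δ → δ ≤ 1 / 8 →
  ∃ σ' τ' : G → ℝ, IsP σ' ∧ IsP τ' ∧ (∀ x, σ' x ≠ 0 → a x ≠ 0 ∨ 1 / 2 ≤ pr σ Z x) ∧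
    (∀ x, σ' x ≤ 2 * M) ∧ (∀ t, τ' t ≠ 0 → τ t ≠ 0) ∧
    ∑ x, σ' x * (1 - pr σ Z x) ≤ 2 * δ ∧ Lq - H τ' ≤ 2 * ((Lq - H τ) + m * c) + 1 ∧
    H (cv σ' τ') - H σ' ≤ 5 * L / k

/-- the state after `i` levels (of `n`), `0 ∈ A` -/
def Good4 {G : Type} [AddCommGroup G] [Fintype G] [DecidableEq G] (n : ℕ) (A : Finset G) (i : ℕ)
    (d c : ℝ) : Prop :=
  ∃ a σ τ : G → ℝ, IsP a ∧ IsP σ ∧ IsP τ ∧ (∀ x, a x ≠ 0 → x ∈ (i + 1) • (A - A)) ∧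
    (∀ x, σ x ≠ 0 → x ∈ (i + 1) • (A - A)) ∧ (∀ t, τ t ≠ 0 → t ∈ A) ∧
    (∀ x, a x ≤ 2 ^ i / A.card) ∧ (∀ x, σ x ≤ 2 ^ i / A.card) ∧
    ∑ x, a x * (1 - pr σ (A - A) x) ≤ (2 ^ i - 1) / 2 ^ (n + 5) ∧
    Real.log A.card - H τ ≤ d ∧ H (cv σ τ) - H σ ≤ c

/-- QW-GO04, the start: `a` and `τ` uniform on `A`, `σ` uniform on `-A`. `pr σ (A - A) x = 1` for `x ∈ A`;
`H (cv σ τ) ≤ log |A - A|`. -/
def GO04 : Prop := ∀ (n : ℕ) (G : Type) [AddCommGroup G] [Fintype G] [DecidableEq G] (A : Finset G)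
  (K : ℝ), (0 : G) ∈ A → ((A - A).card : ℝ) ≤ K * A.card → Good4 n A 0 0 (Real.log K)

/-- QW-GOS4, one level.
PROOF. Let `(a, σ, τ)` be the given state, `Z = A - A`, `Q = A`, `Lq = log |A|`, `R = (i + 3) • (A - A)`,
`|R| ≤ K ^ (2 i + 6) |A|` (Plünnecke-Ruzsa in Mathlib), `M = 2 ^ i / |A|`, `ε = 2 ^ (-(n + 6))`,
`u = (2 ^ i - 1) / 2 ^ (n + 5)`, `δ = u + 2 ε ≤ 1/8`.. (so that `2 δ = (2 ^ (i + 1) - 1) / 2 ^ (n + 5)` with `2 ε` =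
`1 / 2 ^ (n + 6)`, that is `δ = u + 1 / 2 ^ (n + 6)`). `L = 100 (n + 1) (1 + log K)`, `k = ⌈5 L / c'⌉`,
`l = L 2 ^ (n + 7)`. New state `(σ, σ', τ')`; `∑ σ (1 - pr σ' Z) = ∑ σ' (1 - pr σ Z)`; support of `σ'`: if `pr σ Z x > 0` then
`x ∈ Z - (i + 1) • Z = (i + 2) • Z` (`Z = - Z`). -/
def GOS4 : Prop := ∀ n : ℕ, ∃ C : ℝ, 0 < C ∧ ∀ (G : Type) [AddCommGroup G] [Fintype G]
  [DecidableEq G] (A : Finset G) (K : ℝ) (i m : ℕ) (d c c' : ℝ), (0 : G) ∈ A → 1 ≤ K →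
  ((A - A).card : ℝ) ≤ K * A.card → i < n → Good4 n A i d c → 0 < m →
  C * (1 + Real.log K) ^ 2 ≤ c' * m → 1 / 32 ≤ c' → c' ≤ 1 + Real.log K →
  Good4 n A (i + 1) (2 * (d + m * c) + 1) c'

/-- `n` levels -/
def GON4 : Prop := ∀ n : ℕ, 1 ≤ n → ∃ C : ℝ, 0 < C ∧ ∀ (G : Type) [AddCommGroup G] [Fintype G]
  [DecidableEq G] (A : Finset G) (K : ℝ), (0 : G) ∈ A → 1 ≤ K →
  ((A - A).card : ℝ) ≤ K * A.card →
  Good4 n A n (C * (1 + Real.log K) ^ ((2 : ℝ) + 1 / n)) (1 / 32)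

/-- QW-FIN4: the Bohr set (compare `Pool/Agent/H98/BG/FIN2.lean`).
PROOF. As in `FIN2.lean`: with `φ y = ∑ x, √(σ x) √(σ (x + y))`, the hypothesis (defect at most `1/32`) and Fourier
inversion give `φ y ≥ 1 - 1/8 - 1/4 = 5/8` for `y` as in the statement. On the other hand, if there were no `x`, `s` with
`σ x ≠ 0`, `σ (x + y) ≠ 0`, `a s ≠ 0`, `s + x ∈ Z`, `s + x + y ∈ Z` then `1 ≤ r x + r (x + y)` whenever `σ x, σ (x + y) ≠ 0`, where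
`r x = P (s + x ∉ Z)`, `s` with law `a`; so by Cauchy-Schwarz
`φ y ≤ ∑ √(σ x) √(σ (x + y)) (r x + r (x + y)) ≤ 2 √(∑ σ x (r x) ^ 2) ≤ 2 √(1/16) = 1/2`, as
`∑ σ x r x = ∑ a s (1 - pr σ Z s) ≤ 1/16`. -/
def FIN4 : Prop := ∀ (G : Type) [AddCommGroup G] [Fintype G] [DecidableEq G] (a σ τ : G → ℝ)
  (Z : Finset G), IsP a → IsP σ → IsP τ →
  ∑ t, ∑ t', τ t * τ t' * (1 - ∑ x, √(σ x) * √(σ (x + (t - t')))) ≤ 1 / 32 →
  ∑ x, a x * (1 - pr σ Z x) ≤ 1 / 16 →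
  ∀ y : G, (∀ χ : AddChar G ℂ, 1 / 2 ≤ ‖∑ t, (τ t : ℂ) * χ t‖ ^ 2 → ‖χ y - 1‖ ≤ 1 / 4) →
  y ∈ Z - Z

/-- the result for finite groups, sets of small doubling -/
def FG4 : Prop := ∀ n : ℕ, 1 ≤ n → ∃ C : ℝ, 0 < C ∧ ∀ (G : Type) [AddCommGroup G] [Fintype G]
  [DecidableEq G] (A : Finset G) (K : ℝ), A.Nonempty → 1 ≤ K →
  ((A - A).card : ℝ) ≤ K * A.card →
  ∃ Γ : Finset (AddChar G ℂ), (Γ.card : ℝ) ≤
      C * (Real.log ((Fintype.card G : ℝ) / A.card) + (1 + Real.log K) ^ ((2 : ℝ) + 1 / n)) ∧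
    ∀ y : G, (∀ χ ∈ Γ, ‖χ y - 1‖ * (4 * (Γ.card : ℝ)) ≤ 1) → y ∈ (A - A) - (A - A)

end Pool.Agent.H952.QW
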